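import Pool.Agent.Helper89.Vol.Goals2

/-! # MP_cd13d2_co : the exact value of `V(4,7)`, packets

`E 4 = EuclideanSpace ℝ (Fin 4)`. Every packet is a `def G_... : Prop`; prove `theorem thm : G_...` (with the
hypotheses named in the docstring), in a file of your own with the namespace `Pool.Agent.HelperNN.Vol4.PkXX`. Many packets are
ports of packets of the project V36 (`V(3,6)`, files `Pool/Agent/HelperNN/Vol/XX.lean`, goals `Pool/Agent/Helper89/Vol/Goals.lean`); the docstring names the file.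

THEOREM. `24 V(4,7) = max_{0 ≤ N ≤ 3/10} f4 N`, `f4 N = √(3/4 - N²) + N √(3 - (1 + 2N)²)` (`= 1.0494486...`). -/

set_option autoImplicit false

namespace Pool.Agent.Helper89.Vol4

open MeasureTheory Set Pool.Agent.Helper86.Poly

/-- the determinant of four vectors -/
noncomputable def dt (u v w z : E 4) : ℝ :=
  Matrix.det !![u 0, u 1, u 2, u 3; v 0, v 1, v 2, v 3; w 0, w 1, w 2, w 3; z 0, z 1, z 2, z 3]

/-- twenty-four times the signed volume of the simplex with the vertices `p q r s t` -/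
noncomputable def br (p q r s t : E 4) : ℝ := dt (q - p) (r - p) (s - p) (t - p)

/-- the `7 × 7` determinant with the rows `(1, x k 0, x k 1, x k 2, x k 3, u k, v k)` -/
noncomputable def W (x : Fin 7 → E 4) (u v : Fin 7 → ℝ) : ℝ :=
  Matrix.det (Matrix.of fun k : Fin 7 => ![1, x k 0, x k 1, x k 2, x k 3, u k, v k])

/-- `Dt x i j = W x e_i e_j`: up to the sign it is 24 times the volume of the hull of the five points
`x k`, `k ≠ i, j`. -/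
noncomputable def Dt (x : Fin 7 → E 4) (i j : Fin 7) : ℝ := W x (Pi.single i 1) (Pi.single j 1)

/-- the function whose maximum on `[0, 3/10]` is `24 V(4,7)` -/
noncomputable def f4 (N : ℝ) : ℝ := √(3 / 4 - N ^ 2) + N * √(3 - (1 + 2 * N) ^ 2)

/-- the height of the two outer vertices of the pentagon -/
noncomputable def vv (N : ℝ) : ℝ := √(3 / 4 - (1 / 2 + N) ^ 2)

/-- the seven points of the extremal polytope: a pentagon in the plane of the first two coordinates, two adjacent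
vertices `(-N, 0)`, `(N, 0)` of which are replaced by segments of length one in the directions of the third and the
fourth coordinate. -/
noncomputable def Q4 (N : ℝ) : Fin 7 → E 4 :=
  ![!₂[-N, 0, -(1 / 2), 0], !₂[-N, 0, 1 / 2, 0], !₂[N, 0, 0, -(1 / 2)], !₂[N, 0, 0, 1 / 2],
    !₂[1 / 2, vv N, 0, 0], !₂[0, √(3 / 4 - N ^ 2), 0, 0], !₂[-(1 / 2), vv N, 0, 0]]

/-- the planar pentagon -/
noncomputable def P5 (N : ℝ) : Fin 5 → (Fin 2 → ℝ) :=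
  ![![-N, 0], ![N, 0], ![1 / 2, vv N], ![0, √(3 / 4 - N ^ 2)], ![-(1 / 2), vv N]]

/-- the ten canonical sign patterns -/
def PL : List (Fin 7 → ℝ) :=
  [![1, 1, 1, 1, 1, 1, 1], ![1, 1, 1, 1, 1, -1, 1], ![1, 1, 1, 1, -1, -1, 1], ![1, 1, 1, 1, -1, 1, 1],
   ![1, 1, 1, -1, -1, -1, 1], ![1, 1, 1, -1, -1, 1, 1], ![1, 1, 1, -1, 1, -1, 1],
   ![1, 1, -1, -1, 1, -1, 1], ![1, 1, -1, 1, 1, -1, 1], ![1, -1, 1, -1, 1, -1, 1]]

/-- the sum over the simplices of a sign pattern -/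
noncomputable def T (y : Fin 7 → E 4) (c : ℝ) (s : Fin 7 → ℝ) : ℝ :=
  ∑ m, ∑ n, if n < m ∧ 1 ≤ n ∧ s m = 1 ∧ s n = -1 then c * Dt y m n else 0

/-- a sign pattern -/
def Pat (c : ℝ) (s : Fin 7 → ℝ) : Prop := (c = 1 ∨ c = -1) ∧ s ∈ PL

/-- pattern `pppmpmp` -/
noncomputable def p31 (y : Fin 7 → E 4) : ℝ :=
  dt (y 1 - y 0) (y 2 - y 0) (y 3 - y 0) (y 4 - y 0) + dt (y 1 - y 0) (y 2 - y 0) (y 4 - y 0) (y 5 - y 0) +
  dt (y 1 - y 0) (y 2 - y 0) (y 5 - y 0) (y 6 - y 0)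

/-- pattern `ppmmpmp` (p = plus, m = minus), the extremal one -/
noncomputable def p22 (y : Fin 7 → E 4) : ℝ :=
  dt (y 1 - y 0) (y 3 - y 2) (y 2 - y 0) (y 4 - y 0) + dt (y 1 - y 0) (y 3 - y 2) (y 4 - y 0) (y 5 - y 0) +
  dt (y 1 - y 0) (y 3 - y 2) (y 5 - y 0) (y 6 - y 0)

/-- pattern `ppmppmp` -/
noncomputable def p212 (y : Fin 7 → E 4) : ℝ :=
  dt (y 1 - y 0) (y 4 - y 3) (y 2 - y 0) (y 3 - y 0) + dt (y 1 - y 0) (y 4 - y 3) (y 3 - y 0) (y 5 - y 0) +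
  dt (y 1 - y 0) (y 4 - y 3) (y 5 - y 0) (y 6 - y 0)

/-- pattern `pmpmpmp` (cyclic polytopes): the Pfaffian of the area bivector of the closed heptagon -/
noncomputable def pf (y : Fin 7 → E 4) : ℝ :=
  dt (y 1 - y 0) (y 2 - y 0) (y 3 - y 0) (y 4 - y 0) + dt (y 1 - y 0) (y 2 - y 0) (y 4 - y 0) (y 5 - y 0) +
  dt (y 1 - y 0) (y 2 - y 0) (y 5 - y 0) (y 6 - y 0) + dt (y 2 - y 0) (y 3 - y 0) (y 4 - y 0) (y 5 - y 0) +
  dt (y 2 - y 0) (y 3 - y 0) (y 5 - y 0) (y 6 - y 0) + dt (y 3 - y 0) (y 4 - y 0) (y 5 - y 0) (y 6 - y 0)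

/-! ## Part D: determinants -/

/-- G_D1 (port of `Pool.Agent.Helper71.Vol.D1`). -/
def G_D1 : Prop := ∀ x : Fin 7 → E 4, (∀ i j, Dt x i j = -Dt x j i) ∧ (∀ i, ∑ j, Dt x i j = 0) ∧
  ∀ i (m : Fin 4), ∑ j, Dt x i j * x j m = 0

/-- G_D2, the Pluecker relation (port of `Pool.Agent.Helper14.Vol.D2`). -/
def G_D2 : Prop := ∀ (x : Fin 7 → E 4) (i j k l : Fin 7),
  Dt x i j * Dt x k l - Dt x i k * Dt x j l + Dt x i l * Dt x j k = 0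

/-- G_D3 (port of `Pool.Agent.Helper72.Vol.D3`). -/
def G_D3 : Prop := ∀ (x : Fin 7 → E 4) (σ : Equiv.Perm (Fin 7)) (i j : Fin 7),
  Dt (x ∘ σ) i j = (Equiv.Perm.sign σ : ℤ) * Dt x (σ i) (σ j)

/-- G_D4, the minors (port of `Pool.Agent.Helper22.Vol.D4`): the sign is `(-1)^(i+j+1)` for `i < j`. -/
def G_D4 : Prop := ∀ x : Fin 7 → E 4,
  (Dt x 1 2 = br (x 0) (x 3) (x 4) (x 5) (x 6) ∧ Dt x 1 3 = -br (x 0) (x 2) (x 4) (x 5) (x 6) ∧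
    Dt x 1 4 = br (x 0) (x 2) (x 3) (x 5) (x 6) ∧ Dt x 1 5 = -br (x 0) (x 2) (x 3) (x 4) (x 6) ∧
    Dt x 1 6 = br (x 0) (x 2) (x 3) (x 4) (x 5)) ∧
  (Dt x 2 3 = br (x 0) (x 1) (x 4) (x 5) (x 6) ∧ Dt x 2 4 = -br (x 0) (x 1) (x 3) (x 5) (x 6) ∧
    Dt x 2 5 = br (x 0) (x 1) (x 3) (x 4) (x 6) ∧ Dt x 2 6 = -br (x 0) (x 1) (x 3) (x 4) (x 5)) ∧
  (Dt x 3 4 = br (x 0) (x 1) (x 2) (x 5) (x 6) ∧ Dt x 3 5 = -br (x 0) (x 1) (x 2) (x 4) (x 6) ∧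
    Dt x 3 6 = br (x 0) (x 1) (x 2) (x 4) (x 5)) ∧
  (Dt x 4 5 = br (x 0) (x 1) (x 2) (x 3) (x 6) ∧ Dt x 4 6 = -br (x 0) (x 1) (x 2) (x 3) (x 5)) ∧
  Dt x 5 6 = br (x 0) (x 1) (x 2) (x 3) (x 4)

/-- G_D5, volumes: `theorem thm (hSV : G_SV) (h3 : G_D3) (h4 : G_D4) : G_D5` (port of `Pool.Agent.Helper26.Vol.D5`). -/
def G_D5 : Prop := ∀ (x : Fin 7 → E 4) (i j : Fin 7), i ≠ j →
  24 * volume (convexHull ℝ (x '' {k | k ≠ i ∧ k ≠ j})) = ENNReal.ofReal |Dt x i j|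

/-- G_DENS, generic points are dense (port of `Pool.Agent.Helper94.Vol.DENS`; moment curve `(k, k², k³, k⁴)`). -/
def G_DENS : Prop := ∀ (x : Fin 7 → E 4) (δ : ℝ), 0 < δ → ∃ y : Fin 7 → E 4,
  (∀ i, dist (x i) (y i) < δ) ∧ ∀ i j, i ≠ j → Dt y i j ≠ 0

/-! ## Part C: combinatorics and covering -/

/-- G_SRT, sorting (port of `Pool.Agent.Helper13.Vol.SRT`, goal `Pool.Agent.Helper89.Vol.G_SRT`, with `7` for `6`). -/
def G_SRT : Prop := ∀ D : Fin 7 → Fin 7 → ℝ, (∀ i j, D i j = -D j i) → (∀ i j, i ≠ j → D i j ≠ 0) →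
  (∀ i j k l, D i j * D k l - D i k * D j l + D i l * D j k = 0) →
  ∃ (σ : Equiv.Perm (Fin 7)) (s : Fin 7 → ℝ), (∀ i, s i = 1 ∨ s i = -1) ∧
    ∀ i j, i < j → 0 < s i * s j * D (σ i) (σ j)

/-- G_CAN, canonical patterns: `theorem thm (h : G_SRT) : G_CAN` (compare `Pool.Agent.Helper34.Vol.TW`).
Proof. From `G_SRT` take `σ, s`. Rotation: `σ' i = σ (i + 1)` (cyclic), `s' i = s (i + 1)` for `i < 6` and `s' 6 = -s 0` have the same property, and so have `σ`, `-s`. Every sign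
vector of length 7 is mapped to one of the ten vectors of `PL` by some number of rotations, possibly followed by `s ↦ -s`: this is checked by `decide` for the 128
Boolean vectors (for example: define `rot` on `Fin 7 → Bool`, `decide` that for all `b` there are `k < 14` and a sign with `rot^k b` (or its negation) in the Boolean version of `PL`; translate). -/
def G_CAN : Prop := ∀ D : Fin 7 → Fin 7 → ℝ, (∀ i j, D i j = -D j i) → (∀ i j, i ≠ j → D i j ≠ 0) →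
  (∀ i j k l, D i j * D k l - D i k * D j l + D i l * D j k = 0) →
  ∃ (σ : Equiv.Perm (Fin 7)) (s : Fin 7 → ℝ), s ∈ PL ∧ ∀ i j, i < j → 0 < s i * s j * D (σ i) (σ j)

/-- G_COV1, covering, pointwise (compare `Pool.Agent.Helper62.Vol.COV1`; here only one vertex `a` is distinguished).
Proof. Let `p` be in the hull and not in the hull of any four (or fewer) of the points. The set `Λ` of the `w : Fin 7 → ℝ`, `w ≥ 0`,
`∑ w = 1`, `∑ w k • x k = p` is nonempty and compact. Let `w` maximise `w a` on `Λ`. (1) At least two coordinates of `w` vanish. Otherwise there is `i` with `w k > 0` for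
all `k ≠ i`. If `i ≠ a`: for small `|t|`, `w + t D i · ∈ Λ` (its `i`-th entry is `0`) and `D i a ≠ 0`: contradiction to the maximality. If `i = a`: take any `j ≠ a`; for small `t > 0` and the sign `ε` of `D j a`,
`w + t ε D j · ∈ Λ` (all `w k > 0` for `k ≠ a`, and the entry `a` becomes positive): contradiction. (2) By the choice of `p` exactly two coordinates vanish, `w i = w j = 0`, `0 < D i j` after exchanging. `w + t D i · ∈ Λ` and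
`w - t D j · ∈ Λ` for small `t > 0`, so `D i a ≤ 0 ≤ D j a`. `i = a` would give `D j a = -D a j < 0`, `j = a` would give `D i a > 0`. So `i, j ≠ a` and `D i a < 0 < D j a`. -/
def G_COV1 : Prop := ∀ (x : Fin 7 → E 4) (D : Fin 7 → Fin 7 → ℝ) (a : Fin 7),
  (∀ i j, D i j = -D j i) → (∀ i j, i ≠ j → D i j ≠ 0) → (∀ i, ∑ j, D i j = 0) →
  (∀ i (m : Fin 4), ∑ j, D i j * x j m = 0) → ∀ p ∈ convexHull ℝ (range x),
  (∀ S : Finset (Fin 7), S.card ≤ 4 → p ∉ convexHull ℝ (x '' (S : Set (Fin 7)))) →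
  ∃ i j, 0 < D a i ∧ 0 < D j a ∧ 0 < D i j ∧ p ∈ convexHull ℝ (x '' {k | k ≠ i ∧ k ≠ j})

/-- G_COV2, covering, volumes: `theorem thm (h : G_COV1) : G_COV2` (port of `Pool.Agent.Helper32.Vol.COV2`; the hull of at most four points of `E 4` is null). -/
def G_COV2 : Prop := ∀ (x : Fin 7 → E 4) (D : Fin 7 → Fin 7 → ℝ) (a : Fin 7),
  (∀ i j, D i j = -D j i) → (∀ i j, i ≠ j → D i j ≠ 0) → (∀ i, ∑ j, D i j = 0) →
  (∀ i (m : Fin 4), ∑ j, D i j * x j m = 0) →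
  volume (convexHull ℝ (range x)) ≤ ∑ i, ∑ j, if 0 < D a i ∧ 0 < D j a ∧ 0 < D i j then
      volume (convexHull ℝ (x '' {k | k ≠ i ∧ k ≠ j})) else 0

/-- G_GEN, the covering inequality for generic points: prove
`theorem thm (h1 : G_D1) (h2 : G_D2) (h3 : G_D3) (h5 : G_D5) (hT : G_CAN) (hC : G_COV2) : G_GEN` (compare `Pool.Agent.Helper44.Vol.GEN`).
Proof. `G_CAN` for `D = Dt x` gives `σ, s` (`s 0 = 1` for all patterns). Let `a = σ 0`, `y = x ∘ σ`, `c = sign σ`, so `Dt x (σ m) (σ n) = c * Dt y m n`. By `G_COV2` and `G_D5`,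
`24 vol ≤ ∑ |D i j|` over the pairs `i = σ m`, `j = σ n` with `D a i > 0`, `D j a > 0`, `D i j > 0`. Then `m, n ≠ 0`, `s m = 1`, `s n = -1`, `m > n` (if `m < n` then `0 < s m * s n * D i j = -D i j`). So the sum is at most `T y c s`,
all of whose terms are positive. -/
def G_GEN : Prop := ∀ x : Fin 7 → E 4, (∀ i j, i ≠ j → Dt x i j ≠ 0) →
  ∃ (σ : Equiv.Perm (Fin 7)) (c : ℝ) (s : Fin 7 → ℝ), Pat c s ∧
    24 * volume (convexHull ℝ (range x)) ≤ ENNReal.ofReal (T (x ∘ σ) c s)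

/-- G_ALL: `theorem thm (hG : G_GEN) (hD : G_DENS) (hL : Pool.Agent.Helper89.Vol.G_LSC) : G_ALL` (port of `Pool.Agent.Helper78.Vol.ALL`; here the set of the
patterns is a list). -/
def G_ALL : Prop := ∀ x : Fin 7 → E 4, ∃ (σ : Equiv.Perm (Fin 7)) (c : ℝ) (s : Fin 7 → ℝ), Pat c s ∧
    24 * volume (convexHull ℝ (range x)) ≤ ENNReal.ofReal (T (x ∘ σ) c s)

/-- G_HAD, Hadamard (compare `Pool.Agent.Helper48.Vol.HAD`): vectors of length at most one. Proof. For example: `(det M)² = det (M Mᵀ)`, and the Gram determinant of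
unit vectors is at most `1` (AM-GM for the eigenvalues, trace `≤ 4`), or by the orthogonal projection on a hyperplane and the three-dimensional case. -/
def G_HAD : Prop := ∀ u v w z : E 4, ‖u‖ ≤ 1 → ‖v‖ ≤ 1 → ‖w‖ ≤ 1 → ‖z‖ ≤ 1 → |dt u v w z| ≤ 1

/-- G_FIN, the ten patterns: `theorem thm (h1 : G_D1) (h4 : G_D4) (hH : G_HAD) : G_FIN` (compare `Pool.Agent.Helper52.Vol.FIN2`).
Proof. Put `u k = y k - y 0`, so `br (y 0) (y i) (y j) (y k) (y l) = dt (u i) (u j) (u k) (u l) =: [i j k l]`, multilinear and alternating. By `G_D1`, `G_D4`, for `m > n ≥ 1`: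
`Dt y m n = (-1)^(m+n) [rest]` (`rest` = the four numbers of `1..6` different from `m`, `n`, increasing). The patterns (p = plus, m = minus):
`ppppppp`: no terms, `T = 0`. `pppppmp`: `-c [1 2 3 4]`. `ppppmmp`: `c ([1 2 3 5] - [1 2 3 4])`. `ppppmpp`: `c ([1 2 3 5] - [1 2 3 6])`.
`pppmmmp`: `-c ([1 2 4 5] - [1 2 3 5] + [1 2 3 4])`, `= -c dt (u 1) (u 2) (u 4 - u 3) (u 5 - u 3)`.
`pppmmpp`: `c ([1 2 4 6] - [1 2 3 6] - [1 2 4 5] + [1 2 3 5]) = c dt (u 1) (u 2) (u 4 - u 3) (u 6 - u 5)`: all these are at most `1` by `G_HAD` (differences of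
points have length at most one). `pppmpmp`: `-c p31 y`. `ppmmpmp`: `c p22 y`. `ppmppmp`: `-c p212 y`. `pmpmpmp`: `-c pf y`. (Signs are not important; check them.) -/
def G_FIN : Prop := ∀ y : Fin 7 → E 4, (∀ i j, dist (y i) (y j) ≤ 1) → ∀ (c : ℝ) (s : Fin 7 → ℝ), Pat c s →
  T y c s ≤ 1 ∨ T y c s ≤ |p31 y| ∨ T y c s ≤ |p22 y| ∨ T y c s ≤ |p212 y| ∨ T y c s ≤ |pf y|

/-! ## Part J: planar inequalities -/

/-- G_J47. Proof. Let `M0 = √(3/4 - N²)`. Case A, `M0 g2 ≤ N g1`: as in `Pool.Agent.Helper89.Vol.G_JA1` the left side is at most `M0 g1 + N √(3 - (g1 + 2N)²)`. For `N ≤ 29/100` this is at most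
`f4 N` (as in `G_JA2` of V36: `N (1 + 2N) ≤ M0 √B`, `B = 3 - (1 + 2N)²`; the left side of the square is at most `0.21`, the right side at least `0.33`); for `N ≥ 29/100` it is at most
`√((M0² + N²) 3) - 2 N M0 = 3/2 - 2 N M0 ≤ 1.03` (`N² (3/4 - N²)` is increasing for `N² ≤ 3/8`). Case B, `N g1 < M0 g2`, so `2 N g1 ≤ √3 g2`: with `G = √(g1² + g2²)`, `R = √3/2`:
`(k + N) g2 + M g1 ≤ R G`, `S ≤ (S² + 1)/2`, so `LHS ≤ R G - N (g2 + 2 N g1) + (N/2)(4 - G² - 4N²)`, and `g2 + 2 N g1 ≥ 2.8 N G`: the difference of the squares is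
`(1 - 7.84 N²) g2² + 4 N g1 g2 - 3.84 N² g1² ≥ (4.6188 - 3.84) N² g1² ≥ 0`. So `LHS ≤ G (R - 2.8 N²) + (N/2)(4 - G² - 4N²)`, increasing in `G ∈ [0,1]`, so at most
`R - 2.8 N² + (N/2)(3 - 4N²) ≤ 1.04`. (`1.0494 < f4 (56/250) ≤ C`: take `G_NUM4` as a hypothesis: `theorem thm (hn : G_NUM4) : G_J47`.) -/
def G_J47 : Prop := ∀ C : ℝ, (∀ N ∈ Icc (0 : ℝ) (3 / 10), f4 N ≤ C) →
  ∀ N k M g1 g2 S : ℝ, 0 ≤ N → N ^ 2 ≤ 1 / 8 → 0 ≤ k → 0 ≤ M → 0 ≤ g1 → 0 ≤ g2 → 0 ≤ S →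
  (k + N) ^ 2 + M ^ 2 ≤ 3 / 4 → g1 ^ 2 + g2 ^ 2 ≤ 1 →
  S ^ 2 + g1 ^ 2 + g2 ^ 2 + 4 * N ^ 2 + 4 * N * g1 ≤ 3 → k * g2 + M * g1 + N * S ≤ C

/-- G_J3. Proof. `M0 = √(1 - N²)`, `γ = 1/√2 ≤ 0.7072`. Case A, `M0 g2 ≤ N g1`: as in `Pool.Agent.Helper89.Vol.G_JA1` the left side is at most `M0 g1 + N S`, `S² ≤ 3 - (g1 + 2N)²`, and
`S ≤ (S² + 1.07²)/2.14`, so it is at most `M0 g1 + (N/2.14)(4.1449 - (g1 + 2N)²)`, increasing in `g1 ≤ γ` (derivative `≥ M0 - (N/1.07)(γ + 2N) > 0`), so at most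
`M0 γ + (N/2.14)(4.1449 - (γ + 2N)²) ≤ 1.03` (`M0 ≤ (1 - N² + 0.945²)/1.89`; a cubic; the maximum is `≈ 1.0185` at `N ≈ 0.33`). Case B, `N g1 < M0 g2`, so `N g1 ≤ g2`: with `G = √(g1² + g2²)`:
`(k + N) g2 + M g1 ≤ G`, `S ≤ (S² + 1.21)/2.2`, so `LHS ≤ G - N (g2 + κ g1) + (N/2.2)(4.21 - G² - 4N²)`, `κ = 2N/1.1`. (i) `N ≤ 5/13`: `g2 + κ g1 ≥ 2.6 N G` (difference of the squares:
`(1 - 6.76 N²) g2² + 2 κ g1 g2 - (6.76 N² - κ²) g1² ≥ (3.636 - 3.455) N² g1²`), so `LHS ≤ G (1 - 2.6 N²) + (N/2.2)(4.21 - G² - 4N²)`, increasing in `G ≤ γ`, `≤ 1.01`. (ii) `N ≥ 5/13`: `g2 + κ g1 ≥ G`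
(difference of the squares `g1 (2 κ g2 - (1 - κ²) g1) ≥ g1² (2 κ N + κ² - 1) ≥ 0`), so `LHS ≤ G (1 - N) + (N/2.2)(4.21 - G² - 4N²) ≤ 1`. -/
def G_J3 : Prop := ∀ N k M g1 g2 S : ℝ, 0 ≤ N → N ≤ 1 / 2 → 0 ≤ k → 0 ≤ M → 0 ≤ g1 → 0 ≤ g2 → 0 ≤ S →
  (k + N) ^ 2 + M ^ 2 ≤ 1 → g1 ^ 2 + g2 ^ 2 ≤ 1 / 2 →
  S ^ 2 + g1 ^ 2 + g2 ^ 2 + 4 * N ^ 2 + 4 * N * g1 ≤ 3 → k * g2 + M * g1 + N * S ≤ 1.04

/-- G_NUM4, numerics (compare `Pool.Agent.Helper76.Vol.NUM`). Tangents at `N₀ = 0.22401`: `α = √(3/4 - N₀²) = 0.836553...`, `β = √(3 - (1 + 2N₀)²) = 0.950378...`. -/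
def G_NUM4 : Prop := (∃ N ∈ Icc (0 : ℝ) (3 / 10), ∀ M ∈ Icc (0 : ℝ) (3 / 10), f4 M ≤ f4 N) ∧
  (1.049448 < f4 (224 / 1000)) ∧ ∀ N ∈ Icc (0 : ℝ) (3 / 10), f4 N < 1.049449

/-- G_UNI4, the maximiser is unique, and its equation (port of `Pool.Agent.Helper98.Vol.UNI`). `f4' N = -N/√(3/4 - N²) + (2 - 6N - 8N²)/√(2 - 4N - 4N²)` (`3 - (1 + 2N)² = 2 - 4N - 4N²`); `f4` is strictly concave on
`[0, 3/10]`; the maximiser is in the interior (`f4 0 = √3/2 < 1`, `f4 (3/10) < 1.0494`), and `f4' N = 0` gives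
`(1 - 3N - 4N²)² (3 - 4N²) = 2 N² (1 - 2N - 2N²)`. -/
def G_UNI4 : Prop := ∀ N ∈ Icc (0 : ℝ) (3 / 10), (∀ M ∈ Icc (0 : ℝ) (3 / 10), f4 M ≤ f4 N) →
  (∀ M ∈ Icc (0 : ℝ) (3 / 10), f4 M = f4 N → M = N) ∧
  64 * N ^ 6 + 96 * N ^ 5 - 48 * N ^ 4 - 100 * N ^ 3 + 3 * N ^ 2 + 18 * N - 3 = 0 ∧
  0.224 < N ∧ N < 0.2241

/-- G_Q22, the planar inequality for the extremal pattern: `theorem thm (h : G_J47) : G_Q22` (compare `Pool.Agent.Helper16.Vol.PA0`).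
The pentagon is `O = (0,0)`, `b = (b0, 0)`, `u`, `v`, `w`. Proof. Let `L = l1 l2 ∈ [0,1]`. With the origin at `v` and `a = w - v`, `b' = O - v`, `c' = b - v`, `d = u - v`: the bracket is
`a × b' + b' × c' + c' × d = m × g + n × σ`, where `m = (b' + c')/2`, `n = (c' - b')/2 = (b0/2, 0)`, `g = d - a = u - w`, `σ = a + d - b' - c' = u + w - O - b` (polynomial identity). For `L = 0` trivial. Put `β = √(3/(4 - L))`, `α = L/β = L √((4 - L)/3)`, so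
`L (m × g + n × σ) = (α m) × (β g) + (α n) × (β σ)`. `G_J47` with `N = α b0/2`, `k = α |m0|`, `M = α |m1|`, `g1 = β |g0|`, `g2 = β |g_1|`, `S = β |σ1|`. Conditions: `(|m0| + n)² + m1²` is `|O - v|²` or `|b - v|²`, at most
`1 - l²/4`, `l = min (l1, l2) ≥ L`, so `(k + N)² + M² ≤ α² (1 - L²/4) = L² (4 - L)(4 - L²)/12 ≤ 3/4`. `β ≤ 1` so `g1² + g2² ≤ |u - w|² ≤ 1`. From `|w - b|² + |u - O|² = |σ|²/2 + 2 |g/2 + n|²` and
`|w - O|² + |u - b|² = |σ|²/2 + 2 |g/2 - n|²`, both at most `2 - (l1² + l2²)/4 ≤ 2 - L/2`: `|σ|² + |g|² + 4 n² + 4 n |g0| ≤ 4 - L`, times `β²`, and `α ≤ β` (`L² (4-L)² ≤ 9`). `N² = α² b0²/4 ≤ α² (1 - L/2)/4 = L² (4 - L)(2 - L)/24 ≤ 1/8`. -/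
def G_Q22 : Prop := ∀ C : ℝ, (∀ N ∈ Icc (0 : ℝ) (3 / 10), f4 N ≤ C) →
  ∀ l1 l2 b0 u0 u1 v0 v1 w0 w1 : ℝ, 0 ≤ l1 → l1 ≤ 1 → 0 ≤ l2 → l2 ≤ 1 → 0 ≤ b0 →
  u0 ^ 2 + u1 ^ 2 ≤ 1 - l1 ^ 2 / 4 → v0 ^ 2 + v1 ^ 2 ≤ 1 - l1 ^ 2 / 4 → w0 ^ 2 + w1 ^ 2 ≤ 1 - l1 ^ 2 / 4 →
  (u0 - b0) ^ 2 + u1 ^ 2 ≤ 1 - l2 ^ 2 / 4 → (v0 - b0) ^ 2 + v1 ^ 2 ≤ 1 - l2 ^ 2 / 4 →
  (w0 - b0) ^ 2 + w1 ^ 2 ≤ 1 - l2 ^ 2 / 4 → b0 ^ 2 ≤ 1 - (l1 ^ 2 + l2 ^ 2) / 4 →
  (u0 - v0) ^ 2 + (u1 - v1) ^ 2 ≤ 1 → (u0 - w0) ^ 2 + (u1 - w1) ^ 2 ≤ 1 →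
  (v0 - w0) ^ 2 + (v1 - w1) ^ 2 ≤ 1 →
  l1 * l2 * |b0 * u1 + (u0 * v1 - u1 * v0) + (v0 * w1 - v1 * w0)| ≤ C

/-- G_Q212, the planar inequality for the pattern 212: `theorem thm (h : G_J3) : G_Q212`.
The pentagon is `O = (0,0)`, `t`, `b`, `v`, `w` with `v1 = w1`, `v0 ≤ w0`. Proof. `L = l1 l2`. With the origin at `t` and `a = b - t`, `b' = v - t`, `c' = w - t`, `d = O - t`: the bracket `t × b + b × v + v × w` is
`a × b' + b' × c' + c' × d = m × g + n × σ`, `m = (b' + c')/2`, `n = (w - v)/2`, `g = d - a = O - b`, `σ = O + b - v - w`. `β = √(3/(4 - L))`, `α = L/β`, `L (m × g + n × σ) = m × (L g) + (α n) × (β σ)`. `G_J3` with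
`N = α |n|`, `k = |m0|`, `M = |m1|`, `g1 = L |g0|`, `g2 = L |g_1|`, `S = β |σ1|`: `α ≤ 1`, so `(k + N)² + M² ≤ 1` (`|v - t|, |w - t| ≤ 1`); `L² |g|² ≤ L² (1 - (l1² + l2²)/4) ≤ L² (1 - L/2) ≤ 1/2`;
`|σ|² + |g|² + 4n² + 4 |g · n| ≤ 4 - (l1² + l2²)/2 ≤ 4 - L` (from `|b - w|² + |O - v|²` and `|b - v|² + |O - w|²`, both `≤ 2 - (l1² + l2²)/4`), times `β²`, and `L ≤ β`, `α ≤ β`, so the third condition holds. -/
def G_Q212 : Prop := ∀ l1 l2 b0 b1 t0 t1 v0 v1 w0 : ℝ, 0 ≤ l1 → l1 ≤ 1 → 0 ≤ l2 → l2 ≤ 1 → v0 ≤ w0 →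
  t0 ^ 2 + t1 ^ 2 ≤ 1 - l1 ^ 2 / 4 → v0 ^ 2 + v1 ^ 2 ≤ 1 - l1 ^ 2 / 4 → w0 ^ 2 + v1 ^ 2 ≤ 1 - l1 ^ 2 / 4 →
  (t0 - b0) ^ 2 + (t1 - b1) ^ 2 ≤ 1 - l2 ^ 2 / 4 → (v0 - b0) ^ 2 + (v1 - b1) ^ 2 ≤ 1 - l2 ^ 2 / 4 →
  (w0 - b0) ^ 2 + (v1 - b1) ^ 2 ≤ 1 - l2 ^ 2 / 4 → b0 ^ 2 + b1 ^ 2 ≤ 1 - (l1 ^ 2 + l2 ^ 2) / 4 →
  (v0 - t0) ^ 2 + (v1 - t1) ^ 2 ≤ 1 → (w0 - t0) ^ 2 + (v1 - t1) ^ 2 ≤ 1 → (w0 - v0) ^ 2 ≤ 1 →
  l1 * l2 * |(t0 * b1 - t1 * b0) + (b0 * v1 - b1 * v0) + (v0 * v1 - v1 * w0)| ≤ 1.04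

/-- G_FRM4, an adapted frame (compare `Pool.Agent.Helper35.Vol.FRM`). Proof. Choose an orthonormal basis `f0, f1, f2, f3` of `E 4` with `e, e' ∈ span (f2, f3)` (a two-dimensional subspace containing both), `f0` in the direction of the
orthogonal projection of `n` on the orthogonal complement of `span (f2, f3)` (any unit vector if it vanishes). `L` maps `p` to its coordinates. -/
def G_FRM4 : Prop := ∀ e e' n : E 4, ∃ (L : E 4 ≃ₗᵢ[ℝ] E 4) (ε : ℝ), (ε = 1 ∨ ε = -1) ∧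
  (∀ u v w z : E 4, dt (L u) (L v) (L w) (L z) = ε * dt u v w z) ∧
  L e 0 = 0 ∧ L e 1 = 0 ∧ L e' 0 = 0 ∧ L e' 1 = 0 ∧ L n 1 = 0 ∧ 0 ≤ L n 0

/-- G_P22: `theorem thm (h : G_Q22) (hF : G_FRM4) : G_P22` (compare `Pool.Agent.Helper17.Vol.PATH`).
Proof. `G_FRM4` for `e = y 1 - y 0`, `e' = y 3 - y 2`, `n = y 2 - y 0`; `y' k = L (y k - y 0)`, `l1 = ‖e‖`, `l2 = ‖e'‖`. `dt (y' 1) (y' 3 - y' 2) p q = Δ (p 0 * q 1 - p 1 * q 0)`, `Δ = e 2 * e' 3 - e 3 * e' 2` (in the new coordinates), `|Δ| ≤ l1 l2`. Planar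
points: `O` = the first two coordinates of `y' 0` and of `y' 1`, `b` = the ones of `y' 2` and `y' 3`, `u, v, w` = the ones of `y' 4, y' 5, y' 6`. For a point `x` with distances at most one from `p` and `q`, where `q - p` has first two coordinates `0`:
`(x0 - p0)² + (x1 - p1)² ≤ 1 - ‖q - p‖²/4` (parallelogram law). `b0² ≤ 1 - (l1² + l2²)/4` from the four distances between `y 0, y 1` and `y 2, y 3` (midpoints). -/
def G_P22 : Prop := ∀ C : ℝ, (∀ N ∈ Icc (0 : ℝ) (3 / 10), f4 N ≤ C) →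
  ∀ y : Fin 7 → E 4, (∀ i j, dist (y i) (y j) ≤ 1) → |p22 y| ≤ C

/-- G_P212: `theorem thm (h : G_Q212) (hF : G_FRM4) : G_P212`. As `G_P22` with `e = y 1 - y 0`, `e' = y 4 - y 3`, `n = y 6 - y 5`; `t` = planar part of `y' 2`, `b` = the one of `y' 3` and `y' 4`,
`v, w` = the ones of `y' 5, y' 6`. -/
def G_P212 : Prop := ∀ y : Fin 7 → E 4, (∀ i j, dist (y i) (y j) ≤ 1) → |p212 y| ≤ 1.04

/-- G_PLN, the planar pentagon inequality of V36: `theorem thm (h : Pool.Agent.Helper89.Vol.G_PATH) (hn : Pool.Agent.Helper89.Vol.G_NUM) : G_PLN`.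
Proof. `G_PATH` of V36 (`C = 1.172454`) for the points `(0,0,0)`, `(0,0,1)`, `(a, 1/2)`, `(b, 1/2)`, `(c, 1/2)`, `(d, 1/2)` of `E 3`; `br 0 (0,0,1) p q = p0 q1 - p1 q0`. -/
def G_PLN : Prop := ∀ a0 a1 b0 b1 c0 c1 d0 d1 : ℝ,
  a0 ^ 2 + a1 ^ 2 ≤ 3 / 4 → b0 ^ 2 + b1 ^ 2 ≤ 3 / 4 → c0 ^ 2 + c1 ^ 2 ≤ 3 / 4 → d0 ^ 2 + d1 ^ 2 ≤ 3 / 4 →
  (a0 - b0) ^ 2 + (a1 - b1) ^ 2 ≤ 1 → (a0 - c0) ^ 2 + (a1 - c1) ^ 2 ≤ 1 → (a0 - d0) ^ 2 + (a1 - d1) ^ 2 ≤ 1 →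
  (b0 - c0) ^ 2 + (b1 - c1) ^ 2 ≤ 1 → (b0 - d0) ^ 2 + (b1 - d1) ^ 2 ≤ 1 → (c0 - d0) ^ 2 + (c1 - d1) ^ 2 ≤ 1 →
  |(a0 * b1 - a1 * b0) + (b0 * c1 - b1 * c0) + (c0 * d1 - c1 * d0)| ≤ 1.172454

/-- G_P31: `theorem thm (h : G_PLN) (hF : G_FRM4) : G_P31`.
Proof. `G_FRM4` for `e = y 1 - y 0`, `e' = y 2 - y 0`, `n = 0`; `dt e e' p q = Δ (p 0 q 1 - p 1 q 0)`, `Δ² = ‖e‖² ‖e'‖² - ⟪e, e'⟫²`. With `s = ‖e‖² + ‖e'‖² + ‖e - e'‖² ≤ 3`: `12 Δ² ≤ s²` (equivalent to `x² + y² + z² ≥ xy + yz + zx` for the three squares of the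
sides; `4 Δ² = 2xy + 2yz + 2zx - x² - y² - z²`). For `p` with distances at most one from `y 0, y 1, y 2`: the planar part (relative to `y 0`) has square at most `1 - s/9` (sum of the three squared distances = `3 |p - centroid|² + s/3`). Let `ρ² = 1 - s/9`.
If `s ≥ 9/4`: all planar squares are `≤ 3/4`, `G_PLN` gives `|p31| ≤ |Δ| 1.172454 ≤ (√3/2) 1.172454 < 1.02`. If `s < 9/4`: apply `G_PLN` to the planar points multiplied by `κ`, `κ² = 3/(4 ρ²) ≤ 1`: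
`|p31| ≤ |Δ| 1.172454 (4/3) ρ² ≤ (s/(2√3)) (4/3) 1.172454 ≤ 1.02`. -/
def G_P31 : Prop := ∀ y : Fin 7 → E 4, (∀ i j, dist (y i) (y j) ≤ 1) → |p31 y| ≤ 1.04

/-! ## Part S: the cyclic type -/

/-- G_WIT, Witsenhausen's inequality for seven points of `E 4`.
Proof. Let `δ i j = 1 - dist² ≥ 0` (so `δ i i = 1`). The space of the affine dependencies `{w | ∑ w = 0, ∑ w i • x i = 0}` has dimension at least `2` (seven unknowns, five equations); let `p, q` be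
orthonormal in it. `∑_{i,j} p i p j δ i j = (∑ p)² - ∑ p i p j dist² = 0` since `∑_{i,j} p i p j |x i - x j|² = -2 |∑ p i x i|² = 0` (as `∑ p = 0`); the same for `q`. Adding: with `π i j = p i p j + q i q j`,
`0 = ∑_i π i i + ∑_{i ≠ j} π i j δ i j = 2 + 2 ∑_{i<j} π i j δ i j`. `π` is an orthogonal projection, so `|π i j| ≤ 1/2` for `i ≠ j` (`π i i = ∑_k π i k² ≥ π i i² + π i j²`, so `π i j² ≤ π i i - π i i² ≤ 1/4`). So
`1 = ∑_{i<j} (-π i j) δ i j ≤ (1/2) ∑_{i<j} δ i j`, that is `∑_{i<j} dist² ≤ 21 - 2`. -/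
def G_WIT : Prop := ∀ x : Fin 7 → E 4, (∀ i j, dist (x i) (x j) ≤ 1) →
  ∑ i, ∑ j, dist (x i) (x j) ^ 2 ≤ 38

/-- G_ASD, the anti-self-dual part of a bivector. Proof. For vectors `a, b` of `E 4` let `β a b` be the vector with the three coordinates
`(a0 b1 - a1 b0) - (a2 b3 - a3 b2)`, `(a0 b2 - a2 b0) + (a1 b3 - a3 b1)`, `(a0 b3 - a3 b0) - (a1 b2 - a2 b1)`; then
`β a b · β c d = ⟪a,c⟫⟪b,d⟫ - ⟪a,d⟫⟪b,c⟫ - dt a b c d` (check the sign of `dt`, polynomial identity in 16 variables), and the sum is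
`‖∑_p w p β (a p) (b p)‖² ≥ 0`. -/
def G_ASD : Prop := ∀ (n : ℕ) (a b : Fin n → E 4) (w : Fin n → ℝ),
  0 ≤ ∑ p, ∑ q, w p * w q * (inner ℝ (a p) (a q) * inner ℝ (b p) (b q) -
    inner ℝ (a p) (b q) * inner ℝ (b p) (a q) - dt (a p) (b p) (a q) (b q))

/-- G_PF, the cyclic type (captain helper89 does this one: a sum of squares certificate of degree four). -/
def G_PF : Prop := ∀ y : Fin 7 → E 4, (∀ i j, dist (y i) (y j) ≤ 1) → |pf y| ≤ 1.049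

/-! ## Part L: the extremal polytope -/

/-- G_LD, the distances (compare `Pool.Agent.Helper95.Vol.LD`). Proof. `M² = 3/4 - N²`, `v² = 3/4 - (1/2 + N)² ≥ 0` for `N ≤ 3/10`. Squared distances: `01`, `23`, `46`: `1`. `02, 03, 12, 13`: `4N² + 1/2`. `04, 14, 26, 36`: `(1/2 + N)² + v² + 1/4 = 1`.
`05, 15, 25, 35`: `N² + M² + 1/4 = 1`. `06, 16, 24, 34`: `(1/2 - N)² + v² + 1/4 ≤ 1`. `45, 56`: `1/4 + (M - v)² ≤ 1`. -/
def G_LD : Prop := ∀ N ∈ Icc (0 : ℝ) (3 / 10), ∀ i j, dist (Q4 N i) (Q4 N j) ≤ 1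

/-- G_PEN, the area of the pentagon from below: `theorem thm (hSV : G_SV) : G_PEN` (compare `Pool.Agent.Helper4.Vol.LV`). Proof. Three triangles `(P0, P1, P2)`, `(P0, P2, P4)`, `(P2, P3, P4)` in the hull, which are contained in half planes with disjoint interiors: the line
`P0 P2` separates the first from the second, the line `y = v` the third from the others. Twice the areas: `2 N v`, `v` (base `P2 P4` of length one, height `v`), `M - v`. The sum is `2 N v + M = f4 N`. -/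
def G_PEN : Prop := ∀ N ∈ Icc (0 : ℝ) (3 / 10),
  ENNReal.ofReal (f4 N) ≤ 2 * volume (convexHull ℝ (range (P5 N)))

/-- G_LV, the volume from below: `theorem thm (hBV : G_BV) (hP : G_PEN) : G_LV` (`G_BV` is in `Pool.Agent.Helper86.Poly.Goals`, proved: `pBV` in `Asm`).
Proof. `Q4 N` is a blow-up of `P5 N` (`pt` of `Pool.Agent.Helper86.Poly.Defs`) with `ι = Fin 5`, `a = 2`, `b = ![1, 1, 0, 0, 0]`, `s i` = the points `-1/2, 1/2` of `Fin 1 → ℝ` for `i = 0, 1`, and the only point of `Fin 0 → ℝ` for the others. `G_BV` gives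
`4! vol (hull) = 2! vol (hull P5) * 1 * 1 * ...` (`vol [-1/2, 1/2] = 1`, the volume of the point in `Fin 0 → ℝ` is `1`); transport by an equivalence of the index sets to `E 4` (as in `Pool.Agent.Helper77.Poly.BL`); the order of the coordinates does not matter.
(Or directly with the five simplices `0 1 3 5 6`, `0 1 2 5 6`, `0 1 3 4 5`, `0 1 2 4 5`, `0 1 2 3 4`.) -/
def G_LV : Prop := ∀ N ∈ Icc (0 : ℝ) (3 / 10),
  ENNReal.ofReal (f4 N) ≤ 24 * volume (convexHull ℝ (range (Q4 N)))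

end Pool.Agent.Helper89.Vol4
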