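import Pool.Agent.Helper89.Vol4.Goals

/-! # MP_cd13d2_co, packet V47-D1 -/

set_option autoImplicit false

namespace Pool.Agent.Helper89.Vol4.PkD1

open Pool.Agent.Helper89.Vol4 Pool.Agent.Helper86.Poly

theorem W_eq (x : Fin 7 → E 4) (u v : Fin 7 → ℝ) :
    W x u v = Matrix.detRowAlternating (R := ℝ) (n := Fin 7)
      ![fun _ => 1, fun k => x k 0, fun k => x k 1, fun k => x k 2, fun k => x k 3, u, v] := by
  unfold W
  rw [← Matrix.det_transpose]
  change Matrix.det _ = Matrix.det _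
  congr 1
  ext i j
  fin_cases i <;> rfl

theorem W_swap (x : Fin 7 → E 4) (u v : Fin 7 → ℝ) : W x u v = -W x v u := by
  rw [W_eq, W_eq, ← AlternatingMap.map_swap _ _ (show (5 : Fin 7) ≠ 6 by decide)]
  congr 1
  funext i
  fin_cases i <;> rfl

theorem gen (f : (Fin 7 → ℝ) [⋀^Fin 7]→ₗ[ℝ] ℝ) (a0 a1 a2 a3 a4 u c : Fin 7 → ℝ) :
    ∑ j, f ![a0, a1, a2, a3, a4, u, Pi.single j 1] * c j = f ![a0, a1, a2, a3, a4, u, c] := by
  let m : Fin 7 → Fin 7 → ℝ := ![a0, a1, a2, a3, a4, u, 0]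
  have hm : ∀ v, ![a0, a1, a2, a3, a4, u, v] = Function.update m 6 v := by
    intro v
    funext i
    fin_cases i <;> simp [m, Function.update]
  let L : (Fin 7 → ℝ) →ₗ[ℝ] ℝ := f.toMultilinearMap.toLinearMap m 6
  have hL : ∀ v, f ![a0, a1, a2, a3, a4, u, v] = L v := by
    intro v
    rw [hm]
    rfl
  rw [hL c]
  have hc : c = ∑ j, c j • (Pi.single j 1 : Fin 7 → ℝ) := by
    funext k
    simp [Finset.sum_apply, Pi.single_apply]
  conv_rhs => rw [hc, map_sum]
  refine Finset.sum_congr rfl fun j _ => ?_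
  rw [hL, map_smul, smul_eq_mul, mul_comm]

theorem W_lin (x : Fin 7 → E 4) (u c : Fin 7 → ℝ) :
    ∑ j, W x u (Pi.single j 1) * c j = W x u c := by
  rw [W_eq, ← gen]
  refine Finset.sum_congr rfl fun j _ => ?_
  rw [W_eq]

theorem thm : G_D1 := by
  intro x
  refine ⟨fun i j => W_swap x _ _, fun i => ?_, fun i m => ?_⟩
  · have h := W_lin x (Pi.single i 1) (fun _ => 1)
    simp only [mul_one] at h
    change ∑ j, W x (Pi.single i 1) (Pi.single j 1) = 0
    rw [h, W_eq]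
    exact Matrix.det_zero_of_row_eq (show (0 : Fin 7) ≠ 6 by decide) rfl
  · change ∑ j, W x (Pi.single i 1) (Pi.single j 1) * x j m = 0
    rw [W_lin x (Pi.single i 1) (fun j => x j m), W_eq]
    fin_cases m
    · exact Matrix.det_zero_of_row_eq (show (1 : Fin 7) ≠ 6 by decide) rfl
    · exact Matrix.det_zero_of_row_eq (show (2 : Fin 7) ≠ 6 by decide) rfl
    · exact Matrix.det_zero_of_row_eq (show (3 : Fin 7) ≠ 6 by decide) rfl
    · exact Matrix.det_zero_of_row_eq (show (4 : Fin 7) ≠ 6 by decide) rfl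

end Pool.Agent.Helper89.Vol4.PkD1
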