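import Pool.Agent.Helper89.Vol4.PF2
import Pool.Agent.Helper46.Vol4.HAD
import Pool.Agent.Helper91.Vol4.WIT

/-! # V47 : the packet PF, third part -/

set_option autoImplicit false
set_option maxRecDepth 100000

namespace Pool.Agent.Helper89.Vol4.PkPF

open Pool.Agent.Helper86.Poly

theorem ina {a b : E 4} (ha : ‖a‖ ≤ 1) (hb : ‖b‖ ≤ 1) : -1 ≤ inner ℝ a b ∧ inner ℝ a b ≤ 1 := by
  have h := abs_real_inner_le_norm a b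
  have h2 : ‖a‖ * ‖b‖ ≤ 1 := mul_le_one₀ ha (norm_nonneg b) hb
  exact abs_le.1 (h.trans h2)

theorem ins {a : E 4} (ha : ‖a‖ ≤ 1) : inner ℝ a a ≤ 1 := (ina ha ha).2

theorem dsq (p a b : E 4) : inner ℝ (a - p) (a - p) + inner ℝ (b - p) (b - p) - 2 * inner ℝ (a - p) (b - p) =
    dist a b ^ 2 := by
  have h : a - b = (a - p) - (b - p) := by abel
  rw [dist_eq_norm, h, norm_sub_sq_real, ← real_inner_self_eq_norm_sq, ← real_inner_self_eq_norm_sq]; ring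

theorem dsz (p a : E 4) : inner ℝ (a - p) (a - p) = dist p a ^ 2 := by
  rw [dist_comm, dist_eq_norm, real_inner_self_eq_norm_sq]

theorem dle {y : Fin 7 → E 4} (hy : ∀ i j, dist (y i) (y j) ≤ 1) (i j : Fin 7) : dist (y i) (y j) ^ 2 ≤ 1 := by
  have h1 := hy i j
  have h2 : 0 ≤ dist (y i) (y j) := dist_nonneg
  nlinarith

theorem pfle (y : Fin 7 → E 4) (hy : ∀ i j, dist (y i) (y j) ≤ 1) : pf y ≤ 1.049 := by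
  have hn : ∀ i, ‖y i - y 0‖ ≤ 1 := fun i => by rw [← dist_eq_norm]; exact hy i 0
  have hW := Pool.Agent.Helper91.Vol4.PkWIT.thm y hy
  simp only [Fin.sum_univ_seven] at hW
  have sy : ∀ i j : Fin 7, dist (y i) (y j) = dist (y j) (y i) := fun i j => dist_comm _ _
  have sz : ∀ i : Fin 7, dist (y i) (y i) = 0 := fun i => dist_self _
  have hW2 : dist (y 0) (y 1) ^ 2 + dist (y 0) (y 2) ^ 2 + dist (y 0) (y 3) ^ 2 + dist (y 0) (y 4) ^ 2 + dist (y 0) (y 5) ^ 2 + dist (y 0) (y 6) ^ 2 + dist (y 1) (y 2) ^ 2 + dist (y 1) (y 3) ^ 2 + dist (y 1) (y 4) ^ 2 + dist (y 1) (y 5) ^ 2 + dist (y 1) (y 6) ^ 2 + dist (y 2) (y 3) ^ 2 + dist (y 2) (y 4) ^ 2 + dist (y 2) (y 5) ^ 2 + dist (y 2) (y 6) ^ 2 + dist (y 3) (y 4) ^ 2 + dist (y 3) (y 5) ^ 2 + dist (y 3) (y 6) ^ 2 + dist (y 4) (y 5) ^ 2 + dist (y 4) (y 6) ^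 2 + dist (y 5) (y 6) ^ 2 ≤ 19 := by
    rw [sz 0, sz 1, sz 2, sz 3, sz 4, sz 5, sz 6, sy 1 0, sy 2 0, sy 3 0, sy 4 0, sy 5 0, sy 6 0, sy 2 1, sy 3 1, sy 4 1, sy 5 1, sy 6 1, sy 3 2, sy 4 2, sy 5 2, sy 6 2, sy 4 3, sy 5 3, sy 6 3, sy 5 4, sy 6 4, sy 6 5] at hW
    linarith only [hW]
  have hW3 : inner ℝ (y 1 - y 0) (y 1 - y 0) + inner ℝ (y 2 - y 0) (y 2 - y 0) + inner ℝ (y 3 - y 0) (y 3 - y 0) + inner ℝ (y 4 - y 0) (y 4 - y 0) + inner ℝ (y 5 - y 0) (y 5 - y 0) + inner ℝ (y 6 - y 0) (y 6 - y 0) + (inner ℝ (y 1 - y 0) (y 1 - y 0) + inner ℝ (y 2 - y 0) (y 2 - y 0) - 2 * inner ℝ (y 1 - y 0) (y 2 - y 0)) + (inner ℝ (y 1 - y 0) (y 1 - y 0) + inner ℝ (y 3 - y 0) (y 3 - y 0) - 2 * inner ℝ (y 1 - y 0) (y 3 - y 0)) + (inner ℝ (y 1 - y 0) (y 1 - y 0) + inner ℝ (y 4 - y 0) (y 4 - y 0) - 2 * inner ℝ (y 1 -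 y 0) (y 4 - y 0)) + (inner ℝ (y 1 - y 0) (y 1 - y 0) + inner ℝ (y 5 - y 0) (y 5 - y 0) - 2 * inner ℝ (y 1 - y 0) (y 5 - y 0)) + (inner ℝ (y 1 - y 0) (y 1 - y 0) + inner ℝ (y 6 - y 0) (y 6 - y 0) - 2 * inner ℝ (y 1 - y 0) (y 6 - y 0)) + (inner ℝ (y 2 - y 0) (y 2 - y 0) + inner ℝ (y 3 - y 0) (y 3 - y 0) - 2 * inner ℝ (y 2 - y 0) (y 3 - y 0)) + (inner ℝ (y 2 - y 0) (y 2 - y 0) + inner ℝ (y 4 - y 0) (y 4 - y 0) - 2 * inner ℝ (y 2 - y 0) (y 4 - y 0)) + (inner ℝ (y 2 - y 0) (y 2 - y 0) + inner ℝ (y 5 - y 0) (y 5 - y 0) - 2 * inner ℝ (y 2 - y 0) (y 5 - y 0)) + (inner ℝ (y 2 - y 0) (y 2 - y 0) + inner ℝ (y 6 - y 0) (y 6 - y 0) - 2 * inner ℝ (y 2 - y 0) (y 6 - y 0)) + (inner ℝ (y 3 - y 0) (y 3 - y 0) + inner ℝ (y 4 - y 0) (y 4 - y 0) - 2 * inner ℝ (y 3 - y 0) (y 4 - y 0)) + (inner ℝ (y 3 - y 0) (y 3 -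 y 0) + inner ℝ (y 5 - y 0) (y 5 - y 0) - 2 * inner ℝ (y 3 - y 0) (y 5 - y 0)) + (inner ℝ (y 3 - y 0) (y 3 - y 0) + inner ℝ (y 6 - y 0) (y 6 - y 0) - 2 * inner ℝ (y 3 - y 0) (y 6 - y 0)) + (inner ℝ (y 4 - y 0) (y 4 - y 0) + inner ℝ (y 5 - y 0) (y 5 - y 0) - 2 * inner ℝ (y 4 - y 0) (y 5 - y 0)) + (inner ℝ (y 4 - y 0) (y 4 - y 0) + inner ℝ (y 6 - y 0) (y 6 - y 0) - 2 * inner ℝ (y 4 - y 0) (y 6 - y 0)) + (inner ℝ (y 5 - y 0) (y 5 - y 0) + inner ℝ (y 6 - y 0) (y 6 - y 0) - 2 * inner ℝ (y 5 - y 0) (y 6 - y 0)) ≤ 19 := by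
    simp only [dsq]; simp only [dsz]; exact hW2
  have H := alg
    (ina (hn 1) (hn 1)) (ina (hn 1) (hn 2)) (ina (hn 1) (hn 3)) (ina (hn 1) (hn 4)) (ina (hn 1) (hn 5)) (ina (hn 1) (hn 6)) (ina (hn 2) (hn 2)) (ina (hn 2) (hn 3)) (ina (hn 2) (hn 4)) (ina (hn 2) (hn 5)) (ina (hn 2) (hn 6)) (ina (hn 3) (hn 3)) (ina (hn 3) (hn 4)) (ina (hn 3) (hn 5)) (ina (hn 3) (hn 6)) (ina (hn 4) (hn 4)) (ina (hn 4) (hn 5)) (ina (hn 4) (hn 6)) (ina (hn 5) (hn 5)) (ina (hn 5) (hn 6)) (ina (hn 6) (hn 6))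
    (abs_le.1 (Pool.Agent.Helper46.Vol4.PkHAD.thm _ _ _ _ (hn 1) (hn 2) (hn 3) (hn 4))) (abs_le.1 (Pool.Agent.Helper46.Vol4.PkHAD.thm _ _ _ _ (hn 1) (hn 2) (hn 3) (hn 5))) (abs_le.1 (Pool.Agent.Helper46.Vol4.PkHAD.thm _ _ _ _ (hn 1) (hn 2) (hn 3) (hn 6))) (abs_le.1 (Pool.Agent.Helper46.Vol4.PkHAD.thm _ _ _ _ (hn 1) (hn 2) (hn 4) (hn 5))) (abs_le.1 (Pool.Agent.Helper46.Vol4.PkHAD.thm _ _ _ _ (hn 1) (hn 2) (hn 4) (hn 6))) (abs_le.1 (Pool.Agent.Helper46.Vol4.PkHAD.thm _ _ _ _ (hn 1) (hn 2) (hn 5) (hn 6))) (abs_le.1 (Pool.Agent.Helper46.Vol4.PkHAD.thm _ _ _ _ (hn 1) (hn 3) (hn 4) (hn 5))) (abs_le.1 (Pool.Agent.Helper46.Vol4.PkHAD.thm _ _ _ _ (hn 1) (hn 3) (hn 4) (hn 6))) (abs_le.1 (Pool.Agent.Helper46.Vol4.PkHAD.thm _ _ _ _ (hn 1) (hn 3) (hn 5) (hn 6))) (abs_le.1 (Pool.Agent.Helper46.Vol4.PkHAD.thm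 _ _ _ _ (hn 1) (hn 4) (hn 5) (hn 6))) (abs_le.1 (Pool.Agent.Helper46.Vol4.PkHAD.thm _ _ _ _ (hn 2) (hn 3) (hn 4) (hn 5))) (abs_le.1 (Pool.Agent.Helper46.Vol4.PkHAD.thm _ _ _ _ (hn 2) (hn 3) (hn 4) (hn 6))) (abs_le.1 (Pool.Agent.Helper46.Vol4.PkHAD.thm _ _ _ _ (hn 2) (hn 3) (hn 5) (hn 6))) (abs_le.1 (Pool.Agent.Helper46.Vol4.PkHAD.thm _ _ _ _ (hn 2) (hn 4) (hn 5) (hn 6))) (abs_le.1 (Pool.Agent.Helper46.Vol4.PkHAD.thm _ _ _ _ (hn 3) (hn 4) (hn 5) (hn 6)))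
    (ins (hn 1)) (ins (hn 2)) (ins (hn 3)) (ins (hn 4)) (ins (hn 5)) (ins (hn 6)) ((dsq (y 0) (y 1) (y 2)).trans_le (dle hy 1 2)) ((dsq (y 0) (y 1) (y 3)).trans_le (dle hy 1 3)) ((dsq (y 0) (y 1) (y 4)).trans_le (dle hy 1 4)) ((dsq (y 0) (y 1) (y 5)).trans_le (dle hy 1 5)) ((dsq (y 0) (y 1) (y 6)).trans_le (dle hy 1 6)) ((dsq (y 0) (y 2) (y 3)).trans_le (dle hy 2 3)) ((dsq (y 0) (y 2) (y 4)).trans_le (dle hy 2 4)) ((dsq (y 0) (y 2) (y 5)).trans_le (dle hy 2 5)) ((dsq (y 0) (y 2) (y 6)).trans_le (dle hy 2 6)) ((dsq (y 0) (y 3) (y 4)).trans_le (dle hy 3 4)) ((dsq (y 0) (y 3) (y 5)).trans_le (dle hy 3 5)) ((dsq (y 0) (y 3) (y 6)).trans_le (dle hy 3 6)) ((dsq (y 0) (y 4) (y 5)).trans_le (dle hy 4 5)) ((dsq (y 0) (y 4) (y 6)).trans_le (dle hy 4 6)) ((dsq (y 0) (y 5) (y 6)).trans_le (dle hy 5 6))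
    hW3 (nG (y 1 - y 0) (y 2 - y 0) (y 3 - y 0) (y 4 - y 0) (y 5 - y 0) (y 6 - y 0))
    (bG (y 1 - y 0) (y 2 - y 0) (y 3 - y 0) (y 4 - y 0) (y 5 - y 0) (y 6 - y 0))
  unfold pf
  linarith only [H]

theorem thm : G_PF := by
  intro y hy
  have h1 := pfle y hy
  let z : Fin 7 → E 4 := fun k => !₂[-(y k 0), y k 1, y k 2, y k 3]
  have hz : ∀ i j, dist (z i) (z j) = dist (y i) (y j) := by
    intro i j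
    simp only [z, EuclideanSpace.dist_eq, Fin.sum_univ_four, Real.dist_eq]
    congr 1
    simp
    ring
  have h2 := pfle z (fun i j => by rw [hz]; exact hy i j)
  have h3 : pf z = -pf y := by
    simp only [pf, dte, z]
    simp
    ring
  rw [h3] at h2
  exact abs_le.2 ⟨by linarith, h1⟩

end Pool.Agent.Helper89.Vol4.PkPF
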