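import Pool.Agent.Helper89.Vol4.Goals

/-!
# Packet V47-Q22 (MP_cd13d2_co): the planar inequality for the extremal pattern (after helper69's V47-Q212)
-/

set_option autoImplicit false

namespace Pool.Agent.Helper89.Vol4.PkQ22

open Pool.Agent.Helper89.Vol4

/-- the factors `α`, `β` -/
theorem factors (L : ℝ) (h0 : 0 ≤ L) (h1 : L ≤ 1) : ∃ α β : ℝ, 0 ≤ α ∧ 0 < β ∧ α * β = L ∧
    α ≤ β ∧ β ≤ 1 ∧ β ^ 2 * (4 - L) = 3 ∧ 3 * α ^ 2 = L ^ 2 * (4 - L) := by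
  have h4 : (0 : ℝ) < 4 - L := by linarith
  have hq : (0 : ℝ) < 3 / (4 - L) := by positivity
  set β : ℝ := √(3 / (4 - L)) with hβ
  have hβ0 : 0 < β := Real.sqrt_pos.2 hq
  have hβ2 : β ^ 2 = 3 / (4 - L) := Real.sq_sqrt hq.le
  have hβ3 : β ^ 2 * (4 - L) = 3 := by rw [hβ2]; field_simp
  have e2 : L * (4 - L) ≤ 3 := by nlinarith
  have hL1 : L ≤ β ^ 2 := by
    rw [hβ2, le_div_iff₀ h4]; exact e2
  have hαβ : L / β ≤ β := by
    rw [div_le_iff₀ hβ0]; nlinarith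
  have hβ1 : β ≤ 1 := by
    have : β ^ 2 ≤ 1 := by rw [hβ2, div_le_one h4]; linarith
    nlinarith
  have hα0 : 0 ≤ L / β := div_nonneg h0 hβ0.le
  refine ⟨L / β, β, hα0, hβ0, div_mul_cancel₀ L hβ0.ne', hαβ, hβ1, hβ3, ?_⟩
  rw [div_pow, hβ2]
  field_simp

theorem thm (h : G_J47) : G_Q22 := by
  intro C hC l1 l2 b0 u0 u1 v0 v1 w0 w1 hl1 hl1' hl2 hl2' hb0 H1 H2 H3 H4 H5 H6 H7 H8 H9 H10
  have hL0 : 0 ≤ l1 * l2 := mul_nonneg hl1 hl2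
  have hL1 : l1 * l2 ≤ 1 := mul_le_one₀ hl1' hl2 hl2'
  have hLsq : 2 * (l1 * l2) ≤ l1 ^ 2 + l2 ^ 2 := by nlinarith only [sq_nonneg (l1 - l2)]
  have hLl1 : (l1 * l2) ^ 2 ≤ l1 ^ 2 :=
    pow_le_pow_left₀ hL0 (mul_le_of_le_one_right hl1 hl2') 2
  have hLl2 : (l1 * l2) ^ 2 ≤ l2 ^ 2 :=
    pow_le_pow_left₀ hL0 (mul_le_of_le_one_left hl2 hl1') 2
  generalize hL : l1 * l2 = L at hL0 hL1 hLsq hLl1 hLl2 ⊢
  obtain ⟨α, β, hα0, hβ0, hαβ, hαβ', hβ1, hβ3, hα3⟩ := factors L hL0 hL1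
  obtain ⟨n, hn⟩ : ∃ n : ℝ, n = b0 / 2 := ⟨_, rfl⟩
  have hw : b0 = 2 * n := by linarith
  subst hw
  have hn0 : 0 ≤ n := by linarith only [hb0]
  have key := h C hC (α * n) (α * |n - v0|) (α * |v1|) (β * |u0 - w0|) (β * |u1 - w1|) (β * |u1 + w1|)
    (mul_nonneg hα0 hn0) ?_ (mul_nonneg hα0 (abs_nonneg _)) (mul_nonneg hα0 (abs_nonneg _))
    (mul_nonneg hβ0.le (abs_nonneg _)) (mul_nonneg hβ0.le (abs_nonneg _))
    (mul_nonneg hβ0.le (abs_nonneg _)) ?_ ?_ ?_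
  · have e : 2 * n * u1 + (u0 * v1 - u1 * v0) + (v0 * w1 - v1 * w0) =
        (n - v0) * (u1 - w1) + v1 * (u0 - w0) + n * (u1 + w1) := by ring
    have hb : |2 * n * u1 + (u0 * v1 - u1 * v0) + (v0 * w1 - v1 * w0)| ≤
        |n - v0| * |u1 - w1| + |v1| * |u0 - w0| + n * |u1 + w1| := by
      rw [e]
      refine (abs_add_le _ _).trans (add_le_add ((abs_add_le _ _).trans (add_le_add ?_ ?_)) ?_)
      · rw [abs_mul]
      · rw [abs_mul]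
      · rw [abs_mul, abs_of_nonneg hn0]
    calc L * |2 * n * u1 + (u0 * v1 - u1 * v0) + (v0 * w1 - v1 * w0)|
        ≤ L * (|n - v0| * |u1 - w1| + |v1| * |u0 - w0| + n * |u1 + w1|) :=
          mul_le_mul_of_nonneg_left hb hL0
      _ = (α * |n - v0|) * (β * |u1 - w1|) + (α * |v1|) * (β * |u0 - w0|) +
            (α * n) * (β * |u1 + w1|) := by
          rw [← hαβ]; ring
      _ ≤ C := key
  · -- `N² ≤ 1/8`
    have h1 : n ^ 2 ≤ (1 - L / 2) / 4 := by nlinarith only [H7, hLsq]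
    have h2 := mul_le_mul_of_nonneg_left h1 (sq_nonneg α)
    have h3 : L ^ 2 * (4 - L) * (1 - L / 2) ≤ 3 / 2 := by
      nlinarith only [mul_nonneg hL0 (sub_nonneg.2 hL1), sq_nonneg L, mul_nonneg (sq_nonneg L)
        (sub_nonneg.2 hL1), hL0, hL1, mul_nonneg (mul_nonneg (sq_nonneg L) hL0) (sub_nonneg.2 hL1)]
    rw [mul_pow]
    have h0 : α ^ 2 = L ^ 2 * (4 - L) / 3 := by linarith only [hα3]
    have h6 : α ^ 2 * ((1 - L / 2) / 4) = L ^ 2 * (4 - L) * (1 - L / 2) / 12 := by rw [h0]; ring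
    linarith only [h2, h3, h6]
  · -- `(k + N)² + M² ≤ 3/4`
    have h3 : (|n - v0| + n) ^ 2 + |v1| ^ 2 ≤ 1 - L ^ 2 / 4 := by
      rw [sq_abs]
      rcases abs_cases (n - v0) with ⟨ha, _⟩ | ⟨ha, _⟩
      · rw [ha]; nlinarith only [H5, hLl2]
      · rw [ha]; nlinarith only [H2, hLl1]
    have h4 := mul_le_mul_of_nonneg_left h3 (sq_nonneg α)
    have h5 : L ^ 2 * (4 - L) * (4 - L ^ 2) ≤ 9 := by
      nlinarith only [mul_nonneg hL0 (sub_nonneg.2 hL1), sq_nonneg L, mul_nonneg (sq_nonneg L)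
        (sub_nonneg.2 hL1), hL0, hL1, mul_nonneg (mul_nonneg (sq_nonneg L) hL0) (sub_nonneg.2 hL1),
        mul_nonneg (mul_nonneg (sq_nonneg L) (sq_nonneg L)) (sub_nonneg.2 hL1)]
    have e1 : (α * |n - v0| + α * n) ^ 2 + (α * |v1|) ^ 2 =
        α ^ 2 * ((|n - v0| + n) ^ 2 + |v1| ^ 2) := by ring
    rw [e1]
    have h0 : α ^ 2 = L ^ 2 * (4 - L) / 3 := by linarith only [hα3]
    have h6 : α ^ 2 * (1 - L ^ 2 / 4) = L ^ 2 * (4 - L) * (4 - L ^ 2) / 12 := by rw [h0]; ring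
    linarith only [h4, h5, h6]
  · -- `g1² + g2² ≤ 1`
    rw [mul_pow, mul_pow, sq_abs, sq_abs]
    have h1 : β ^ 2 ≤ 1 := by nlinarith only [hβ0, hβ1]
    have h2 := mul_le_mul_of_nonneg_left H9 (sq_nonneg β)
    nlinarith only [h1, h2]
  · -- the third condition
    have hs : (u1 + w1) ^ 2 + ((u0 - w0) ^ 2 + (u1 - w1) ^ 2) + 4 * n ^ 2 + 4 * (n * |u0 - w0|) ≤
        4 - L := by
      rcases abs_cases (u0 - w0) with ⟨ha, _⟩ | ⟨ha, _⟩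
      · rw [ha]
        nlinarith only [sq_nonneg (u0 + w0 - 2 * n), H1, H6, hLsq]
      · rw [ha]
        nlinarith only [sq_nonneg (u0 + w0 - 2 * n), H3, H4, hLsq]
    have hβ2 : 0 ≤ β ^ 2 := sq_nonneg β
    have hα2 : α ^ 2 ≤ β ^ 2 := pow_le_pow_left₀ hα0 hαβ' 2
    have hαβ2 : α * β ≤ β ^ 2 := by nlinarith only [hαβ', hβ0]
    have k2 := mul_le_mul_of_nonneg_right hα2 (by positivity : 0 ≤ 4 * n ^ 2)
    have k3 := mul_le_mul_of_nonneg_right hαβ2 (by positivity : 0 ≤ 4 * (n * |u0 - w0|))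
    have k4 := mul_le_mul_of_nonneg_left hs hβ2
    have e1 : (β * |u1 + w1|) ^ 2 = β ^ 2 * (u1 + w1) ^ 2 := by
      rw [mul_pow, sq_abs]
    have e2 : (β * |u0 - w0|) ^ 2 = β ^ 2 * (u0 - w0) ^ 2 := by rw [mul_pow, sq_abs]
    have e3 : (β * |u1 - w1|) ^ 2 = β ^ 2 * (u1 - w1) ^ 2 := by rw [mul_pow, sq_abs]
    rw [e1, e2, e3]
    nlinarith only [k2, k3, k4, hβ3]

end Pool.Agent.Helper89.Vol4.PkQ22
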