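import Pool.Agent.Helper89.Vol4.Main
import Pool.Agent.Helper89.Vol4.PF
import Pool.Agent.Helper89.Vol.All
import Pool.Agent.Helper89.Vol4.D1
import Pool.Agent.Helper56.Vol4.D2
import Pool.Agent.Helper80.Vol4.D3
import Pool.Agent.Helper77.Vol4.D4
import Pool.Agent.Helper36.Vol4.D5
import Pool.Agent.Helper39.Vol4.DENS
import Pool.Agent.Helper15.Vol4.SRT
import Pool.Agent.Helper52.Vol4.CAN
import Pool.Agent.Helper30.Vol4.COV1
import Pool.Agent.Helper51.Vol4.COV2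
import Pool.Agent.Helper20.Vol4.GEN
import Pool.Agent.Helper90.Vol4.ALL
import Pool.Agent.Helper46.Vol4.HAD
import Pool.Agent.Helper94.Vol4.FIN
import Pool.Agent.Helper26.Vol4.J47
import Pool.Agent.Helper85.Vol4.J3
import Pool.Agent.Helper78.Vol4.NUM4
import Pool.Agent.Helper2.Vol4.UNI4
import Pool.Agent.Helper89.Vol4.Q22
import Pool.Agent.Helper69.Vol4.Q212
import Pool.Agent.Helper59.Vol4.FRM4
import Pool.Agent.Helper47.Vol4.P22
import Pool.Agent.Helper99.Vol4.P212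
import Pool.Agent.Helper96.Vol4.PLN
import Pool.Agent.Helper23.Vol4.P31
import Pool.Agent.Helper24.Vol4.LD
import Pool.Agent.Helper34.Vol4.PEN
import Pool.Agent.Helper22.Vol4.LV
import Pool.Agent.Helper46.Vol4.J47E
import Pool.Agent.Helper75.Vol4.Q22E
import Pool.Agent.Helper34.Vol4.P22E

/-! # MP_cd13d2_co : all packets of the theorem on `V(4,7)` together -/

set_option autoImplicit false

namespace Pool.Agent.Helper89.Vol4

open MeasureTheory Set Pool.Agent.Helper86.Poly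

theorem rD1 : G_D1 := PkD1.thm
theorem rD2 : G_D2 := Pool.Agent.Helper56.Vol4.PkD2.thm
theorem rD3 : G_D3 := Pool.Agent.Helper80.Vol4.PkD3.thm
theorem rD4 : G_D4 := Pool.Agent.Helper77.Vol4.PkD4.thm
theorem rD5 : G_D5 := Pool.Agent.Helper36.Vol4.PkD5.thm pSV rD3 rD4
theorem rDENS : G_DENS := Pool.Agent.Helper39.Vol4.PkDENS.thm
theorem rCAN : G_CAN := Pool.Agent.Helper52.Vol4.PkCAN.thm Pool.Agent.Helper15.Vol4.PkSRT.thm
theorem rCOV2 : G_COV2 := Pool.Agent.Helper51.Vol4.PkCOV2.thm Pool.Agent.Helper30.Vol4.PkCOV1.thm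
theorem rGEN : G_GEN := Pool.Agent.Helper20.Vol4.PkGEN.thm rD1 rD2 rD3 rD5 rCAN rCOV2
theorem rALL : G_ALL := Pool.Agent.Helper90.Vol4.PkALL.thm rGEN rDENS Pool.Agent.Helper89.Vol.qLSC
theorem rFIN : G_FIN := Pool.Agent.Helper94.Vol4.PkFIN.thm rD1 rD4 Pool.Agent.Helper46.Vol4.PkHAD.thm
theorem rNUM : G_NUM4 := Pool.Agent.Helper78.Vol4.PkNUM4.thm
theorem rUNI : G_UNI4 := Pool.Agent.Helper2.Vol4.PkUNI4.thm
theorem rJ47 : G_J47 := Pool.Agent.Helper26.Vol4.PkJ47.thm rNUM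
theorem rJ3 : G_J3 := Pool.Agent.Helper85.Vol4.PkJ3.thm
theorem rQ22 : G_Q22 := PkQ22.thm rJ47
theorem rQ212 : G_Q212 := Pool.Agent.Helper69.Vol4.PkQ212.thm rJ3
theorem rFRM : G_FRM4 := Pool.Agent.Helper59.Vol4.PkFRM4.thm
theorem rP22 : G_P22 := Pool.Agent.Helper47.Vol4.PkP22.thm rQ22 rFRM
theorem rP212 : G_P212 := Pool.Agent.Helper99.Vol4.PkP212.thm rQ212 rFRM
theorem rPLN : G_PLN :=
  Pool.Agent.Helper96.Vol4.PkPLN.thm Pool.Agent.Helper89.Vol.qPATH Pool.Agent.Helper89.Vol.qNUM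
theorem rP31 : G_P31 := Pool.Agent.Helper23.Vol4.PkP31.thm rPLN rFRM
theorem rPF : G_PF := PkPF.thm
theorem rLD : G_LD := Pool.Agent.Helper24.Vol4.PkLD.thm
theorem rPEN : G_PEN := Pool.Agent.Helper34.Vol4.PkPEN.thm pSV
theorem rLV : G_LV := Pool.Agent.Helper22.Vol4.PkLV.thm pBV rPEN
theorem rJ47E : G_J47E := Pool.Agent.Helper46.Vol4.PkJ47E.thm rNUM rUNI
theorem rQ22E : G_Q22E := Pool.Agent.Helper75.Vol4.PkQ22E.thm rJ47E rUNI
theorem rP22E : G_P22E := Pool.Agent.Helper34.Vol4.PkP22E.thm rQ22E rFRM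

end Pool.Agent.Helper89.Vol4
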