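import Pool.Agent.Helper89.Vol4.Goals

/-! # MP_cd13d2_co : the exact value of `V(4,7)`, second part: the equality case

Rules as in `Goals.lean`: every packet is a `def G_... : Prop`; prove `theorem thm : G_...` (with the hypotheses named in the
docstring). -/

set_option autoImplicit false

namespace Pool.Agent.Helper89.Vol4

open MeasureTheory Set Pool.Agent.Helper86.Poly

/-- G_J47E, equality in `G_J47` (compare `Pool.Agent.Helper2.Vol.JE` and `Pool.Agent.Helper26.Vol4.J47`): prove `theorem thm (hn : G_NUM4) (hu : G_UNI4) : G_J47E`.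
Proof. `f4 N₀ ≥ f4 (224/1000) > 1.049448`. Let `M0 = √(3/4 - N²)`. In case B (`N g1 < M0 g2`) and in case A with `N ≥ 29/100` the proof of `G_J47` gives `LHS ≤ 1.04`, a contradiction. So `M0 g2 ≤ N g1`, `N < 29/100` and
`LHS ≤ M0 g1 + N √(3 - (g1 + 2N)²)`. If `g1 < 1` this is strictly smaller than `f4 N` (as `Pool.Agent.Helper89.Vol.JA2E`: `(1 - g1) > 0` and the strict inequality `N (1 + 2N) < M0 √B`, `B = 3 - (1 + 2N)²`), a contradiction to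
`f4 N ≤ f4 N₀`. So `g1 = 1`, `g2 = 0`, and `f4 N₀ ≤ LHS ≤ f4 N`, so `N = N₀` by `G_UNI4`, `N > 0`. Now `f4 N ≤ M + N S`, `M² ≤ M0² - 2 k N - k²`, so `M ≤ M0`, `S² ≤ 3 - (1 + 2N)²`; hence `M = M0`, `S = √(3 - (1 + 2N)²)` and
`k = 0`. -/
def G_J47E : Prop := ∀ N₀ ∈ Icc (0 : ℝ) (3 / 10), (∀ N ∈ Icc (0 : ℝ) (3 / 10), f4 N ≤ f4 N₀) →
  ∀ N k M g1 g2 S : ℝ, 0 ≤ N → N ^ 2 ≤ 1 / 8 → 0 ≤ k → 0 ≤ M → 0 ≤ g1 → 0 ≤ g2 → 0 ≤ S →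
  (k + N) ^ 2 + M ^ 2 ≤ 3 / 4 → g1 ^ 2 + g2 ^ 2 ≤ 1 →
  S ^ 2 + g1 ^ 2 + g2 ^ 2 + 4 * N ^ 2 + 4 * N * g1 ≤ 3 →
  f4 N₀ ≤ k * g2 + M * g1 + N * S →
  N = N₀ ∧ k = 0 ∧ M = √(3 / 4 - N₀ ^ 2) ∧ g1 = 1 ∧ g2 = 0 ∧ S = √(3 - (1 + 2 * N₀) ^ 2)

/-- G_Q22E, equality in `G_Q22` (the proof of `G_Q22` is `Pool.Agent.Helper48.Vol4.Q22`; compare `Pool.Agent.Helper95.Vol.PA0E`): prove `theorem thm (h : G_J47E) (hu : G_UNI4) : G_Q22E`.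
Proof. Notation of `G_Q22` (`L = l1 l2`, `α`, `β`, `m`, `n`, `g`, `σ`). By `G_J47E` for `N' = α b0/2`, `k = α |m0|`, `M = α |m1|`, `g1 = β |g0|`, `g2 = β |g_1|`, `S = β |σ1|`: `N' = N > 0`, `k = 0`, `M = M0 := √(3/4 - N²)`, `g1 = 1`, `g2 = 0`,
`S = S0 := √(3 - (1 + 2N)²) > 0`. `3/4 = (k + N')² + M² ≤ L² (4 - L)(4 - L²)/12`, which is smaller than `3/4` for `L < 1`; so `L = 1`, `l1 = l2 = 1`, `α = β = 1`, `b0 = 2N`, `m0 = 0`, so `v0 = N`, `|v1| = M0`, `|u0 - w0| = 1`, `u1 = w1`,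
`|u1 + w1| = S0 = 2 vv N`. From `σ0² + σ1² + |g|² + 4 n² + 4 n |g0| ≤ 3` and equality in the third condition: `σ0 = 0`, so `u0 + w0 = 2N`. The value is `m0 g_1 - m1 g0 + n σ1 = v1 g0 + 2 N u1`, its absolute value is `M0 + 2 N vv`,
so `v1 g0` and `u1` have the same sign. If `g0 = u0 - w0 = -1` then `u1` and `v1` have different signs and `|u - v|² = 1/4 + (|u1| + |v1|)² = 1/4 + (vv + M0)² > 1` (`M0 > 0.83`, `vv > 0.47`), a contradiction. So `g0 = 1`, `u0 = N + 1/2`,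
`w0 = N - 1/2`, and `u1 = w1`, `v1` have the same sign. -/
def G_Q22E : Prop := ∀ N ∈ Icc (0 : ℝ) (3 / 10), (∀ M ∈ Icc (0 : ℝ) (3 / 10), f4 M ≤ f4 N) →
  ∀ l1 l2 b0 u0 u1 v0 v1 w0 w1 : ℝ, 0 ≤ l1 → l1 ≤ 1 → 0 ≤ l2 → l2 ≤ 1 → 0 ≤ b0 →
  u0 ^ 2 + u1 ^ 2 ≤ 1 - l1 ^ 2 / 4 → v0 ^ 2 + v1 ^ 2 ≤ 1 - l1 ^ 2 / 4 → w0 ^ 2 + w1 ^ 2 ≤ 1 - l1 ^ 2 / 4 →
  (u0 - b0) ^ 2 + u1 ^ 2 ≤ 1 - l2 ^ 2 / 4 → (v0 - b0) ^ 2 + v1 ^ 2 ≤ 1 - l2 ^ 2 / 4 →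
  (w0 - b0) ^ 2 + w1 ^ 2 ≤ 1 - l2 ^ 2 / 4 → b0 ^ 2 ≤ 1 - (l1 ^ 2 + l2 ^ 2) / 4 →
  (u0 - v0) ^ 2 + (u1 - v1) ^ 2 ≤ 1 → (u0 - w0) ^ 2 + (u1 - w1) ^ 2 ≤ 1 →
  (v0 - w0) ^ 2 + (v1 - w1) ^ 2 ≤ 1 →
  f4 N ≤ l1 * l2 * |b0 * u1 + (u0 * v1 - u1 * v0) + (v0 * w1 - v1 * w0)| →
  l1 = 1 ∧ l2 = 1 ∧ b0 = 2 * N ∧ v0 = N ∧ u0 = N + 1 / 2 ∧ w0 = N - 1 / 2 ∧
  ((v1 = √(3 / 4 - N ^ 2) ∧ u1 = vv N ∧ w1 = vv N) ∨
    (v1 = -√(3 / 4 - N ^ 2) ∧ u1 = -vv N ∧ w1 = -vv N))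

/-- G_P22E, equality in `G_P22` (the proof of `G_P22` is `Pool.Agent.Helper47.Vol4.P22`; compare `Pool.Agent.Helper14.Vol.PATHE`): prove `theorem thm (h : G_Q22E) (hF : G_FRM4) : G_P22E`.
Proof. As for `G_P22`: `y' k = L (y k - y 0)`, `e = y' 1 - y' 0`, `e' = y' 3 - y' 2`, `l1 = ‖e‖`, `l2 = ‖e'‖`, `p22 y = ± Δ s` where `s` is the planar sum and `|Δ| ≤ l1 l2`. So `f4 N ≤ l1 l2 |s|` and `G_Q22E` gives `l1 = l2 = 1` and the first two coordinates of the `y' k`: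
`(0,0), (0,0), (2N,0), (2N,0), (N + 1/2, ±vv), (N, ±M0), (N - 1/2, ±vv)`. Hence `|s| = M0 + 2 N vv = f4 N` (`√(3 - (1 + 2N)²) = 2 vv`), `f4 N > 0`, so `|Δ| ≥ 1`; `Δ² + ⟪e, e'⟫² = l1² l2² = 1`, so `⟪e, e'⟫ = 0`. The squares of the planar distances
`y' 4` to `y' 0`, `y' 5` to `y' 0` and `y' 2`, `y' 6` to `y' 2` are `(1/2 + N)² + vv² = 3/4`, `N² + M0² = 3/4` (twice), `3/4`. A point whose last two coordinates `r` satisfy `|r - p|², |r - q|² ≤ 1/4` with `|p - q| = 1` has `r = (p + q)/2`. So, with `c1, c2` the last two coordinates of the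
midpoints of `y' 0, y' 1` and of `y' 2, y' 3`: `y' 4` has the last coordinates `c1`, `y' 5` has `c1 = c2`, `y' 6` has `c2`. So `y' k = ψ (Q4 N k)` with the isometry `ψ x = (x 0 + N, ± x 1, c + x 2 e + x 3 e')` (`e, e'` in the last two coordinates, orthonormal). Compose the isometries. -/
def G_P22E : Prop := ∀ N ∈ Icc (0 : ℝ) (3 / 10), (∀ M ∈ Icc (0 : ℝ) (3 / 10), f4 M ≤ f4 N) →
  ∀ y : Fin 7 → E 4, (∀ i j, dist (y i) (y j) ≤ 1) → f4 N ≤ |p22 y| →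
    ∃ φ : E 4 ≃ᵢ E 4, ∀ k, φ (Q4 N k) = y k

end Pool.Agent.Helper89.Vol4
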