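import Pool.Agent.Helper89.Vol4.Goals2
import Pool.Agent.Helper89.Vol.Main

/-! # MP_cd13d2_co : assembly of the theorem on `V(4,7)` from the packets -/

set_option autoImplicit false

namespace Pool.Agent.Helper89.Vol4

open MeasureTheory Set Pool.Agent.Helper86.Poly
open Pool.Agent.Helper89.Vol (hull_compact hull_ne_top G_TUP)

/-- the image of a hull under an isometry -/
theorem image_hull {d n : ℕ} (φ : E d ≃ᵢ E d) (x : Fin n → E d) :
    φ '' convexHull ℝ (range x) = convexHull ℝ (range fun k => φ (x k)) := by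
  have h := (φ.toRealAffineIsometryEquiv.toAffineEquiv : E d →ᵃ[ℝ] E d).image_convexHull (range x)
  have e : ∀ s : Set (E d), (⇑(φ.toRealAffineIsometryEquiv.toAffineEquiv : E d →ᵃ[ℝ] E d)) '' s = φ '' s := by
    intro s
    rfl
  rw [e, e] at h
  rw [h, ← range_comp]
  rfl

theorem mp {d : ℕ} (φ : E d ≃ᵢ E d) : MeasurePreserving φ (volume : Measure (E d)) volume := by
  let A := φ.toRealAffineIsometryEquiv
  have h1 : MeasurePreserving (A.linearIsometryEquiv : E d → E d) volume volume :=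
    A.linearIsometryEquiv.measurePreserving
  have h2 : MeasurePreserving (fun y : E d => y + φ 0) volume volume :=
    measurePreserving_add_right volume (φ 0)
  have h3 := h2.comp h1
  have e : (φ : E d → E d) = (fun y : E d => y + φ 0) ∘ (A.linearIsometryEquiv : E d → E d) := by
    funext y
    have := A.map_vadd 0 y
    simp only [vadd_eq_add, add_zero] at this
    exact this
  rw [e]
  exact h3

theorem vol_image {d n : ℕ} (φ : E d ≃ᵢ E d) (x : Fin n → E d) :
    volume (φ '' convexHull ℝ (range x)) = volume (convexHull ℝ (range x)) := by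
  have h := (mp φ.symm).measure_preimage (hull_compact x).measurableSet.nullMeasurableSet
  rw [← h]
  congr 1
  exact φ.toEquiv.image_eq_preimage_symm _

/-- for a sign pattern the sum is small or is the one of the extremal type -/
theorem alt (hFIN : G_FIN) (hP31 : G_P31) (hP212 : G_P212) (hPF : G_PF) (y : Fin 7 → E 4)
    (hy : ∀ i j, dist (y i) (y j) ≤ 1) {c : ℝ} {s : Fin 7 → ℝ} (hp : Pat c s) :
    T y c s ≤ 1.049 ∨ T y c s ≤ |p22 y| := by
  rcases hFIN y hy c s hp with h | h | h | h | h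
  · left; linarith
  · left; have := hP31 y hy; linarith
  · right; exact h
  · left; have := hP212 y hy; linarith
  · left; have := hPF y hy; linarith

/-- the upper bound for tuples -/
theorem up (hALL : G_ALL) (hFIN : G_FIN) (hP31 : G_P31) (hP212 : G_P212) (hPF : G_PF) (hP22 : G_P22)
    {C : ℝ} (hC1 : 1.049 ≤ C)
    (hC : ∀ N ∈ Icc (0 : ℝ) (3 / 10), f4 N ≤ C) (x : Fin 7 → E 4) (hx : ∀ i j, dist (x i) (x j) ≤ 1) :
    24 * (volume (convexHull ℝ (range x))).toReal ≤ C := by
  obtain ⟨σ, c, s, hp, h⟩ := hALL x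
  have hd : ∀ i j, dist ((x ∘ σ) i) ((x ∘ σ) j) ≤ 1 := fun i j => hx _ _
  have hT : T (x ∘ σ) c s ≤ C := by
    rcases alt hFIN hP31 hP212 hPF (x ∘ σ) hd hp with h1 | h1
    · linarith
    · exact h1.trans (hP22 C hC (x ∘ σ) hd)
  have h2 : 24 * volume (convexHull ℝ (range x)) ≤ ENNReal.ofReal C :=
    h.trans (ENNReal.ofReal_le_ofReal hT)
  have h3 := ENNReal.toReal_mono ENNReal.ofReal_ne_top h2
  rw [ENNReal.toReal_mul, ENNReal.toReal_ofReal (by linarith)] at h3
  simpa using h3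

theorem main (hALL : G_ALL) (hFIN : G_FIN) (hP31 : G_P31) (hP212 : G_P212) (hPF : G_PF) (hP22 : G_P22)
    (hPE : G_P22E) (hNUM : G_NUM4)
    (hUNI : G_UNI4) (hLD : G_LD) (hLV : G_LV) (hTUP : G_TUP) (hATT : G_ATT) :
    IsGreatest {v : ℝ | ∃ P : Set (E 4), Admissible 4 7 P ∧ v = (volume P).toReal} (V 4 7) ∧
    ∃ N ∈ Icc (0 : ℝ) (3 / 10),
      64 * N ^ 6 + 96 * N ^ 5 - 48 * N ^ 4 - 100 * N ^ 3 + 3 * N ^ 2 + 18 * N - 3 = 0 ∧
      0.224 < N ∧ N < 0.2241 ∧ (∀ M ∈ Icc (0 : ℝ) (3 / 10), M ≠ N → f4 M < f4 N) ∧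
      24 * V 4 7 = f4 N ∧ 0.043727 < V 4 7 ∧ V 4 7 < 0.0437271 ∧
      ∀ P : Set (E 4), (Admissible 4 7 P ∧ (volume P).toReal = V 4 7) ↔
        ∃ φ : E 4 ≃ᵢ E 4, P = φ '' convexHull ℝ (range (Q4 N)) := by
  obtain ⟨⟨N, hN, hmax⟩, hlo, hhi⟩ := hNUM
  have hmem : (224 / 1000 : ℝ) ∈ Icc (0 : ℝ) (3 / 10) := by constructor <;> norm_num
  have hfN1 : 1.049448 < f4 N := hlo.trans_le (hmax _ hmem)
  have hfN2 : f4 N < 1.049449 := hhi N hN
  obtain ⟨huni, hpol, hb1, hb2⟩ := hUNI N hN hmax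
  obtain ⟨htup, p, hpd, hpv⟩ := hTUP 4 7 (by norm_num) (by norm_num)
  have hup := fun x hx => up hALL hFIN hP31 hP212 hPF hP22 (C := f4 N) (by linarith) hmax x hx
  have hQv : f4 N ≤ 24 * (volume (convexHull ℝ (range (Q4 N)))).toReal := by
    have h := ENNReal.toReal_mono (ENNReal.mul_ne_top (by norm_num) (hull_ne_top (Q4 N))) (hLV N hN)
    rw [ENNReal.toReal_mul, ENNReal.toReal_ofReal (by linarith)] at h
    simpa using h
  have hQ := htup (Q4 N) (hLD N hN)
  have hV : 24 * V 4 7 = f4 N := by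
    apply le_antisymm
    · rw [← hpv]; exact hup p hpd
    · linarith [hQ.1]
  have hQV : (volume (convexHull ℝ (range (Q4 N)))).toReal = V 4 7 := by
    apply le_antisymm hQ.1
    linarith
  refine ⟨⟨?_, ?_⟩, N, hN, hpol, hb1, hb2, ?_, hV, by linarith, by linarith, ?_⟩
  · obtain ⟨⟨P, hP, hPv⟩, -, -⟩ := hATT 4 7 (by norm_num) (by norm_num)
    exact ⟨P, hP, hPv.symm⟩
  · rintro v ⟨P, hP, rfl⟩
    exact le_V hP
  · intro M hM hne
    exact lt_of_le_of_ne (hmax M hM) fun h => hne (huni M hM h)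
  · intro P
    constructor
    · rintro ⟨hP, hPv⟩
      obtain ⟨c, rfl⟩ := ext_enum (by norm_num) hP
      have hcd : ∀ i j, dist (c i) (c j) ≤ 1 := by
        intro i j
        have h := hP.2.2.2
        rw [← h]
        exact Metric.dist_le_diam_of_mem (hull_compact c).isBounded
          (subset_convexHull ℝ _ (mem_range_self i)) (subset_convexHull ℝ _ (mem_range_self j))
      obtain ⟨σ, e, s, hp, h⟩ := hALL c
      have hd : ∀ i j, dist ((c ∘ σ) i) ((c ∘ σ) j) ≤ 1 := fun i j => hcd _ _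
      have h1 : f4 N ≤ T (c ∘ σ) e s := by
        by_contra hlt
        push Not at hlt
        have h3 := ENNReal.toReal_mono ENNReal.ofReal_ne_top h
        rw [ENNReal.toReal_mul, hPv, ENNReal.toReal_ofReal'] at h3
        have h4 : (24 : ENNReal).toReal * V 4 7 = f4 N := by rw [← hV]; norm_num
        rw [h4] at h3
        rcases le_max_iff.1 h3 with h5 | h5 <;> linarith
      have h2 : f4 N ≤ |p22 (c ∘ σ)| := by
        rcases alt hFIN hP31 hP212 hPF (c ∘ σ) hd hp with h3 | h3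
        · linarith
        · exact h1.trans h3
      obtain ⟨φ, hφ⟩ := hPE N hN hmax (c ∘ σ) hd h2
      refine ⟨φ, ?_⟩
      rw [image_hull]
      have : (fun k => φ (Q4 N k)) = c ∘ σ := funext hφ
      rw [this, range_comp, σ.surjective.range_eq, image_univ]
    · rintro ⟨φ, rfl⟩
      rw [image_hull]
      have hd : ∀ i j, dist (φ (Q4 N i)) (φ (Q4 N j)) ≤ 1 := fun i j => by
        rw [φ.dist_eq]; exact hLD N hN i j
      have hv : (volume (convexHull ℝ (range fun k => φ (Q4 N k)))).toReal = V 4 7 := by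
        rw [← image_hull, vol_image, hQV]
      exact ⟨(htup _ hd).2 hv, hv⟩

end Pool.Agent.Helper89.Vol4
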