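import Pool.Agent.Helper89.Vol4.Goals

/-! # V47 : the packet PF (the cyclic type), a sum of squares certificate -/

set_option autoImplicit false
set_option maxRecDepth 100000

namespace Pool.Agent.Helper89.Vol4.PkPF

open Pool.Agent.Helper86.Poly

theorem a0 (g11 g12 g13 g14 g15 g16 g22 g23 g24 g25 g26 g33 g34 g35 g36 g44 g45 g46 g55 g56 g66 : ℝ) : 0 ≤
    549788396 * g11 * g11 - 821565432 * g11 * g12 - 247139330 * g11 * g13 - 30996238 * g11 * g14 - 30899212 * g11 * g15 - 247117542 * g11 * g16 - 463201038 * g11 * g22 +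
    1156906888 * g11 * g23 - 175451336 * g11 * g24 + 260945826 * g11 * g25 - 412952742 * g11 * g26 + 39832656 * g11 * g33 - 905760728 * g11 * g34 - 36679008 * g11 * g35 +
    366021666 * g11 * g36 - 126423308 * g11 * g44 + 1140829356 * g11 * g45 - 36637144 * g11 * g46 - 126426750 * g11 * g55 - 905837810 * g11 * g56 + 39804010 * g11 * g66 +
    3326751684 * g12 * g12 - 500875752 * g12 * g13 - 543788184 * g12 * g14 - 1333515360 * g12 * g15 + 612309648 * g12 * g16 - 821565432 * g12 * g22 - 3244618212 * g12 * g23 +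
    612309648 * g12 * g24 - 1333400004 * g12 * g25 - 543788184 * g12 * g26 + 1157020680 * g12 * g33 - 1070388324 * g12 * g34 - 795725688 * g12 * g35 +
    456463692 * g12 * g36 - 905890668 * g12 * g44 + 988139496 * g12 * g45 + 1368583584 * g12 * g46 + 1140870840 * g12 * g55 + 988370208 * g12 * g56 - 905890668 * g12 * g66 +
    940956742 * g13 * g13 - 535631036 * g13 * g14 - 1093997172 * g13 * g15 + 130484794 * g13 * g16 + 918541574 * g13 * g22 - 501083760 * g13 * g23 - 976450520 * g13 * g24 +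
    558779864 * g13 * g25 + 558904580 * g13 * g26 - 247202120 * g13 * g33 + 612322264 * g13 * g34 + 130565164 * g13 * g35 - 1093899840 * g13 * g36 - 175455238 * g13 * g44 -
    795588260 * g13 * g45 - 95041354 * g13 * g46 - 36613912 * g13 * g55 + 1368544454 * g13 * g56 - 36643936 * g13 * g66 + 2073945072 * g14 * g14 - 579264090 * g14 * g15 -
    1093863900 * g14 * g16 - 412949400 * g14 * g22 + 2841086112 * g14 * g23 - 535579880 * g14 * g24 - 1765761456 * g14 * g25 + 271281192 * g14 * g26 -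
    412991270 * g14 * g33 - 543638700 * g14 * g34 + 558849574 * g14 * g35 + 271223200 * g14 * g36 - 30901048 * g14 * g44 - 1333450766 * g14 * g45 - 1093901364 * g14 * g46 +
    260916728 * g14 * g55 + 456492198 * g14 * g56 + 366006226 * g14 * g66 + 2074037100 * g15 * g15 - 535621146 * g15 * g16 + 260984316 * g15 * g22 + 456739128 * g15 * g23 +
    2141437992 * g15 * g24 - 579347716 * g15 * g25 - 1765984316 * g15 * g26 + 366090232 * g15 * g33 + 456597982 * g15 * g34 - 1093956960 * g15 * g35 +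
    271266248 * g15 * g36 + 260876978 * g15 * g44 - 1333464254 * g15 * g45 + 558827230 * g15 * g46 - 31009702 * g15 * g55 - 543750784 * g15 * g56 - 412892958 * g15 * g66 +
    940946387 * g16 * g16 - 175513808 * g16 * g22 - 795567576 * g16 * g23 - 95081958 * g16 * g24 + 2141257132 * g16 * g25 - 535679850 * g16 * g26 - 36649842 * g16 * g33 +
    1368433896 * g16 * g34 - 95049226 * g16 * g35 - 1093884946 * g16 * g36 - 36664112 * g16 * g44 - 795563482 * g16 * g45 + 130485706 * g16 * g46 - 175515500 * g16 * g55 +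
    612354412 * g16 * g56 - 247124662 * g16 * g66 + 549832500 * g22 * g22 - 821490720 * g22 * g23 - 247142738 * g22 * g24 - 30987300 * g22 * g25 - 30974052 * g22 * g26 -
    463265848 * g22 * g33 + 1156969346 * g22 * g34 - 175479038 * g22 * g35 + 260880898 * g22 * g36 + 39859268 * g22 * g44 - 905958120 * g22 * g45 - 36626428 * g22 * g46 -
    126396616 * g22 * g55 + 1140873410 * g22 * g56 - 126402744 * g22 * g66 + 3326741193 * g23 * g23 - 500929488 * g23 * g24 - 543703934 * g23 * g25 - 1333412596 * g23 * g26 -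
    821518816 * g23 * g33 - 3244550590 * g23 * g34 + 612401508 * g23 * g35 - 1333334474 * g23 * g36 + 1156959034 * g23 * g44 - 1070286088 * g23 * g45 -
    795651352 * g23 * g46 - 905926088 * g23 * g55 + 988090432 * g23 * g56 + 1140841146 * g23 * g66 + 941006826 * g24 * g24 - 535602608 * g24 * g25 - 1093971220 * g24 * g26 +
    918637680 * g24 * g33 - 501058730 * g24 * g34 - 976454812 * g24 * g35 + 558839752 * g24 * g36 - 247179738 * g24 * g44 + 612387194 * g24 * g45 + 130525052 * g24 * g46 -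
    175504540 * g24 * g55 - 795694616 * g24 * g56 - 36614584 * g24 * g66 + 2073873070 * g25 * g25 - 579349748 * g25 * g26 - 412971242 * g25 * g33 + 2840968154 * g25 * g34 -
    535583614 * g25 * g35 - 1765830346 * g25 * g36 - 413001240 * g25 * g44 - 543685128 * g25 * g45 + 558822232 * g25 * g46 - 30920048 * g25 * g55 - 1333446304 * g25 * g56 +
    260945834 * g25 * g66 + 2073985627 * g26 * g26 + 260801352 * g26 * g33 + 456601526 * g26 * g34 + 2141368778 * g26 * g35 - 579232536 * g26 * g36 + 366042468 * g26 * g44 +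
    456775288 * g26 * g45 - 1093922082 * g26 * g46 + 260937184 * g26 * g55 - 1333510256 * g26 * g56 - 30905316 * g26 * g66 + 549838793 * g33 * g33 - 821598568 * g33 * g34 -
    247227178 * g33 * g35 - 30938472 * g33 * g36 - 463246144 * g33 * g44 + 1157011568 * g33 * g45 - 175410352 * g33 * g46 + 39841534 * g33 * g55 - 905888126 * g33 * g56 -
    126428254 * g33 * g66 + 3326735812 * g34 * g34 - 501006302 * g34 * g35 - 543763242 * g34 * g36 - 821545634 * g34 * g44 - 3244663650 * g34 * g45 + 612339012 * g34 * g46 +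
    1157043928 * g34 * g55 - 1070382180 * g34 * g56 - 905765564 * g34 * g66 + 941020826 * g35 * g35 - 535598272 * g35 * g36 + 918620498 * g35 * g44 - 501022304 * g35 * g45 -
    976465296 * g35 * g46 - 247199514 * g35 * g55 + 612417652 * g35 * g56 - 175499862 * g35 * g66 + 2074013696 * g36 * g36 - 412908932 * g36 * g44 + 2841141582 * g36 * g45 -
    535692636 * g36 * g46 - 413006564 * g36 * g55 - 543776894 * g36 * g56 - 30945860 * g36 * g66 + 549815498 * g44 * g44 - 821515312 * g44 * g45 - 247193030 * g44 * g46 -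
    463266960 * g44 * g55 + 1156965330 * g44 * g56 + 39835200 * g44 * g66 + 3326823877 * g45 * g45 - 501063524 * g45 * g46 - 821560106 * g45 * g55 - 3244637886 * g45 * g56 +
    1156939442 * g45 * g66 + 940945278 * g46 * g46 + 918532572 * g46 * g55 - 500853660 * g46 * g56 - 247121696 * g46 * g66 + 549830264 * g55 * g55 - 821516290 * g55 * g56 -
    463206074 * g55 * g66 + 3326727818 * g56 * g56 - 821620994 * g56 * g66 + 549826016 * g66 * g66 := by
  have h : (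
    549788396 * g11 * g11 - 821565432 * g11 * g12 - 247139330 * g11 * g13 - 30996238 * g11 * g14 - 30899212 * g11 * g15 - 247117542 * g11 * g16 - 463201038 * g11 * g22 +
    1156906888 * g11 * g23 - 175451336 * g11 * g24 + 260945826 * g11 * g25 - 412952742 * g11 * g26 + 39832656 * g11 * g33 - 905760728 * g11 * g34 - 36679008 * g11 * g35 +
    366021666 * g11 * g36 - 126423308 * g11 * g44 + 1140829356 * g11 * g45 - 36637144 * g11 * g46 - 126426750 * g11 * g55 - 905837810 * g11 * g56 + 39804010 * g11 * g66 +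
    3326751684 * g12 * g12 - 500875752 * g12 * g13 - 543788184 * g12 * g14 - 1333515360 * g12 * g15 + 612309648 * g12 * g16 - 821565432 * g12 * g22 - 3244618212 * g12 * g23 +
    612309648 * g12 * g24 - 1333400004 * g12 * g25 - 543788184 * g12 * g26 + 1157020680 * g12 * g33 - 1070388324 * g12 * g34 - 795725688 * g12 * g35 +
    456463692 * g12 * g36 - 905890668 * g12 * g44 + 988139496 * g12 * g45 + 1368583584 * g12 * g46 + 1140870840 * g12 * g55 + 988370208 * g12 * g56 - 905890668 * g12 * g66 +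
    940956742 * g13 * g13 - 535631036 * g13 * g14 - 1093997172 * g13 * g15 + 130484794 * g13 * g16 + 918541574 * g13 * g22 - 501083760 * g13 * g23 - 976450520 * g13 * g24 +
    558779864 * g13 * g25 + 558904580 * g13 * g26 - 247202120 * g13 * g33 + 612322264 * g13 * g34 + 130565164 * g13 * g35 - 1093899840 * g13 * g36 - 175455238 * g13 * g44 -
    795588260 * g13 * g45 - 95041354 * g13 * g46 - 36613912 * g13 * g55 + 1368544454 * g13 * g56 - 36643936 * g13 * g66 + 2073945072 * g14 * g14 - 579264090 * g14 * g15 -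
    1093863900 * g14 * g16 - 412949400 * g14 * g22 + 2841086112 * g14 * g23 - 535579880 * g14 * g24 - 1765761456 * g14 * g25 + 271281192 * g14 * g26 -
    412991270 * g14 * g33 - 543638700 * g14 * g34 + 558849574 * g14 * g35 + 271223200 * g14 * g36 - 30901048 * g14 * g44 - 1333450766 * g14 * g45 - 1093901364 * g14 * g46 +
    260916728 * g14 * g55 + 456492198 * g14 * g56 + 366006226 * g14 * g66 + 2074037100 * g15 * g15 - 535621146 * g15 * g16 + 260984316 * g15 * g22 + 456739128 * g15 * g23 +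
    2141437992 * g15 * g24 - 579347716 * g15 * g25 - 1765984316 * g15 * g26 + 366090232 * g15 * g33 + 456597982 * g15 * g34 - 1093956960 * g15 * g35 +
    271266248 * g15 * g36 + 260876978 * g15 * g44 - 1333464254 * g15 * g45 + 558827230 * g15 * g46 - 31009702 * g15 * g55 - 543750784 * g15 * g56 - 412892958 * g15 * g66 +
    940946387 * g16 * g16 - 175513808 * g16 * g22 - 795567576 * g16 * g23 - 95081958 * g16 * g24 + 2141257132 * g16 * g25 - 535679850 * g16 * g26 - 36649842 * g16 * g33 +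
    1368433896 * g16 * g34 - 95049226 * g16 * g35 - 1093884946 * g16 * g36 - 36664112 * g16 * g44 - 795563482 * g16 * g45 + 130485706 * g16 * g46 - 175515500 * g16 * g55 +
    612354412 * g16 * g56 - 247124662 * g16 * g66 + 549832500 * g22 * g22 - 821490720 * g22 * g23 - 247142738 * g22 * g24 - 30987300 * g22 * g25 - 30974052 * g22 * g26 -
    463265848 * g22 * g33 + 1156969346 * g22 * g34 - 175479038 * g22 * g35 + 260880898 * g22 * g36 + 39859268 * g22 * g44 - 905958120 * g22 * g45 - 36626428 * g22 * g46 -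
    126396616 * g22 * g55 + 1140873410 * g22 * g56 - 126402744 * g22 * g66 + 3326741193 * g23 * g23 - 500929488 * g23 * g24 - 543703934 * g23 * g25 - 1333412596 * g23 * g26 -
    821518816 * g23 * g33 - 3244550590 * g23 * g34 + 612401508 * g23 * g35 - 1333334474 * g23 * g36 + 1156959034 * g23 * g44 - 1070286088 * g23 * g45 -
    795651352 * g23 * g46 - 905926088 * g23 * g55 + 988090432 * g23 * g56 + 1140841146 * g23 * g66 + 941006826 * g24 * g24 - 535602608 * g24 * g25 - 1093971220 * g24 * g26 +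
    918637680 * g24 * g33 - 501058730 * g24 * g34 - 976454812 * g24 * g35 + 558839752 * g24 * g36 - 247179738 * g24 * g44 + 612387194 * g24 * g45 + 130525052 * g24 * g46 -
    175504540 * g24 * g55 - 795694616 * g24 * g56 - 36614584 * g24 * g66 + 2073873070 * g25 * g25 - 579349748 * g25 * g26 - 412971242 * g25 * g33 + 2840968154 * g25 * g34 -
    535583614 * g25 * g35 - 1765830346 * g25 * g36 - 413001240 * g25 * g44 - 543685128 * g25 * g45 + 558822232 * g25 * g46 - 30920048 * g25 * g55 - 1333446304 * g25 * g56 +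
    260945834 * g25 * g66 + 2073985627 * g26 * g26 + 260801352 * g26 * g33 + 456601526 * g26 * g34 + 2141368778 * g26 * g35 - 579232536 * g26 * g36 + 366042468 * g26 * g44 +
    456775288 * g26 * g45 - 1093922082 * g26 * g46 + 260937184 * g26 * g55 - 1333510256 * g26 * g56 - 30905316 * g26 * g66 + 549838793 * g33 * g33 - 821598568 * g33 * g34 -
    247227178 * g33 * g35 - 30938472 * g33 * g36 - 463246144 * g33 * g44 + 1157011568 * g33 * g45 - 175410352 * g33 * g46 + 39841534 * g33 * g55 - 905888126 * g33 * g56 -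
    126428254 * g33 * g66 + 3326735812 * g34 * g34 - 501006302 * g34 * g35 - 543763242 * g34 * g36 - 821545634 * g34 * g44 - 3244663650 * g34 * g45 + 612339012 * g34 * g46 +
    1157043928 * g34 * g55 - 1070382180 * g34 * g56 - 905765564 * g34 * g66 + 941020826 * g35 * g35 - 535598272 * g35 * g36 + 918620498 * g35 * g44 - 501022304 * g35 * g45 -
    976465296 * g35 * g46 - 247199514 * g35 * g55 + 612417652 * g35 * g56 - 175499862 * g35 * g66 + 2074013696 * g36 * g36 - 412908932 * g36 * g44 + 2841141582 * g36 * g45 -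
    535692636 * g36 * g46 - 413006564 * g36 * g55 - 543776894 * g36 * g56 - 30945860 * g36 * g66 + 549815498 * g44 * g44 - 821515312 * g44 * g45 - 247193030 * g44 * g46 -
    463266960 * g44 * g55 + 1156965330 * g44 * g56 + 39835200 * g44 * g66 + 3326823877 * g45 * g45 - 501063524 * g45 * g46 - 821560106 * g45 * g55 - 3244637886 * g45 * g56 +
    1156939442 * g45 * g66 + 940945278 * g46 * g46 + 918532572 * g46 * g55 - 500853660 * g46 * g56 - 247121696 * g46 * g66 + 549830264 * g55 * g55 - 821516290 * g55 * g56 -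
    463206074 * g55 * g66 + 3326727818 * g56 * g56 - 821620994 * g56 * g66 + 549826016 * g66 * g66) =
    (-7122 * g11 + 57678 * g12 - 4342 * g13 - 4714 * g14 - 11560 * g15 + 5308 * g16 - 7122 * g22 - 28127 * g23 + 5308 * g24 - 11559 * g25 - 4714 * g26 + 10030 * g33 - 9279 * g34 - 6898 * g35 + 3957 * g36 - 7853 * g44 + 8566 * g45 + 11864 * g46 + 9890 * g55 + 8568 * g56 - 7853 * g66) ^ 2 +
    (11070 * g11 - 6322 * g13 - 10981 * g14 - 9953 * g15 - 7771 * g16 - 6872 * g22 - 5158 * g23 + 4571 * g24 - 3030 * g25 + 4712 * g26 + 8636 * g33 - 27049 * g34 - 3356 * g35 + 24311 * g36 - 6022 * g44 + 57039 * g45 - 6174 * g46 - 8687 * g55 - 29729 * g56 + 11321 * g66) ^ 2 +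
    (8689 * g11 - 8091 * g13 + 24582 * g14 - 2957 * g15 - 5761 * g16 - 12907 * g22 + 50090 * g23 - 1549 * g24 - 12230 * g25 - 15472 * g26 - 1679 * g33 - 40383 * g34 + 1894 * g35 - 8584 * g36 + 6519 * g44 - 1916 * g46 - 4384 * g55 + 11613 * g56 + 8144 * g66) ^ 2 +
    (-3463 * g11 + 13274 * g13 - 7262 * g14 - 9189 * g15 + 2043 * g16 + 12207 * g22 - 6123 * g24 - 10910 * g25 - 6486 * g26 - 5556 * g33 - 16730 * g34 + 5152 * g35 + 10929 * g36 + 8272 * g44 - 10860 * g46 - 14868 * g55 + 47272 * g56 - 2148 * g66) ^ 2 +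
    (150 * g11 - 13443 * g13 - 10702 * g14 + 41811 * g15 - 6746 * g16 + 1286 * g22 + 26709 * g24 - 14108 * g25 - 23820 * g26 + 7867 * g33 - 10077 * g34 - 14522 * g35 + 11920 * g36 + 1794 * g44 + 5971 * g46 - 3282 * g55 - 4310 * g66) ^ 2 +
    (3981 * g11 + 1732 * g13 - 23532 * g14 + 25228 * g16 - 3272 * g22 + 2574 * g24 + 38255 * g25 - 24204 * g26 - 903 * g33 + 10788 * g34 - 12631 * g35 - 15190 * g36 - 3143 * g44 + 8892 * g46 - 4956 * g55 + 2336 * g66) ^ 2 +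
    (3770 * g11 - 13458 * g13 + 16045 * g14 + 427 * g16 + 548 * g22 - 2610 * g24 - 17692 * g26 - 10868 * g33 + 18073 * g34 - 7252 * g35 + 30023 * g36 - 4415 * g44 + 48 * g46 + 1807 * g55 - 2644 * g66) ^ 2 +
    (3362 * g11 + 6940 * g13 - 13878 * g14 - 9535 * g16 + 6672 * g22 - 9647 * g24 - 8885 * g26 - 11137 * g33 - 2025 * g34 - 7334 * g35 + 2275 * g44 + 22929 * g46 + 7938 * g55 + 1608 * g66) ^ 2 +
    (3899 * g11 - 13370 * g13 - 12243 * g14 + 6053 * g16 - 8679 * g22 - 3670 * g24 + 14021 * g26 - 2648 * g33 - 7045 * g34 + 19371 * g35 + 15538 * g44 - 1991 * g55 - 7679 * g66) ^ 2 +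
    (15246 * g11 + 6980 * g13 - 2431 * g14 - 2307 * g16 - 1945 * g22 - 4325 * g24 - 2519 * g26 + 5395 * g33 - 123 * g34 - 7859 * g44 + 5541 * g55 - 14017 * g66) ^ 2 := by ring
  rw [h]; positivity

theorem bm (x12 x13 x14 x15 x16 x23 x24 x25 x26 x34 x35 x36 x45 x46 x56 : ℝ) : 0 ≤
    6163820100 * x12 * x12 - 1454476260 * x12 * x13 - 1633793100 * x12 * x14 - 3570477780 * x12 * x15 + 1799920260 * x12 * x16 + 7468656300 * x12 * x23 -
    1799920260 * x12 * x24 + 3570320760 * x12 * x25 + 1633793100 * x12 * x26 + 10875205200 * x12 * x34 - 123888780 * x12 * x35 + 1385387460 * x12 * x36 +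
    9323847600 * x12 * x45 - 3267743220 * x12 * x46 + 9323847600 * x12 * x56 + 2220779797 * x13 * x13 - 147114336 * x13 * x14 - 3130289032 * x13 * x15 -
    1509791126 * x13 * x16 - 1454725592 * x13 * x23 - 3002355446 * x13 * x24 - 1509131182 * x13 * x25 + 1509401908 * x13 * x26 - 1799835420 * x13 * x34 +
    1509914388 * x13 * x35 + 3130143408 * x13 * x36 - 123882526 * x13 * x45 + 14181862 * x13 * x46 - 3267704434 * x13 * x56 + 4080077286 * x14 * x14 +
    321324908 * x14 * x15 - 3130021968 * x14 * x16 + 6122582886 * x14 * x23 - 146777796 * x14 * x24 - 5836414892 * x14 * x25 - 3282122334 * x14 * x26 -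
    1633717132 * x14 * x34 - 1509294454 * x14 * x35 + 3281813984 * x14 * x36 + 3570374920 * x14 * x45 + 3130159942 * x14 * x46 + 1385459916 * x14 * x56 +
    4080104330 * x15 * x15 - 146885322 * x15 * x16 - 1385248922 * x15 * x23 + 4839716126 * x15 * x24 + 321173692 * x15 * x25 - 5836756250 * x15 * x26 -
    1385361860 * x15 * x34 - 3130351582 * x15 * x35 - 3282122888 * x15 * x36 - 3570405272 * x15 * x45 + 1509445560 * x15 * x46 + 1633779044 * x15 * x56 +
    2220750615 * x16 * x16 + 124043882 * x16 * x23 - 14316426 * x16 * x24 + 4839436578 * x16 * x25 - 146935986 * x16 * x26 + 3267714520 * x16 * x34 - 14332270 * x16 * x35 -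
    3130039164 * x16 * x36 + 124015986 * x16 * x45 - 1509787074 * x16 * x46 + 1799910600 * x16 * x56 + 6163804395 * x23 * x23 - 1454527326 * x23 * x24 -
    1633667246 * x23 * x25 - 3570464074 * x23 * x26 + 7468736696 * x23 * x34 - 1800041238 * x23 * x35 + 3570269174 * x23 * x36 + 10875128554 * x23 * x45 -
    123847450 * x23 * x46 + 9323870088 * x23 * x56 + 2220835999 * x24 * x24 - 146842982 * x24 * x25 - 3130380902 * x24 * x26 - 1454599132 * x24 * x34 -
    3002455730 * x24 * x35 - 1509163152 * x24 * x36 - 1799825206 * x24 * x45 + 1509918246 * x24 * x46 - 123789876 * x24 * x56 + 4079939290 * x25 * x25 +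
    321035724 * x25 * x26 + 6122459102 * x25 * x34 - 146952048 * x25 * x35 - 5836497052 * x25 * x36 - 1633755136 * x25 * x45 - 1509053224 * x25 * x46 +
    3570320774 * x25 * x56 + 4080085938 * x26 * x26 - 1385303086 * x26 * x34 + 4839724436 * x26 * x35 + 321266918 * x26 * x36 - 1385325932 * x26 * x45 -
    3130279902 * x26 * x46 - 3570422364 * x26 * x56 + 6163839547 * x34 * x34 - 1454709794 * x34 * x35 - 1633782912 * x34 * x36 + 7468696910 * x34 * x45 -
    1799842884 * x34 * x46 + 10875134252 * x34 * x56 + 2220831074 * x35 * x35 - 146774994 * x35 * x36 - 1454651472 * x35 * x45 - 3002398442 * x35 * x46 -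
    1800064492 * x35 * x56 + 4080052498 * x36 * x36 + 6122524288 * x36 * x45 - 147075666 * x36 * x46 - 1633772564 * x36 * x56 + 6163807254 * x45 * x45 -
    1454719508 * x45 * x46 + 7468696482 * x45 * x56 + 2220802378 * x46 * x46 - 1454505220 * x46 * x56 + 6163761398 * x56 * x56 := by
  have h : (
    6163820100 * x12 * x12 - 1454476260 * x12 * x13 - 1633793100 * x12 * x14 - 3570477780 * x12 * x15 + 1799920260 * x12 * x16 + 7468656300 * x12 * x23 -
    1799920260 * x12 * x24 + 3570320760 * x12 * x25 + 1633793100 * x12 * x26 + 10875205200 * x12 * x34 - 123888780 * x12 * x35 + 1385387460 * x12 * x36 +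
    9323847600 * x12 * x45 - 3267743220 * x12 * x46 + 9323847600 * x12 * x56 + 2220779797 * x13 * x13 - 147114336 * x13 * x14 - 3130289032 * x13 * x15 -
    1509791126 * x13 * x16 - 1454725592 * x13 * x23 - 3002355446 * x13 * x24 - 1509131182 * x13 * x25 + 1509401908 * x13 * x26 - 1799835420 * x13 * x34 +
    1509914388 * x13 * x35 + 3130143408 * x13 * x36 - 123882526 * x13 * x45 + 14181862 * x13 * x46 - 3267704434 * x13 * x56 + 4080077286 * x14 * x14 +
    321324908 * x14 * x15 - 3130021968 * x14 * x16 + 6122582886 * x14 * x23 - 146777796 * x14 * x24 - 5836414892 * x14 * x25 - 3282122334 * x14 * x26 -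
    1633717132 * x14 * x34 - 1509294454 * x14 * x35 + 3281813984 * x14 * x36 + 3570374920 * x14 * x45 + 3130159942 * x14 * x46 + 1385459916 * x14 * x56 +
    4080104330 * x15 * x15 - 146885322 * x15 * x16 - 1385248922 * x15 * x23 + 4839716126 * x15 * x24 + 321173692 * x15 * x25 - 5836756250 * x15 * x26 -
    1385361860 * x15 * x34 - 3130351582 * x15 * x35 - 3282122888 * x15 * x36 - 3570405272 * x15 * x45 + 1509445560 * x15 * x46 + 1633779044 * x15 * x56 +
    2220750615 * x16 * x16 + 124043882 * x16 * x23 - 14316426 * x16 * x24 + 4839436578 * x16 * x25 - 146935986 * x16 * x26 + 3267714520 * x16 * x34 - 14332270 * x16 * x35 -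
    3130039164 * x16 * x36 + 124015986 * x16 * x45 - 1509787074 * x16 * x46 + 1799910600 * x16 * x56 + 6163804395 * x23 * x23 - 1454527326 * x23 * x24 -
    1633667246 * x23 * x25 - 3570464074 * x23 * x26 + 7468736696 * x23 * x34 - 1800041238 * x23 * x35 + 3570269174 * x23 * x36 + 10875128554 * x23 * x45 -
    123847450 * x23 * x46 + 9323870088 * x23 * x56 + 2220835999 * x24 * x24 - 146842982 * x24 * x25 - 3130380902 * x24 * x26 - 1454599132 * x24 * x34 -
    3002455730 * x24 * x35 - 1509163152 * x24 * x36 - 1799825206 * x24 * x45 + 1509918246 * x24 * x46 - 123789876 * x24 * x56 + 4079939290 * x25 * x25 +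
    321035724 * x25 * x26 + 6122459102 * x25 * x34 - 146952048 * x25 * x35 - 5836497052 * x25 * x36 - 1633755136 * x25 * x45 - 1509053224 * x25 * x46 +
    3570320774 * x25 * x56 + 4080085938 * x26 * x26 - 1385303086 * x26 * x34 + 4839724436 * x26 * x35 + 321266918 * x26 * x36 - 1385325932 * x26 * x45 -
    3130279902 * x26 * x46 - 3570422364 * x26 * x56 + 6163839547 * x34 * x34 - 1454709794 * x34 * x35 - 1633782912 * x34 * x36 + 7468696910 * x34 * x45 -
    1799842884 * x34 * x46 + 10875134252 * x34 * x56 + 2220831074 * x35 * x35 - 146774994 * x35 * x36 - 1454651472 * x35 * x45 - 3002398442 * x35 * x46 -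
    1800064492 * x35 * x56 + 4080052498 * x36 * x36 + 6122524288 * x36 * x45 - 147075666 * x36 * x46 - 1633772564 * x36 * x56 + 6163807254 * x45 * x45 -
    1454719508 * x45 * x46 + 7468696482 * x45 * x56 + 2220802378 * x46 * x46 - 1454505220 * x46 * x56 + 6163761398 * x56 * x56) =
    (78510 * x12 - 9263 * x13 - 10405 * x14 - 22739 * x15 + 11463 * x16 + 47565 * x23 - 11463 * x24 + 22738 * x25 + 10405 * x26 + 69260 * x34 - 789 * x35 + 8823 * x36 + 59380 * x45 - 20811 * x46 + 59380 * x56) ^ 2 +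
    (26031 * x13 + 27389 * x14 - 22769 * x15 - 26337 * x16 + 21584 * x23 - 10329 * x24 - 49300 * x25 + 1088 * x26 - 22572 * x34 - 1050 * x35 + 63263 * x36 + 40108 * x45 + 1740 * x46 - 21194 * x56) ^ 2 +
    (13057 * x13 - 24798 * x14 - 42166 * x15 - 2604 * x16 - 36558 * x23 - 22768 * x24 - 356 * x25 + 63013 * x26 - 22039 * x34 + 38551 * x35 - 21490 * x45 - 21432 * x46 - 37770 * x56) ^ 2 +
    (-10951 * x13 + 51056 * x14 - 9753 * x15 - 15453 * x16 + 40318 * x23 - 9291 * x24 - 26249 * x25 - 480 * x34 + 4346 * x35 + 15113 * x45 + 15070 * x46 + 18694 * x56) ^ 2 +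
    (-30789 * x13 + 23527 * x15 - 9446 * x16 - 11229 * x23 + 37122 * x24 - 15462 * x25 - 18123 * x34 - 16244 * x35 - 4144 * x45 + 5022 * x46 - 7715 * x56) ^ 2 +
    (11250 * x13 - 16905 * x15 - 7510 * x16 - 13564 * x23 + 8244 * x25 + 6308 * x34 - 20560 * x35 - 6988 * x45 + 32757 * x46 - 15480 * x56) ^ 2 +
    (-9614 * x13 - 18227 * x15 + 31694 * x16 + 12783 * x23 + 11673 * x25 + 1793 * x34 - 5240 * x35 + 16521 * x45 - 10649 * x56) ^ 2 := by ring
  rw [h]; positivity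

theorem balg {x12 x13 x14 x15 x16 x23 x24 x25 x26 x34 x35 x36 x45 x46 x56 y12 y13 y14 y15 y16 y23 y24 y25 y26 y34 y35 y36 y45 y46 y56 z12 z13 z14 z15 z16 z23 z24 z25 z26 z34 z35 z36 z45 z46 z56 g11 g12 g13 g14 g15 g16 g22 g23 g24 g25 g26 g33 g34 g35 g36 g44 g45 g46 g55 g56 g66 d1234 d1235 d1236 d1245 d1246 d1256 d1345 d1346 d1356 d1456 d2345 d2346 d2356 d2456 d3456 : ℝ}
    (k12_12 : x12 * x12 + y12 * y12 + z12 * z12 = g11 * g22 - g12 * g12)
    (k12_13 : x12 * x13 + y12 * y13 + z12 * z13 = g11 * g23 - g13 * g12)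
    (k12_14 : x12 * x14 + y12 * y14 + z12 * z14 = g11 * g24 - g14 * g12)
    (k12_15 : x12 * x15 + y12 * y15 + z12 * z15 = g11 * g25 - g15 * g12)
    (k12_16 : x12 * x16 + y12 * y16 + z12 * z16 = g11 * g26 - g16 * g12)
    (k12_23 : x12 * x23 + y12 * y23 + z12 * z23 = g12 * g23 - g13 * g22)
    (k12_24 : x12 * x24 + y12 * y24 + z12 * z24 = g12 * g24 - g14 * g22)
    (k12_25 : x12 * x25 + y12 * y25 + z12 * z25 = g12 * g25 - g15 * g22)
    (k12_26 : x12 * x26 + y12 * y26 + z12 * z26 = g12 * g26 - g16 * g22)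
    (k12_34 : x12 * x34 + y12 * y34 + z12 * z34 = g13 * g24 - g14 * g23 - d1234)
    (k12_35 : x12 * x35 + y12 * y35 + z12 * z35 = g13 * g25 - g15 * g23 - d1235)
    (k12_36 : x12 * x36 + y12 * y36 + z12 * z36 = g13 * g26 - g16 * g23 - d1236)
    (k12_45 : x12 * x45 + y12 * y45 + z12 * z45 = g14 * g25 - g15 * g24 - d1245)
    (k12_46 : x12 * x46 + y12 * y46 + z12 * z46 = g14 * g26 - g16 * g24 - d1246)
    (k12_56 : x12 * x56 + y12 * y56 + z12 * z56 = g15 * g26 - g16 * g25 - d1256)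
    (k13_13 : x13 * x13 + y13 * y13 + z13 * z13 = g11 * g33 - g13 * g13)
    (k13_14 : x13 * x14 + y13 * y14 + z13 * z14 = g11 * g34 - g14 * g13)
    (k13_15 : x13 * x15 + y13 * y15 + z13 * z15 = g11 * g35 - g15 * g13)
    (k13_16 : x13 * x16 + y13 * y16 + z13 * z16 = g11 * g36 - g16 * g13)
    (k13_23 : x13 * x23 + y13 * y23 + z13 * z23 = g12 * g33 - g13 * g23)
    (k13_24 : x13 * x24 + y13 * y24 + z13 * z24 = g12 * g34 - g14 * g23 + d1234)
    (k13_25 : x13 * x25 + y13 * y25 + z13 * z25 = g12 * g35 - g15 * g23 + d1235)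
    (k13_26 : x13 * x26 + y13 * y26 + z13 * z26 = g12 * g36 - g16 * g23 + d1236)
    (k13_34 : x13 * x34 + y13 * y34 + z13 * z34 = g13 * g34 - g14 * g33)
    (k13_35 : x13 * x35 + y13 * y35 + z13 * z35 = g13 * g35 - g15 * g33)
    (k13_36 : x13 * x36 + y13 * y36 + z13 * z36 = g13 * g36 - g16 * g33)
    (k13_45 : x13 * x45 + y13 * y45 + z13 * z45 = g14 * g35 - g15 * g34 - d1345)
    (k13_46 : x13 * x46 + y13 * y46 + z13 * z46 = g14 * g36 - g16 * g34 - d1346)
    (k13_56 : x13 * x56 + y13 * y56 + z13 * z56 = g15 * g36 - g16 * g35 - d1356)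
    (k14_14 : x14 * x14 + y14 * y14 + z14 * z14 = g11 * g44 - g14 * g14)
    (k14_15 : x14 * x15 + y14 * y15 + z14 * z15 = g11 * g45 - g15 * g14)
    (k14_16 : x14 * x16 + y14 * y16 + z14 * z16 = g11 * g46 - g16 * g14)
    (k14_23 : x14 * x23 + y14 * y23 + z14 * z23 = g12 * g34 - g13 * g24 - d1234)
    (k14_24 : x14 * x24 + y14 * y24 + z14 * z24 = g12 * g44 - g14 * g24)
    (k14_25 : x14 * x25 + y14 * y25 + z14 * z25 = g12 * g45 - g15 * g24 + d1245)
    (k14_26 : x14 * x26 + y14 * y26 + z14 * z26 = g12 * g46 - g16 * g24 + d1246)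
    (k14_34 : x14 * x34 + y14 * y34 + z14 * z34 = g13 * g44 - g14 * g34)
    (k14_35 : x14 * x35 + y14 * y35 + z14 * z35 = g13 * g45 - g15 * g34 + d1345)
    (k14_36 : x14 * x36 + y14 * y36 + z14 * z36 = g13 * g46 - g16 * g34 + d1346)
    (k14_45 : x14 * x45 + y14 * y45 + z14 * z45 = g14 * g45 - g15 * g44)
    (k14_46 : x14 * x46 + y14 * y46 + z14 * z46 = g14 * g46 - g16 * g44)
    (k14_56 : x14 * x56 + y14 * y56 + z14 * z56 = g15 * g46 - g16 * g45 - d1456)
    (k15_15 : x15 * x15 + y15 * y15 + z15 * z15 = g11 * g55 - g15 * g15)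
    (k15_16 : x15 * x16 + y15 * y16 + z15 * z16 = g11 * g56 - g16 * g15)
    (k15_23 : x15 * x23 + y15 * y23 + z15 * z23 = g12 * g35 - g13 * g25 - d1235)
    (k15_24 : x15 * x24 + y15 * y24 + z15 * z24 = g12 * g45 - g14 * g25 - d1245)
    (k15_25 : x15 * x25 + y15 * y25 + z15 * z25 = g12 * g55 - g15 * g25)
    (k15_26 : x15 * x26 + y15 * y26 + z15 * z26 = g12 * g56 - g16 * g25 + d1256)
    (k15_34 : x15 * x34 + y15 * y34 + z15 * z34 = g13 * g45 - g14 * g35 - d1345)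
    (k15_35 : x15 * x35 + y15 * y35 + z15 * z35 = g13 * g55 - g15 * g35)
    (k15_36 : x15 * x36 + y15 * y36 + z15 * z36 = g13 * g56 - g16 * g35 + d1356)
    (k15_45 : x15 * x45 + y15 * y45 + z15 * z45 = g14 * g55 - g15 * g45)
    (k15_46 : x15 * x46 + y15 * y46 + z15 * z46 = g14 * g56 - g16 * g45 + d1456)
    (k15_56 : x15 * x56 + y15 * y56 + z15 * z56 = g15 * g56 - g16 * g55)
    (k16_16 : x16 * x16 + y16 * y16 + z16 * z16 = g11 * g66 - g16 * g16)
    (k16_23 : x16 * x23 + y16 * y23 + z16 * z23 = g12 * g36 - g13 * g26 - d1236)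
    (k16_24 : x16 * x24 + y16 * y24 + z16 * z24 = g12 * g46 - g14 * g26 - d1246)
    (k16_25 : x16 * x25 + y16 * y25 + z16 * z25 = g12 * g56 - g15 * g26 - d1256)
    (k16_26 : x16 * x26 + y16 * y26 + z16 * z26 = g12 * g66 - g16 * g26)
    (k16_34 : x16 * x34 + y16 * y34 + z16 * z34 = g13 * g46 - g14 * g36 - d1346)
    (k16_35 : x16 * x35 + y16 * y35 + z16 * z35 = g13 * g56 - g15 * g36 - d1356)
    (k16_36 : x16 * x36 + y16 * y36 + z16 * z36 = g13 * g66 - g16 * g36)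
    (k16_45 : x16 * x45 + y16 * y45 + z16 * z45 = g14 * g56 - g15 * g46 - d1456)
    (k16_46 : x16 * x46 + y16 * y46 + z16 * z46 = g14 * g66 - g16 * g46)
    (k16_56 : x16 * x56 + y16 * y56 + z16 * z56 = g15 * g66 - g16 * g56)
    (k23_23 : x23 * x23 + y23 * y23 + z23 * z23 = g22 * g33 - g23 * g23)
    (k23_24 : x23 * x24 + y23 * y24 + z23 * z24 = g22 * g34 - g24 * g23)
    (k23_25 : x23 * x25 + y23 * y25 + z23 * z25 = g22 * g35 - g25 * g23)
    (k23_26 : x23 * x26 + y23 * y26 + z23 * z26 = g22 * g36 - g26 * g23)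
    (k23_34 : x23 * x34 + y23 * y34 + z23 * z34 = g23 * g34 - g24 * g33)
    (k23_35 : x23 * x35 + y23 * y35 + z23 * z35 = g23 * g35 - g25 * g33)
    (k23_36 : x23 * x36 + y23 * y36 + z23 * z36 = g23 * g36 - g26 * g33)
    (k23_45 : x23 * x45 + y23 * y45 + z23 * z45 = g24 * g35 - g25 * g34 - d2345)
    (k23_46 : x23 * x46 + y23 * y46 + z23 * z46 = g24 * g36 - g26 * g34 - d2346)
    (k23_56 : x23 * x56 + y23 * y56 + z23 * z56 = g25 * g36 - g26 * g35 - d2356)
    (k24_24 : x24 * x24 + y24 * y24 + z24 * z24 = g22 * g44 - g24 * g24)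
    (k24_25 : x24 * x25 + y24 * y25 + z24 * z25 = g22 * g45 - g25 * g24)
    (k24_26 : x24 * x26 + y24 * y26 + z24 * z26 = g22 * g46 - g26 * g24)
    (k24_34 : x24 * x34 + y24 * y34 + z24 * z34 = g23 * g44 - g24 * g34)
    (k24_35 : x24 * x35 + y24 * y35 + z24 * z35 = g23 * g45 - g25 * g34 + d2345)
    (k24_36 : x24 * x36 + y24 * y36 + z24 * z36 = g23 * g46 - g26 * g34 + d2346)
    (k24_45 : x24 * x45 + y24 * y45 + z24 * z45 = g24 * g45 - g25 * g44)
    (k24_46 : x24 * x46 + y24 * y46 + z24 * z46 = g24 * g46 - g26 * g44)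
    (k24_56 : x24 * x56 + y24 * y56 + z24 * z56 = g25 * g46 - g26 * g45 - d2456)
    (k25_25 : x25 * x25 + y25 * y25 + z25 * z25 = g22 * g55 - g25 * g25)
    (k25_26 : x25 * x26 + y25 * y26 + z25 * z26 = g22 * g56 - g26 * g25)
    (k25_34 : x25 * x34 + y25 * y34 + z25 * z34 = g23 * g45 - g24 * g35 - d2345)
    (k25_35 : x25 * x35 + y25 * y35 + z25 * z35 = g23 * g55 - g25 * g35)
    (k25_36 : x25 * x36 + y25 * y36 + z25 * z36 = g23 * g56 - g26 * g35 + d2356)
    (k25_45 : x25 * x45 + y25 * y45 + z25 * z45 = g24 * g55 - g25 * g45)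
    (k25_46 : x25 * x46 + y25 * y46 + z25 * z46 = g24 * g56 - g26 * g45 + d2456)
    (k25_56 : x25 * x56 + y25 * y56 + z25 * z56 = g25 * g56 - g26 * g55)
    (k26_26 : x26 * x26 + y26 * y26 + z26 * z26 = g22 * g66 - g26 * g26)
    (k26_34 : x26 * x34 + y26 * y34 + z26 * z34 = g23 * g46 - g24 * g36 - d2346)
    (k26_35 : x26 * x35 + y26 * y35 + z26 * z35 = g23 * g56 - g25 * g36 - d2356)
    (k26_36 : x26 * x36 + y26 * y36 + z26 * z36 = g23 * g66 - g26 * g36)
    (k26_45 : x26 * x45 + y26 * y45 + z26 * z45 = g24 * g56 - g25 * g46 - d2456)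
    (k26_46 : x26 * x46 + y26 * y46 + z26 * z46 = g24 * g66 - g26 * g46)
    (k26_56 : x26 * x56 + y26 * y56 + z26 * z56 = g25 * g66 - g26 * g56)
    (k34_34 : x34 * x34 + y34 * y34 + z34 * z34 = g33 * g44 - g34 * g34)
    (k34_35 : x34 * x35 + y34 * y35 + z34 * z35 = g33 * g45 - g35 * g34)
    (k34_36 : x34 * x36 + y34 * y36 + z34 * z36 = g33 * g46 - g36 * g34)
    (k34_45 : x34 * x45 + y34 * y45 + z34 * z45 = g34 * g45 - g35 * g44)
    (k34_46 : x34 * x46 + y34 * y46 + z34 * z46 = g34 * g46 - g36 * g44)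
    (k34_56 : x34 * x56 + y34 * y56 + z34 * z56 = g35 * g46 - g36 * g45 - d3456)
    (k35_35 : x35 * x35 + y35 * y35 + z35 * z35 = g33 * g55 - g35 * g35)
    (k35_36 : x35 * x36 + y35 * y36 + z35 * z36 = g33 * g56 - g36 * g35)
    (k35_45 : x35 * x45 + y35 * y45 + z35 * z45 = g34 * g55 - g35 * g45)
    (k35_46 : x35 * x46 + y35 * y46 + z35 * z46 = g34 * g56 - g36 * g45 + d3456)
    (k35_56 : x35 * x56 + y35 * y56 + z35 * z56 = g35 * g56 - g36 * g55)
    (k36_36 : x36 * x36 + y36 * y36 + z36 * z36 = g33 * g66 - g36 * g36)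
    (k36_45 : x36 * x45 + y36 * y45 + z36 * z45 = g34 * g56 - g35 * g46 - d3456)
    (k36_46 : x36 * x46 + y36 * y46 + z36 * z46 = g34 * g66 - g36 * g46)
    (k36_56 : x36 * x56 + y36 * y56 + z36 * z56 = g35 * g66 - g36 * g56)
    (k45_45 : x45 * x45 + y45 * y45 + z45 * z45 = g44 * g55 - g45 * g45)
    (k45_46 : x45 * x46 + y45 * y46 + z45 * z46 = g44 * g56 - g46 * g45)
    (k45_56 : x45 * x56 + y45 * y56 + z45 * z56 = g45 * g56 - g46 * g55)
    (k46_46 : x46 * x46 + y46 * y46 + z46 * z46 = g44 * g66 - g46 * g46)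
    (k46_56 : x46 * x56 + y46 * y56 + z46 * z56 = g45 * g66 - g46 * g56)
    (k56_56 : x56 * x56 + y56 * y56 + z56 * z56 = g55 * g66 - g56 * g56) : 0 ≤
    6163820100 * g11 * g22 - 6163820100 * g12 * g12 - 1454476260 * g11 * g23 + 1454476260 * g12 * g13 - 1633793100 * g11 * g24 + 1633793100 * g12 * g14 -
    3570477780 * g11 * g25 + 3570477780 * g12 * g15 + 1799920260 * g11 * g26 - 1799920260 * g12 * g16 + 7468656300 * g12 * g23 - 7468656300 * g13 * g22 -
    1799920260 * g12 * g24 + 1799920260 * g14 * g22 + 3570320760 * g12 * g25 - 3570320760 * g15 * g22 + 1633793100 * g12 * g26 - 1633793100 * g16 * g22 +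
    4752622314 * g13 * g24 - 7872849754 * g14 * g23 - 20000143532 * d1234 + 1261360142 * g13 * g25 + 1633019962 * g15 * g23 + 6520 * d1235 + 1261343578 * g13 * g26 -
    2894789368 * g16 * g23 - 29434 * d1236 + 4484131474 * g14 * g25 - 3487432708 * g15 * g24 - 19999978618 * d1245 - 3253426794 * g14 * g26 + 6549865554 * g16 * g24 -
    62688 * d1246 + 4484411022 * g15 * g26 - 3487091350 * g16 * g25 - 20000040428 * d1256 + 2220779797 * g11 * g33 - 2220779797 * g13 * g13 - 147114336 * g11 * g34 +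
    147114336 * g13 * g14 - 3130289032 * g11 * g35 + 3130289032 * g13 * g15 - 1509791126 * g11 * g36 + 1509791126 * g13 * g16 - 1454725592 * g12 * g33 +
    1454725592 * g13 * g23 + 3120227440 * g12 * g34 - 2894380104 * g12 * g35 + 1633445790 * g12 * g36 - 1799835420 * g13 * g34 + 1799835420 * g14 * g33 +
    1509914388 * g13 * g35 - 1509914388 * g15 * g33 + 3130143408 * g13 * g36 - 3130143408 * g16 * g33 + 1261479334 * g14 * g35 + 1633176980 * g15 * g34 -
    50068 * d1345 - 3253532658 * g14 * g36 - 3295995846 * g16 * g34 - 82398 * d1346 - 3253372164 * g15 * g36 + 6549827322 * g16 * g35 - 86184 * d1356 +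
    4080077286 * g11 * g44 - 4080077286 * g14 * g14 + 321324908 * g11 * g45 - 321324908 * g14 * g15 - 3130021968 * g11 * g46 + 3130021968 * g14 * g16 -
    146777796 * g12 * g44 + 146777796 * g14 * g24 - 996698766 * g12 * g45 - 3296438760 * g12 * g46 - 1633717132 * g13 * g44 + 1633717132 * g14 * g34 -
    2894656314 * g13 * g45 + 6549528504 * g13 * g46 + 3570374920 * g14 * g45 - 3570374920 * g15 * g44 + 3130159942 * g14 * g46 - 3130159942 * g16 * g44 +
    1261443930 * g15 * g46 - 2894905476 * g16 * g45 - 30342 * d1456 + 4080104330 * g11 * g55 - 4080104330 * g15 * g15 - 146885322 * g11 * g56 + 146885322 * g15 * g16 +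
    321173692 * g12 * g55 - 321173692 * g15 * g25 - 997319672 * g12 * g56 - 3130351582 * g13 * g55 + 3130351582 * g15 * g35 - 3296455158 * g13 * g56 -
    3570405272 * g14 * g55 + 3570405272 * g15 * g45 + 1633461546 * g14 * g56 + 1633779044 * g15 * g56 - 1633779044 * g16 * g55 + 2220750615 * g11 * g66 -
    2220750615 * g16 * g16 - 146935986 * g12 * g66 + 146935986 * g16 * g26 - 3130039164 * g13 * g66 + 3130039164 * g16 * g36 - 1509787074 * g14 * g66 +
    1509787074 * g16 * g46 + 1799910600 * g15 * g66 - 1799910600 * g16 * g56 + 6163804395 * g22 * g33 - 6163804395 * g23 * g23 - 1454527326 * g22 * g34 +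
    1454527326 * g23 * g24 - 1633667246 * g22 * g35 + 1633667246 * g23 * g25 - 3570464074 * g22 * g36 + 3570464074 * g23 * g26 + 7468736696 * g23 * g34 -
    7468736696 * g24 * g33 - 1800041238 * g23 * g35 + 1800041238 * g25 * g33 + 3570269174 * g23 * g36 - 3570269174 * g26 * g33 + 4752669452 * g24 * g35 -
    7872672824 * g25 * g34 - 20000043386 * d2345 + 1261455636 * g24 * g36 + 1633010602 * g26 * g34 - 12616 * d2346 + 4484145652 * g25 * g36 - 3487373036 * g26 * g35 -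
    20000091576 * d2356 + 2220835999 * g22 * g44 - 2220835999 * g24 * g24 - 146842982 * g22 * g45 + 146842982 * g24 * g25 - 3130380902 * g22 * g46 + 3130380902 * g24 * g26 -
    1454599132 * g23 * g44 + 1454599132 * g24 * g34 + 3120003372 * g23 * g45 - 2894466238 * g23 * g46 - 1799825206 * g24 * g45 + 1799825206 * g25 * g44 +
    1509918246 * g24 * g46 - 1509918246 * g26 * g44 + 1261536056 * g25 * g46 + 1632843100 * g26 * g45 + 62584 * d2456 + 4079939290 * g22 * g55 - 4079939290 * g25 * g25 +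
    321035724 * g22 * g56 - 321035724 * g25 * g26 - 146952048 * g23 * g55 + 146952048 * g25 * g35 - 996772616 * g23 * g56 - 1633755136 * g24 * g55 + 1633755136 * g25 * g45 -
    2894379156 * g24 * g56 + 3570320774 * g25 * g56 - 3570320774 * g26 * g55 + 4080085938 * g22 * g66 - 4080085938 * g26 * g26 + 321266918 * g23 * g66 -
    321266918 * g26 * g36 - 3130279902 * g24 * g66 + 3130279902 * g26 * g46 - 3570422364 * g25 * g66 + 3570422364 * g26 * g56 + 6163839547 * g33 * g44 -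
    6163839547 * g34 * g34 - 1454709794 * g33 * g45 + 1454709794 * g34 * g35 - 1633782912 * g33 * g46 + 1633782912 * g34 * g36 + 7468696910 * g34 * g45 -
    7468696910 * g35 * g44 - 1799842884 * g34 * g46 + 1799842884 * g36 * g44 + 4752609964 * g35 * g46 - 7872735810 * g36 * g45 - 20000056982 * d3456 +
    2220831074 * g33 * g55 - 2220831074 * g35 * g35 - 146774994 * g33 * g56 + 146774994 * g35 * g36 - 1454651472 * g34 * g55 + 1454651472 * g35 * g45 +
    3120125846 * g34 * g56 - 1800064492 * g35 * g56 + 1800064492 * g36 * g55 + 4080052498 * g33 * g66 - 4080052498 * g36 * g36 - 147075666 * g34 * g66 +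
    147075666 * g36 * g46 - 1633772564 * g35 * g66 + 1633772564 * g36 * g56 + 6163807254 * g44 * g55 - 6163807254 * g45 * g45 - 1454719508 * g44 * g56 +
    1454719508 * g45 * g46 + 7468696482 * g45 * g56 - 7468696482 * g46 * g55 + 2220802378 * g44 * g66 - 2220802378 * g46 * g46 - 1454505220 * g45 * g66 +
    1454505220 * g46 * g56 + 6163761398 * g55 * g66 - 6163761398 * g56 * g56 := by
  have h1 := bm x12 x13 x14 x15 x16 x23 x24 x25 x26 x34 x35 x36 x45 x46 x56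
  have h2 := bm y12 y13 y14 y15 y16 y23 y24 y25 y26 y34 y35 y36 y45 y46 y56
  have h3 := bm z12 z13 z14 z15 z16 z23 z24 z25 z26 z34 z35 z36 z45 z46 z56
  linear_combination h1 + h2 + h3 +
    (6163820100) * k12_12 + (-1454476260) * k12_13 + (-1633793100) * k12_14 + (-3570477780) * k12_15 + (1799920260) * k12_16 + (7468656300) * k12_23 +
    (-1799920260) * k12_24 + (3570320760) * k12_25 + (1633793100) * k12_26 + (10875205200) * k12_34 + (-123888780) * k12_35 + (1385387460) * k12_36 + (9323847600) * k12_45 +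
    (-3267743220) * k12_46 + (9323847600) * k12_56 + (2220779797) * k13_13 + (-147114336) * k13_14 + (-3130289032) * k13_15 + (-1509791126) * k13_16 +
    (-1454725592) * k13_23 + (-3002355446) * k13_24 + (-1509131182) * k13_25 + (1509401908) * k13_26 + (-1799835420) * k13_34 + (1509914388) * k13_35 +
    (3130143408) * k13_36 + (-123882526) * k13_45 + (14181862) * k13_46 + (-3267704434) * k13_56 + (4080077286) * k14_14 + (321324908) * k14_15 + (-3130021968) * k14_16 +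
    (6122582886) * k14_23 + (-146777796) * k14_24 + (-5836414892) * k14_25 + (-3282122334) * k14_26 + (-1633717132) * k14_34 + (-1509294454) * k14_35 +
    (3281813984) * k14_36 + (3570374920) * k14_45 + (3130159942) * k14_46 + (1385459916) * k14_56 + (4080104330) * k15_15 + (-146885322) * k15_16 + (-1385248922) * k15_23 +
    (4839716126) * k15_24 + (321173692) * k15_25 + (-5836756250) * k15_26 + (-1385361860) * k15_34 + (-3130351582) * k15_35 + (-3282122888) * k15_36 +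
    (-3570405272) * k15_45 + (1509445560) * k15_46 + (1633779044) * k15_56 + (2220750615) * k16_16 + (124043882) * k16_23 + (-14316426) * k16_24 + (4839436578) * k16_25 +
    (-146935986) * k16_26 + (3267714520) * k16_34 + (-14332270) * k16_35 + (-3130039164) * k16_36 + (124015986) * k16_45 + (-1509787074) * k16_46 + (1799910600) * k16_56 +
    (6163804395) * k23_23 + (-1454527326) * k23_24 + (-1633667246) * k23_25 + (-3570464074) * k23_26 + (7468736696) * k23_34 + (-1800041238) * k23_35 +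
    (3570269174) * k23_36 + (10875128554) * k23_45 + (-123847450) * k23_46 + (9323870088) * k23_56 + (2220835999) * k24_24 + (-146842982) * k24_25 + (-3130380902) * k24_26 +
    (-1454599132) * k24_34 + (-3002455730) * k24_35 + (-1509163152) * k24_36 + (-1799825206) * k24_45 + (1509918246) * k24_46 + (-123789876) * k24_56 +
    (4079939290) * k25_25 + (321035724) * k25_26 + (6122459102) * k25_34 + (-146952048) * k25_35 + (-5836497052) * k25_36 + (-1633755136) * k25_45 + (-1509053224) * k25_46 +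
    (3570320774) * k25_56 + (4080085938) * k26_26 + (-1385303086) * k26_34 + (4839724436) * k26_35 + (321266918) * k26_36 + (-1385325932) * k26_45 + (-3130279902) * k26_46 +
    (-3570422364) * k26_56 + (6163839547) * k34_34 + (-1454709794) * k34_35 + (-1633782912) * k34_36 + (7468696910) * k34_45 + (-1799842884) * k34_46 +
    (10875134252) * k34_56 + (2220831074) * k35_35 + (-146774994) * k35_36 + (-1454651472) * k35_45 + (-3002398442) * k35_46 + (-1800064492) * k35_56 +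
    (4080052498) * k36_36 + (6122524288) * k36_45 + (-147075666) * k36_46 + (-1633772564) * k36_56 + (6163807254) * k45_45 + (-1454719508) * k45_46 + (7468696482) * k45_56 +
    (2220802378) * k46_46 + (-1454505220) * k46_56 + (6163761398) * k56_56

noncomputable def b1 (a b : E 4) : ℝ := (a 0 * b 1 - a 1 * b 0) - (a 2 * b 3 - a 3 * b 2)
noncomputable def b2 (a b : E 4) : ℝ := (a 0 * b 2 - a 2 * b 0) + (a 1 * b 3 - a 3 * b 1)
noncomputable def b3 (a b : E 4) : ℝ := (a 0 * b 3 - a 3 * b 0) - (a 1 * b 2 - a 2 * b 1)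

theorem inn (a b : E 4) : inner ℝ a b = a 0 * b 0 + a 1 * b 1 + a 2 * b 2 + a 3 * b 3 := by
  simp [PiLp.inner_apply, Fin.sum_univ_four]; ring

theorem dte (u v w z : E 4) : dt u v w z =
    (u 0 * v 1 - u 1 * v 0) * (w 2 * z 3 - w 3 * z 2) - (u 0 * v 2 - u 2 * v 0) * (w 1 * z 3 - w 3 * z 1) +
    (u 0 * v 3 - u 3 * v 0) * (w 1 * z 2 - w 2 * z 1) + (u 1 * v 2 - u 2 * v 1) * (w 0 * z 3 - w 3 * z 0) -
    (u 1 * v 3 - u 3 * v 1) * (w 0 * z 2 - w 2 * z 0) + (u 2 * v 3 - u 3 * v 2) * (w 0 * z 1 - w 1 * z 0) := by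
  simp [dt, Matrix.det_succ_row_zero, Fin.sum_univ_succ, Fin.succAbove]; ring

theorem kA (a b : E 4) : b1 a b * b1 a b + b2 a b * b2 a b + b3 a b * b3 a b =
    inner ℝ a a * inner ℝ b b - inner ℝ a b * inner ℝ a b := by simp only [inn, b1, b2, b3]; ring
theorem kB (a b d : E 4) : b1 a b * b1 a d + b2 a b * b2 a d + b3 a b * b3 a d =
    inner ℝ a a * inner ℝ b d - inner ℝ a d * inner ℝ a b := by simp only [inn, b1, b2, b3]; ring
theorem kC (a b d : E 4) : b1 a b * b1 b d + b2 a b * b2 b d + b3 a b * b3 b d =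
    inner ℝ a b * inner ℝ b d - inner ℝ a d * inner ℝ b b := by simp only [inn, b1, b2, b3]; ring
theorem kD (a c b : E 4) : b1 a b * b1 c b + b2 a b * b2 c b + b3 a b * b3 c b =
    inner ℝ a c * inner ℝ b b - inner ℝ a b * inner ℝ c b := by simp only [inn, b1, b2, b3]; ring
theorem kE (a b c d : E 4) : b1 a b * b1 c d + b2 a b * b2 c d + b3 a b * b3 c d =
    inner ℝ a c * inner ℝ b d - inner ℝ a d * inner ℝ b c - dt a b c d := by simp only [inn, dte, b1, b2, b3]; ring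
theorem kF (a c b d : E 4) : b1 a b * b1 c d + b2 a b * b2 c d + b3 a b * b3 c d =
    inner ℝ a c * inner ℝ b d - inner ℝ a d * inner ℝ c b + dt a c b d := by simp only [inn, dte, b1, b2, b3]; ring
theorem kG (a c d b : E 4) : b1 a b * b1 c d + b2 a b * b2 c d + b3 a b * b3 c d =
    inner ℝ a c * inner ℝ d b - inner ℝ a d * inner ℝ c b - dt a c d b := by simp only [inn, dte, b1, b2, b3]; ring

theorem bG (u1 u2 u3 u4 u5 u6 : E 4) : 0 ≤
    6163820100 * inner ℝ u1 u1 * inner ℝ u2 u2 - 6163820100 * inner ℝ u1 u2 * inner ℝ u1 u2 - 1454476260 * inner ℝ u1 u1 * inner ℝ u2 u3 + 1454476260 * inner ℝ u1 u2 * inner ℝ u1 u3 -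
    1633793100 * inner ℝ u1 u1 * inner ℝ u2 u4 + 1633793100 * inner ℝ u1 u2 * inner ℝ u1 u4 - 3570477780 * inner ℝ u1 u1 * inner ℝ u2 u5 + 3570477780 * inner ℝ u1 u2 * inner ℝ u1 u5 +
    1799920260 * inner ℝ u1 u1 * inner ℝ u2 u6 - 1799920260 * inner ℝ u1 u2 * inner ℝ u1 u6 + 7468656300 * inner ℝ u1 u2 * inner ℝ u2 u3 - 7468656300 * inner ℝ u1 u3 * inner ℝ u2 u2 -
    1799920260 * inner ℝ u1 u2 * inner ℝ u2 u4 + 1799920260 * inner ℝ u1 u4 * inner ℝ u2 u2 + 3570320760 * inner ℝ u1 u2 * inner ℝ u2 u5 - 3570320760 * inner ℝ u1 u5 * inner ℝ u2 u2 +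
    1633793100 * inner ℝ u1 u2 * inner ℝ u2 u6 - 1633793100 * inner ℝ u1 u6 * inner ℝ u2 u2 + 4752622314 * inner ℝ u1 u3 * inner ℝ u2 u4 - 7872849754 * inner ℝ u1 u4 * inner ℝ u2 u3 -
    20000143532 * dt u1 u2 u3 u4 + 1261360142 * inner ℝ u1 u3 * inner ℝ u2 u5 + 1633019962 * inner ℝ u1 u5 * inner ℝ u2 u3 + 6520 * dt u1 u2 u3 u5 + 1261343578 * inner ℝ u1 u3 * inner ℝ u2 u6 -
    2894789368 * inner ℝ u1 u6 * inner ℝ u2 u3 - 29434 * dt u1 u2 u3 u6 + 4484131474 * inner ℝ u1 u4 * inner ℝ u2 u5 - 3487432708 * inner ℝ u1 u5 * inner ℝ u2 u4 -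
    19999978618 * dt u1 u2 u4 u5 - 3253426794 * inner ℝ u1 u4 * inner ℝ u2 u6 + 6549865554 * inner ℝ u1 u6 * inner ℝ u2 u4 - 62688 * dt u1 u2 u4 u6 + 4484411022 * inner ℝ u1 u5 * inner ℝ u2 u6 -
    3487091350 * inner ℝ u1 u6 * inner ℝ u2 u5 - 20000040428 * dt u1 u2 u5 u6 + 2220779797 * inner ℝ u1 u1 * inner ℝ u3 u3 - 2220779797 * inner ℝ u1 u3 * inner ℝ u1 u3 -
    147114336 * inner ℝ u1 u1 * inner ℝ u3 u4 + 147114336 * inner ℝ u1 u3 * inner ℝ u1 u4 - 3130289032 * inner ℝ u1 u1 * inner ℝ u3 u5 + 3130289032 * inner ℝ u1 u3 * inner ℝ u1 u5 -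
    1509791126 * inner ℝ u1 u1 * inner ℝ u3 u6 + 1509791126 * inner ℝ u1 u3 * inner ℝ u1 u6 - 1454725592 * inner ℝ u1 u2 * inner ℝ u3 u3 + 1454725592 * inner ℝ u1 u3 * inner ℝ u2 u3 +
    3120227440 * inner ℝ u1 u2 * inner ℝ u3 u4 - 2894380104 * inner ℝ u1 u2 * inner ℝ u3 u5 + 1633445790 * inner ℝ u1 u2 * inner ℝ u3 u6 - 1799835420 * inner ℝ u1 u3 * inner ℝ u3 u4 +
    1799835420 * inner ℝ u1 u4 * inner ℝ u3 u3 + 1509914388 * inner ℝ u1 u3 * inner ℝ u3 u5 - 1509914388 * inner ℝ u1 u5 * inner ℝ u3 u3 + 3130143408 * inner ℝ u1 u3 * inner ℝ u3 u6 -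
    3130143408 * inner ℝ u1 u6 * inner ℝ u3 u3 + 1261479334 * inner ℝ u1 u4 * inner ℝ u3 u5 + 1633176980 * inner ℝ u1 u5 * inner ℝ u3 u4 - 50068 * dt u1 u3 u4 u5 -
    3253532658 * inner ℝ u1 u4 * inner ℝ u3 u6 - 3295995846 * inner ℝ u1 u6 * inner ℝ u3 u4 - 82398 * dt u1 u3 u4 u6 - 3253372164 * inner ℝ u1 u5 * inner ℝ u3 u6 +
    6549827322 * inner ℝ u1 u6 * inner ℝ u3 u5 - 86184 * dt u1 u3 u5 u6 + 4080077286 * inner ℝ u1 u1 * inner ℝ u4 u4 - 4080077286 * inner ℝ u1 u4 * inner ℝ u1 u4 +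
    321324908 * inner ℝ u1 u1 * inner ℝ u4 u5 - 321324908 * inner ℝ u1 u4 * inner ℝ u1 u5 - 3130021968 * inner ℝ u1 u1 * inner ℝ u4 u6 + 3130021968 * inner ℝ u1 u4 * inner ℝ u1 u6 -
    146777796 * inner ℝ u1 u2 * inner ℝ u4 u4 + 146777796 * inner ℝ u1 u4 * inner ℝ u2 u4 - 996698766 * inner ℝ u1 u2 * inner ℝ u4 u5 - 3296438760 * inner ℝ u1 u2 * inner ℝ u4 u6 -
    1633717132 * inner ℝ u1 u3 * inner ℝ u4 u4 + 1633717132 * inner ℝ u1 u4 * inner ℝ u3 u4 - 2894656314 * inner ℝ u1 u3 * inner ℝ u4 u5 + 6549528504 * inner ℝ u1 u3 * inner ℝ u4 u6 +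
    3570374920 * inner ℝ u1 u4 * inner ℝ u4 u5 - 3570374920 * inner ℝ u1 u5 * inner ℝ u4 u4 + 3130159942 * inner ℝ u1 u4 * inner ℝ u4 u6 - 3130159942 * inner ℝ u1 u6 * inner ℝ u4 u4 +
    1261443930 * inner ℝ u1 u5 * inner ℝ u4 u6 - 2894905476 * inner ℝ u1 u6 * inner ℝ u4 u5 - 30342 * dt u1 u4 u5 u6 + 4080104330 * inner ℝ u1 u1 * inner ℝ u5 u5 -
    4080104330 * inner ℝ u1 u5 * inner ℝ u1 u5 - 146885322 * inner ℝ u1 u1 * inner ℝ u5 u6 + 146885322 * inner ℝ u1 u5 * inner ℝ u1 u6 + 321173692 * inner ℝ u1 u2 * inner ℝ u5 u5 -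
    321173692 * inner ℝ u1 u5 * inner ℝ u2 u5 - 997319672 * inner ℝ u1 u2 * inner ℝ u5 u6 - 3130351582 * inner ℝ u1 u3 * inner ℝ u5 u5 + 3130351582 * inner ℝ u1 u5 * inner ℝ u3 u5 -
    3296455158 * inner ℝ u1 u3 * inner ℝ u5 u6 - 3570405272 * inner ℝ u1 u4 * inner ℝ u5 u5 + 3570405272 * inner ℝ u1 u5 * inner ℝ u4 u5 + 1633461546 * inner ℝ u1 u4 * inner ℝ u5 u6 +
    1633779044 * inner ℝ u1 u5 * inner ℝ u5 u6 - 1633779044 * inner ℝ u1 u6 * inner ℝ u5 u5 + 2220750615 * inner ℝ u1 u1 * inner ℝ u6 u6 - 2220750615 * inner ℝ u1 u6 * inner ℝ u1 u6 -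
    146935986 * inner ℝ u1 u2 * inner ℝ u6 u6 + 146935986 * inner ℝ u1 u6 * inner ℝ u2 u6 - 3130039164 * inner ℝ u1 u3 * inner ℝ u6 u6 + 3130039164 * inner ℝ u1 u6 * inner ℝ u3 u6 -
    1509787074 * inner ℝ u1 u4 * inner ℝ u6 u6 + 1509787074 * inner ℝ u1 u6 * inner ℝ u4 u6 + 1799910600 * inner ℝ u1 u5 * inner ℝ u6 u6 - 1799910600 * inner ℝ u1 u6 * inner ℝ u5 u6 +
    6163804395 * inner ℝ u2 u2 * inner ℝ u3 u3 - 6163804395 * inner ℝ u2 u3 * inner ℝ u2 u3 - 1454527326 * inner ℝ u2 u2 * inner ℝ u3 u4 + 1454527326 * inner ℝ u2 u3 * inner ℝ u2 u4 -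
    1633667246 * inner ℝ u2 u2 * inner ℝ u3 u5 + 1633667246 * inner ℝ u2 u3 * inner ℝ u2 u5 - 3570464074 * inner ℝ u2 u2 * inner ℝ u3 u6 + 3570464074 * inner ℝ u2 u3 * inner ℝ u2 u6 +
    7468736696 * inner ℝ u2 u3 * inner ℝ u3 u4 - 7468736696 * inner ℝ u2 u4 * inner ℝ u3 u3 - 1800041238 * inner ℝ u2 u3 * inner ℝ u3 u5 + 1800041238 * inner ℝ u2 u5 * inner ℝ u3 u3 +
    3570269174 * inner ℝ u2 u3 * inner ℝ u3 u6 - 3570269174 * inner ℝ u2 u6 * inner ℝ u3 u3 + 4752669452 * inner ℝ u2 u4 * inner ℝ u3 u5 - 7872672824 * inner ℝ u2 u5 * inner ℝ u3 u4 -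
    20000043386 * dt u2 u3 u4 u5 + 1261455636 * inner ℝ u2 u4 * inner ℝ u3 u6 + 1633010602 * inner ℝ u2 u6 * inner ℝ u3 u4 - 12616 * dt u2 u3 u4 u6 + 4484145652 * inner ℝ u2 u5 * inner ℝ u3 u6 -
    3487373036 * inner ℝ u2 u6 * inner ℝ u3 u5 - 20000091576 * dt u2 u3 u5 u6 + 2220835999 * inner ℝ u2 u2 * inner ℝ u4 u4 - 2220835999 * inner ℝ u2 u4 * inner ℝ u2 u4 -
    146842982 * inner ℝ u2 u2 * inner ℝ u4 u5 + 146842982 * inner ℝ u2 u4 * inner ℝ u2 u5 - 3130380902 * inner ℝ u2 u2 * inner ℝ u4 u6 + 3130380902 * inner ℝ u2 u4 * inner ℝ u2 u6 -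
    1454599132 * inner ℝ u2 u3 * inner ℝ u4 u4 + 1454599132 * inner ℝ u2 u4 * inner ℝ u3 u4 + 3120003372 * inner ℝ u2 u3 * inner ℝ u4 u5 - 2894466238 * inner ℝ u2 u3 * inner ℝ u4 u6 -
    1799825206 * inner ℝ u2 u4 * inner ℝ u4 u5 + 1799825206 * inner ℝ u2 u5 * inner ℝ u4 u4 + 1509918246 * inner ℝ u2 u4 * inner ℝ u4 u6 - 1509918246 * inner ℝ u2 u6 * inner ℝ u4 u4 +
    1261536056 * inner ℝ u2 u5 * inner ℝ u4 u6 + 1632843100 * inner ℝ u2 u6 * inner ℝ u4 u5 + 62584 * dt u2 u4 u5 u6 + 4079939290 * inner ℝ u2 u2 * inner ℝ u5 u5 -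
    4079939290 * inner ℝ u2 u5 * inner ℝ u2 u5 + 321035724 * inner ℝ u2 u2 * inner ℝ u5 u6 - 321035724 * inner ℝ u2 u5 * inner ℝ u2 u6 - 146952048 * inner ℝ u2 u3 * inner ℝ u5 u5 +
    146952048 * inner ℝ u2 u5 * inner ℝ u3 u5 - 996772616 * inner ℝ u2 u3 * inner ℝ u5 u6 - 1633755136 * inner ℝ u2 u4 * inner ℝ u5 u5 + 1633755136 * inner ℝ u2 u5 * inner ℝ u4 u5 -
    2894379156 * inner ℝ u2 u4 * inner ℝ u5 u6 + 3570320774 * inner ℝ u2 u5 * inner ℝ u5 u6 - 3570320774 * inner ℝ u2 u6 * inner ℝ u5 u5 + 4080085938 * inner ℝ u2 u2 * inner ℝ u6 u6 -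
    4080085938 * inner ℝ u2 u6 * inner ℝ u2 u6 + 321266918 * inner ℝ u2 u3 * inner ℝ u6 u6 - 321266918 * inner ℝ u2 u6 * inner ℝ u3 u6 - 3130279902 * inner ℝ u2 u4 * inner ℝ u6 u6 +
    3130279902 * inner ℝ u2 u6 * inner ℝ u4 u6 - 3570422364 * inner ℝ u2 u5 * inner ℝ u6 u6 + 3570422364 * inner ℝ u2 u6 * inner ℝ u5 u6 + 6163839547 * inner ℝ u3 u3 * inner ℝ u4 u4 -
    6163839547 * inner ℝ u3 u4 * inner ℝ u3 u4 - 1454709794 * inner ℝ u3 u3 * inner ℝ u4 u5 + 1454709794 * inner ℝ u3 u4 * inner ℝ u3 u5 - 1633782912 * inner ℝ u3 u3 * inner ℝ u4 u6 +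
    1633782912 * inner ℝ u3 u4 * inner ℝ u3 u6 + 7468696910 * inner ℝ u3 u4 * inner ℝ u4 u5 - 7468696910 * inner ℝ u3 u5 * inner ℝ u4 u4 - 1799842884 * inner ℝ u3 u4 * inner ℝ u4 u6 +
    1799842884 * inner ℝ u3 u6 * inner ℝ u4 u4 + 4752609964 * inner ℝ u3 u5 * inner ℝ u4 u6 - 7872735810 * inner ℝ u3 u6 * inner ℝ u4 u5 - 20000056982 * dt u3 u4 u5 u6 +
    2220831074 * inner ℝ u3 u3 * inner ℝ u5 u5 - 2220831074 * inner ℝ u3 u5 * inner ℝ u3 u5 - 146774994 * inner ℝ u3 u3 * inner ℝ u5 u6 + 146774994 * inner ℝ u3 u5 * inner ℝ u3 u6 -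
    1454651472 * inner ℝ u3 u4 * inner ℝ u5 u5 + 1454651472 * inner ℝ u3 u5 * inner ℝ u4 u5 + 3120125846 * inner ℝ u3 u4 * inner ℝ u5 u6 - 1800064492 * inner ℝ u3 u5 * inner ℝ u5 u6 +
    1800064492 * inner ℝ u3 u6 * inner ℝ u5 u5 + 4080052498 * inner ℝ u3 u3 * inner ℝ u6 u6 - 4080052498 * inner ℝ u3 u6 * inner ℝ u3 u6 - 147075666 * inner ℝ u3 u4 * inner ℝ u6 u6 +
    147075666 * inner ℝ u3 u6 * inner ℝ u4 u6 - 1633772564 * inner ℝ u3 u5 * inner ℝ u6 u6 + 1633772564 * inner ℝ u3 u6 * inner ℝ u5 u6 + 6163807254 * inner ℝ u4 u4 * inner ℝ u5 u5 -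
    6163807254 * inner ℝ u4 u5 * inner ℝ u4 u5 - 1454719508 * inner ℝ u4 u4 * inner ℝ u5 u6 + 1454719508 * inner ℝ u4 u5 * inner ℝ u4 u6 + 7468696482 * inner ℝ u4 u5 * inner ℝ u5 u6 -
    7468696482 * inner ℝ u4 u6 * inner ℝ u5 u5 + 2220802378 * inner ℝ u4 u4 * inner ℝ u6 u6 - 2220802378 * inner ℝ u4 u6 * inner ℝ u4 u6 - 1454505220 * inner ℝ u4 u5 * inner ℝ u6 u6 +
    1454505220 * inner ℝ u4 u6 * inner ℝ u5 u6 + 6163761398 * inner ℝ u5 u5 * inner ℝ u6 u6 - 6163761398 * inner ℝ u5 u6 * inner ℝ u5 u6 :=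
  balg (kA u1 u2) (kB u1 u2 u3) (kB u1 u2 u4) (kB u1 u2 u5) (kB u1 u2 u6) (kC u1 u2 u3) (kC u1 u2 u4) (kC u1 u2 u5) (kC u1 u2 u6) (kE u1 u2 u3 u4) (kE u1 u2 u3 u5) (kE u1 u2 u3 u6) (kE u1 u2 u4 u5) (kE u1 u2 u4 u6) (kE u1 u2 u5 u6) (kA u1 u3) (kB u1 u3 u4) (kB u1 u3 u5) (kB u1 u3 u6) (kD u1 u2 u3) (kF u1 u2 u3 u4) (kF u1 u2 u3 u5) (kF u1 u2 u3 u6) (kC u1 u3 u4) (kC u1 u3 u5) (kC u1 u3 u6) (kE u1 u3 u4 u5) (kE u1 u3 u4 u6) (kE u1 u3 u5 u6) (kA u1 u4) (kB u1 u4 u5) (kB u1 u4 u6) (kG u1 u2 u3 u4) (kD u1 u2 u4) (kF u1 u2 u4 u5) (kF u1 u2 u4 u6) (kD u1 u3 u4) (kF u1 u3 u4 u5) (kF u1 u3 u4 u6) (kC u1 u4 u5) (kC u1 u4 u6) (kE u1 u4 u5 u6) (kA u1 u5) (kB u1 u5 u6) (kG u1 u2 u3 u5) (kG u1 u2 u4 u5) (kD u1 u2 u5) (kF u1 u2 u5 u6) (kG u1 u3 u4 u5) (kD u1 u3 u5) (kF u1 u3 u5 u6) (kD u1 u4 u5) (kF u1 u4 u5 u6) (kC u1 u5 u6) (kA u1 u6) (kG u1 u2 u3 u6) (kG u1 u2 u4 u6) (kG u1 u2 u5 u6) (kD u1 u2 u6) (kG u1 u3 u4 u6) (kG u1 u3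 u5 u6) (kD u1 u3 u6) (kG u1 u4 u5 u6) (kD u1 u4 u6) (kD u1 u5 u6) (kA u2 u3) (kB u2 u3 u4) (kB u2 u3 u5) (kB u2 u3 u6) (kC u2 u3 u4) (kC u2 u3 u5) (kC u2 u3 u6) (kE u2 u3 u4 u5) (kE u2 u3 u4 u6) (kE u2 u3 u5 u6) (kA u2 u4) (kB u2 u4 u5) (kB u2 u4 u6) (kD u2 u3 u4) (kF u2 u3 u4 u5) (kF u2 u3 u4 u6) (kC u2 u4 u5) (kC u2 u4 u6) (kE u2 u4 u5 u6) (kA u2 u5) (kB u2 u5 u6) (kG u2 u3 u4 u5) (kD u2 u3 u5) (kF u2 u3 u5 u6) (kD u2 u4 u5) (kF u2 u4 u5 u6) (kC u2 u5 u6) (kA u2 u6) (kG u2 u3 u4 u6) (kG u2 u3 u5 u6) (kD u2 u3 u6) (kG u2 u4 u5 u6) (kD u2 u4 u6) (kD u2 u5 u6) (kA u3 u4) (kB u3 u4 u5) (kB u3 u4 u6) (kC u3 u4 u5) (kC u3 u4 u6) (kE u3 u4 u5 u6) (kA u3 u5) (kB u3 u5 u6) (kD u3 u4 u5) (kF u3 u4 u5 u6) (kC u3 u5 u6) (kA u3 u6) (kG u3 u4 u5 u6) (kD u3 u4 u6) (kD u3 u5 u6) (kA u4 u5) (kB u4 u5 u6) (kC u4 u5 u6) (kA u4 u6) (kD u4 u5 u6) (kA u5 u6)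

theorem nG (u1 u2 u3 u4 u5 u6 : E 4) (w1 w2 w3 w4 w5 w6 : ℝ) : 0 ≤
    w1 * w1 * inner ℝ u1 u1 + 2 * w1 * w2 * inner ℝ u1 u2 + 2 * w1 * w3 * inner ℝ u1 u3 + 2 * w1 * w4 * inner ℝ u1 u4 + 2 * w1 * w5 * inner ℝ u1 u5 + 2 * w1 * w6 * inner ℝ u1 u6 +
    w2 * w2 * inner ℝ u2 u2 + 2 * w2 * w3 * inner ℝ u2 u3 + 2 * w2 * w4 * inner ℝ u2 u4 + 2 * w2 * w5 * inner ℝ u2 u5 + 2 * w2 * w6 * inner ℝ u2 u6 + w3 * w3 * inner ℝ u3 u3 +
    2 * w3 * w4 * inner ℝ u3 u4 + 2 * w3 * w5 * inner ℝ u3 u5 + 2 * w3 * w6 * inner ℝ u3 u6 + w4 * w4 * inner ℝ u4 u4 + 2 * w4 * w5 * inner ℝ u4 u5 + 2 * w4 * w6 * inner ℝ u4 u6 +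
    w5 * w5 * inner ℝ u5 u5 + 2 * w5 * w6 * inner ℝ u5 u6 + w6 * w6 * inner ℝ u6 u6 := by
  simp only [inn]
  have h : (
    w1 * w1 * (u1 0 * u1 0 + u1 1 * u1 1 + u1 2 * u1 2 + u1 3 * u1 3) + 2 * w1 * w2 * (u1 0 * u2 0 + u1 1 * u2 1 + u1 2 * u2 2 + u1 3 * u2 3) + 2 * w1 * w3 * (u1 0 * u3 0 +
    u1 1 * u3 1 + u1 2 * u3 2 + u1 3 * u3 3) + 2 * w1 * w4 * (u1 0 * u4 0 + u1 1 * u4 1 + u1 2 * u4 2 + u1 3 * u4 3) + 2 * w1 * w5 * (u1 0 * u5 0 + u1 1 * u5 1 +
    u1 2 * u5 2 + u1 3 * u5 3) + 2 * w1 * w6 * (u1 0 * u6 0 + u1 1 * u6 1 + u1 2 * u6 2 + u1 3 * u6 3) + w2 * w2 * (u2 0 * u2 0 + u2 1 * u2 1 + u2 2 * u2 2 +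
    u2 3 * u2 3) + 2 * w2 * w3 * (u2 0 * u3 0 + u2 1 * u3 1 + u2 2 * u3 2 + u2 3 * u3 3) + 2 * w2 * w4 * (u2 0 * u4 0 + u2 1 * u4 1 + u2 2 * u4 2 + u2 3 * u4 3) +
    2 * w2 * w5 * (u2 0 * u5 0 + u2 1 * u5 1 + u2 2 * u5 2 + u2 3 * u5 3) + 2 * w2 * w6 * (u2 0 * u6 0 + u2 1 * u6 1 + u2 2 * u6 2 + u2 3 * u6 3) + w3 * w3 * (u3 0 * u3 0 +
    u3 1 * u3 1 + u3 2 * u3 2 + u3 3 * u3 3) + 2 * w3 * w4 * (u3 0 * u4 0 + u3 1 * u4 1 + u3 2 * u4 2 + u3 3 * u4 3) + 2 * w3 * w5 * (u3 0 * u5 0 + u3 1 * u5 1 +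
    u3 2 * u5 2 + u3 3 * u5 3) + 2 * w3 * w6 * (u3 0 * u6 0 + u3 1 * u6 1 + u3 2 * u6 2 + u3 3 * u6 3) + w4 * w4 * (u4 0 * u4 0 + u4 1 * u4 1 + u4 2 * u4 2 +
    u4 3 * u4 3) + 2 * w4 * w5 * (u4 0 * u5 0 + u4 1 * u5 1 + u4 2 * u5 2 + u4 3 * u5 3) + 2 * w4 * w6 * (u4 0 * u6 0 + u4 1 * u6 1 + u4 2 * u6 2 + u4 3 * u6 3) +
    w5 * w5 * (u5 0 * u5 0 + u5 1 * u5 1 + u5 2 * u5 2 + u5 3 * u5 3) + 2 * w5 * w6 * (u5 0 * u6 0 + u5 1 * u6 1 + u5 2 * u6 2 + u5 3 * u6 3) + w6 * w6 * (u6 0 * u6 0 +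
    u6 1 * u6 1 + u6 2 * u6 2 + u6 3 * u6 3)) =
    (w1 * u1 0 + w2 * u2 0 + w3 * u3 0 + w4 * u4 0 + w5 * u5 0 + w6 * u6 0) ^ 2 + (w1 * u1 1 + w2 * u2 1 + w3 * u3 1 + w4 * u4 1 + w5 * u5 1 + w6 * u6 1) ^ 2 + (w1 * u1 2 + w2 * u2 2 + w3 * u3 2 + w4 * u4 2 + w5 * u5 2 + w6 * u6 2) ^ 2 + (w1 * u1 3 + w2 * u2 3 + w3 * u3 3 + w4 * u4 3 + w5 * u5 3 + w6 * u6 3) ^ 2 := by ring
  rw [h]; positivity

end Pool.Agent.Helper89.Vol4.PkPF
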