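import Pool.Agent.Helper89.Vol4.PF1

/-! # V47 : the packet PF, second part -/

set_option autoImplicit false
set_option maxRecDepth 100000

namespace Pool.Agent.Helper89.Vol4.PkPF

open Pool.Agent.Helper86.Poly

theorem bd {a L r : ℝ} (ha : -1 ≤ a ∧ a ≤ 1) (h1 : -r ≤ L) (h2 : L ≤ r) : -r ≤ a * L := by
  have h : |a * L| ≤ r := by
    rw [abs_mul]
    have h3 : |L| ≤ r := abs_le.2 ⟨h1, h2⟩
    have h4 := abs_nonneg L
    have h5 : |a| ≤ 1 := abs_le.2 ha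
    nlinarith [abs_nonneg a]
  exact (abs_le.1 h).1

theorem eb {g11 g12 g13 g14 g15 g16 g22 g23 g24 g25 g26 g33 g34 g35 g36 g44 g45 g46 g55 g56 g66 d1234 d1235 d1236 d1245 d1246 d1256 d1345 d1346 d1356 d1456 d2345 d2346 d2356 d2456 d3456 : ℝ}
    (ag11 : -1 ≤ g11 ∧ g11 ≤ 1) (ag12 : -1 ≤ g12 ∧ g12 ≤ 1) (ag13 : -1 ≤ g13 ∧ g13 ≤ 1) (ag14 : -1 ≤ g14 ∧ g14 ≤ 1) (ag15 : -1 ≤ g15 ∧ g15 ≤ 1) (ag16 : -1 ≤ g16 ∧ g16 ≤ 1) (ag22 : -1 ≤ g22 ∧ g22 ≤ 1) (ag23 : -1 ≤ g23 ∧ g23 ≤ 1) (ag24 : -1 ≤ g24 ∧ g24 ≤ 1) (ag25 : -1 ≤ g25 ∧ g25 ≤ 1) (ag26 : -1 ≤ g26 ∧ g26 ≤ 1) (ag33 : -1 ≤ g33 ∧ g33 ≤ 1) (ag34 : -1 ≤ g34 ∧ g34 ≤ 1) (ag35 : -1 ≤ g35 ∧ g35 ≤ 1) (ag36 : -1 ≤ g36 ∧ g36 ≤ 1) (ag44 : -1 ≤ g44 ∧ g44 ≤ 1) (ag45 : -1 ≤ g45 ∧ g45 ≤ 1) (ag46 : -1 ≤ g46 ∧ g46 ≤ 1) (ag55 : -1 ≤ g55 ∧ g55 ≤ 1) (ag56 : -1 ≤ g56 ∧ g56 ≤ 1) (ag66 : -1 ≤ g66 ∧ g66 ≤ 1)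
    (ad1234 : -1 ≤ d1234 ∧ d1234 ≤ 1) (ad1235 : -1 ≤ d1235 ∧ d1235 ≤ 1) (ad1236 : -1 ≤ d1236 ∧ d1236 ≤ 1) (ad1245 : -1 ≤ d1245 ∧ d1245 ≤ 1) (ad1246 : -1 ≤ d1246 ∧ d1246 ≤ 1) (ad1256 : -1 ≤ d1256 ∧ d1256 ≤ 1) (ad1345 : -1 ≤ d1345 ∧ d1345 ≤ 1) (ad1346 : -1 ≤ d1346 ∧ d1346 ≤ 1) (ad1356 : -1 ≤ d1356 ∧ d1356 ≤ 1) (ad1456 : -1 ≤ d1456 ∧ d1456 ≤ 1) (ad2345 : -1 ≤ d2345 ∧ d2345 ≤ 1) (ad2346 : -1 ≤ d2346 ∧ d2346 ≤ 1) (ad2356 : -1 ≤ d2356 ∧ d2356 ≤ 1) (ad2456 : -1 ≤ d2456 ∧ d2456 ≤ 1) (ad3456 : -1 ≤ d3456 ∧ d3456 ≤ 1) :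
    -(14766303 : ℝ) ≤
    g11 * (65991 * g11 - 26034 * g12 + 61622 * g13 - 66276 * g14 - 18966 * g15 - 98462 * g16 - 3223 * g22 - 88566 * g23 - 5138 * g24 + 48290 * g25 + 33672 * g26 +
    101497/2 * g33 - 1162 * g34 + 22142 * g35 + 94895 * g36 - 120442 * g44 + 45772 * g45 - 72682 * g46 - 12371 * g55 - 36133 * g56 + 17971/2 * g66 - 70978) +
    g12 * (41410 * g12 - 64906 * g13 + 81614 * g14 + 5586 * g15 + 93618 * g16 - 1814 * g22 + 56150 * g23 + 37710 * g24 - 23084 * g25 + 57826 * g26 - 103730 * g33 +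
    2036 * g34 + 79048 * g35 - 3871 * g36 - 36488 * g44 - 71429 * g45 + 81632 * g46 - 25052 * g55 + 27632 * g56 + 7709 * g66 + 122444) + g13 * (-48047/2 * g13 -
    11312 * g14 + 20728 * g15 + 30543 * g16 + 139664 * g22 + 18436 * g23 - 184037 * g24 + 26821 * g25 - 77113 * g26 + 151832 * g33 - 35994 * g34 - 97814 * g35 -
    79188 * g36 + 194378 * g44 - 34783 * g45 - 76046 * g46 + 153797 * g55 + 46897 * g56 + 112472 * g66 - 339616) + g14 * (65507 * g14 + 36148 * g15 + 57236 * g16 -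
    58904 * g22 + 85169 * g23 + 43206 * g24 - 39197 * g25 - 62315 * g26 - 97938 * g33 - 68542 * g34 + 110979 * g35 + 42277 * g36 - 71118 * g44 - 23018 * g45 +
    13 * g46 - 98652 * g55 - 36375 * g56 - 21127 * g66 + 234634) + g15 * (-44963 * g15 - 20963 * g16 - 14354 * g22 - 66393 * g23 - 56078 * g24 + 12174 * g25 +
    11925 * g26 - 33580 * g33 + 25688 * g34 + 3425 * g35 - 114826 * g36 + 89446 * g44 - 46370 * g45 - 4135 * g46 + 48384 * g55 - 8806 * g56 + 15816 * g66 -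
    143260) + g16 * (22929/2 * g16 - 81178 * g22 + 52056 * g23 - 9959 * g24 + 86251 * g25 + 16713 * g26 + 6676 * g33 + 24183 * g34 - 79879 * g35 - 58380 * g36 +
    28737 * g44 + 58148 * g45 + 72273 * g46 - 52640 * g55 + 86736 * g56 - 30306 * g66 + 164436) + g22 * (-5102 * g22 - 79320 * g23 - 37312 * g24 + 75384 * g25 -
    24188 * g26 + 211553/2 * g33 - 43921 * g34 - 147595 * g35 + 50077 * g36 - 134531/2 * g44 + 86611 * g45 + 6639 * g46 - 61209 * g55 + 113220 * g56 -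
    22777 * g66 - 18934) + g23 * (88097/2 * g23 + 10401 * g24 + 36503 * g25 - 71849 * g26 - 94732 * g33 - 90326 * g34 + 106411 * g35 - 70997 * g36 - 84582 * g44 +
    3086 * g45 + 34655 * g46 - 20706 * g55 + 33880 * g56 - 64961 * g66 + 225662) + g24 * (95859/2 * g24 + 22749 * g25 - 491 * g26 - 53418 * g33 + 65084 * g34 +
    117242 * g35 + 88994 * g36 - 26952 * g44 - 46387 * g45 - 17343 * g46 - 30678 * g55 + 7726 * g56 - 31263 * g66 + 80882) + g25 * (44723 * g25 - 46602 * g26 -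
    24335 * g33 + 17566 * g34 - 39086 * g35 - 9360 * g36 + 140975 * g44 - 73652 * g45 - 49524 * g46 + 20526 * g55 - 4875 * g56 + 35080 * g66 - 166090) +
    g26 * (5490 * g26 + 60375 * g33 + 113509 * g34 + 3168 * g35 - 48189 * g36 + 18881 * g44 - 53350 * g45 + 12359 * g46 + 20651 * g55 + 8282 * g56 - 20948 * g66 -
    67524) + g33 * (12221 * g33 + 111632 * g34 - 41884 * g35 + 34902 * g36 - 206629/2 * g44 + 33131 * g45 - 6854 * g46 - 2363 * g55 + 16525 * g56 - 78618 * g66 -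
    75119) + g34 * (56699/2 * g34 - 30983 * g35 - 8854 * g36 + 85994 * g44 - 4777 * g45 + 4970 * g46 - 44036 * g55 + 18605 * g56 - 1155 * g66 - 89422) +
    g35 * (43159 * g35 + 42727 * g36 - 63909 * g44 + 5432 * g45 - 97414 * g46 - 3218 * g55 - 14570 * g56 + 46548 * g66 + 157958) + g36 * (-47475 * g36 -
    60820 * g44 - 106641 * g45 + 91639 * g46 + 34430 * g55 + 20544 * g56 + 41794 * g66 - 117074) + g44 * (-46372 * g44 + 71272 * g45 + 8098 * g46 - 13611 * g55 +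
    60126 * g56 - 74606 * g66 + 170307) + g45 * (-84610 * g45 + 7818 * g46 + 144672 * g55 - 19755 * g56 + 50310 * g66 - 224908) + g46 * (52711 * g46 +
    19211 * g55 - 75582 * g56 - 96764 * g66 + 166512) + g55 * (-40048 * g55 + 45690 * g56 - 60276 * g66 + 109549) + g56 * (7841 * g56 + 92888 * g66 - 108956) +
    g66 * (-38412 * g66 + 90094) + 71766 * d1234 - 3260 * d1235 + 14717 * d1236 - 10691 * d1245 + 31344 * d1246 + 20214 * d1256 + 25034 * d1345 + 41199 * d1346 +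
    43092 * d1356 + 15171 * d1456 + 21693 * d2345 + 6308 * d2346 + 45788 * d2356 - 31292 * d2456 + 28491 * d3456 := by
  have f0 : -(1052551 : ℝ) ≤ g11 * (
    65991 * g11 - 26034 * g12 + 61622 * g13 - 66276 * g14 - 18966 * g15 - 98462 * g16 - 3223 * g22 - 88566 * g23 - 5138 * g24 + 48290 * g25 + 33672 * g26 +
    101497/2 * g33 - 1162 * g34 + 22142 * g35 + 94895 * g36 - 120442 * g44 + 45772 * g45 - 72682 * g46 - 12371 * g55 - 36133 * g56 + 17971/2 * g66 - 70978) :=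
    bd ag11 (by linarith only [ag11.1, ag11.2, ag12.1, ag12.2, ag13.1, ag13.2, ag14.1, ag14.2, ag15.1, ag15.2, ag16.1, ag16.2, ag22.1, ag22.2, ag23.1, ag23.2, ag24.1, ag24.2, ag25.1, ag25.2, ag26.1, ag26.2, ag33.1, ag33.2, ag34.1, ag34.2, ag35.1, ag35.2, ag36.1, ag36.2, ag44.1, ag44.2, ag45.1, ag45.2, ag46.1, ag46.2, ag55.1, ag55.2, ag56.1, ag56.2, ag66.1, ag66.2])
      (by linarith only [ag11.1, ag11.2, ag12.1, ag12.2, ag13.1, ag13.2, ag14.1, ag14.2, ag15.1, ag15.2, ag16.1, ag16.2, ag22.1, ag22.2, ag23.1, ag23.2, ag24.1, ag24.2, ag25.1, ag25.2, ag26.1, ag26.2, ag33.1, ag33.2, ag34.1, ag34.2, ag35.1, ag35.2, ag36.1, ag36.2, ag44.1, ag44.2, ag45.1, ag45.2, ag46.1, ag46.2, ag55.1, ag55.2, ag56.1, ag56.2, ag66.1, ag66.2])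
  have f1 : -(1024789 : ℝ) ≤ g12 * (
    41410 * g12 - 64906 * g13 + 81614 * g14 + 5586 * g15 + 93618 * g16 - 1814 * g22 + 56150 * g23 + 37710 * g24 - 23084 * g25 + 57826 * g26 - 103730 * g33 +
    2036 * g34 + 79048 * g35 - 3871 * g36 - 36488 * g44 - 71429 * g45 + 81632 * g46 - 25052 * g55 + 27632 * g56 + 7709 * g66 + 122444) :=
    bd ag12 (by linarith only [ag12.1, ag12.2, ag13.1, ag13.2, ag14.1, ag14.2, ag15.1, ag15.2, ag16.1, ag16.2, ag22.1, ag22.2, ag23.1, ag23.2, ag24.1, ag24.2, ag25.1, ag25.2, ag26.1, ag26.2, ag33.1, ag33.2, ag34.1, ag34.2, ag35.1, ag35.2, ag36.1, ag36.2, ag44.1, ag44.2, ag45.1, ag45.2, ag46.1, ag46.2, ag55.1, ag55.2, ag56.1, ag56.2, ag66.1, ag66.2])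
      (by linarith only [ag12.1, ag12.2, ag13.1, ag13.2, ag14.1, ag14.2, ag15.1, ag15.2, ag16.1, ag16.2, ag22.1, ag22.2, ag23.1, ag23.2, ag24.1, ag24.2, ag25.1, ag25.2, ag26.1, ag26.2, ag33.1, ag33.2, ag34.1, ag34.2, ag35.1, ag35.2, ag36.1, ag36.2, ag44.1, ag44.2, ag45.1, ag45.2, ag46.1, ag46.2, ag55.1, ag55.2, ag56.1, ag56.2, ag66.1, ag66.2])
  have f2 : -(1855495 : ℝ) ≤ g13 * (
    -48047/2 * g13 - 11312 * g14 + 20728 * g15 + 30543 * g16 + 139664 * g22 + 18436 * g23 - 184037 * g24 + 26821 * g25 - 77113 * g26 + 151832 * g33 - 35994 * g34 -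
    97814 * g35 - 79188 * g36 + 194378 * g44 - 34783 * g45 - 76046 * g46 + 153797 * g55 + 46897 * g56 + 112472 * g66 - 339616) :=
    bd ag13 (by linarith only [ag13.1, ag13.2, ag14.1, ag14.2, ag15.1, ag15.2, ag16.1, ag16.2, ag22.1, ag22.2, ag23.1, ag23.2, ag24.1, ag24.2, ag25.1, ag25.2, ag26.1, ag26.2, ag33.1, ag33.2, ag34.1, ag34.2, ag35.1, ag35.2, ag36.1, ag36.2, ag44.1, ag44.2, ag45.1, ag45.2, ag46.1, ag46.2, ag55.1, ag55.2, ag56.1, ag56.2, ag66.1, ag66.2])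
      (by linarith only [ag13.1, ag13.2, ag14.1, ag14.2, ag15.1, ag15.2, ag16.1, ag16.2, ag22.1, ag22.2, ag23.1, ag23.2, ag24.1, ag24.2, ag25.1, ag25.2, ag26.1, ag26.2, ag33.1, ag33.2, ag34.1, ag34.2, ag35.1, ag35.2, ag36.1, ag36.2, ag44.1, ag44.2, ag45.1, ag45.2, ag46.1, ag46.2, ag55.1, ag55.2, ag56.1, ag56.2, ag66.1, ag66.2])
  have f3 : -(1252355 : ℝ) ≤ g14 * (
    65507 * g14 + 36148 * g15 + 57236 * g16 - 58904 * g22 + 85169 * g23 + 43206 * g24 - 39197 * g25 - 62315 * g26 - 97938 * g33 - 68542 * g34 + 110979 * g35 +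
    42277 * g36 - 71118 * g44 - 23018 * g45 + 13 * g46 - 98652 * g55 - 36375 * g56 - 21127 * g66 + 234634) :=
    bd ag14 (by linarith only [ag14.1, ag14.2, ag15.1, ag15.2, ag16.1, ag16.2, ag22.1, ag22.2, ag23.1, ag23.2, ag24.1, ag24.2, ag25.1, ag25.2, ag26.1, ag26.2, ag33.1, ag33.2, ag34.1, ag34.2, ag35.1, ag35.2, ag36.1, ag36.2, ag44.1, ag44.2, ag45.1, ag45.2, ag46.1, ag46.2, ag55.1, ag55.2, ag56.1, ag56.2, ag66.1, ag66.2])
      (by linarith only [ag14.1, ag14.2, ag15.1, ag15.2, ag16.1, ag16.2, ag22.1, ag22.2, ag23.1, ag23.2, ag24.1, ag24.2, ag25.1, ag25.2, ag26.1, ag26.2, ag33.1, ag33.2, ag34.1, ag34.2, ag35.1, ag35.2, ag36.1, ag36.2, ag44.1, ag44.2, ag45.1, ag45.2, ag46.1, ag46.2, ag55.1, ag55.2, ag56.1, ag56.2, ag66.1, ag66.2])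
  have f4 : -(760586 : ℝ) ≤ g15 * (
    -44963 * g15 - 20963 * g16 - 14354 * g22 - 66393 * g23 - 56078 * g24 + 12174 * g25 + 11925 * g26 - 33580 * g33 + 25688 * g34 + 3425 * g35 - 114826 * g36 +
    89446 * g44 - 46370 * g45 - 4135 * g46 + 48384 * g55 - 8806 * g56 + 15816 * g66 - 143260) :=
    bd ag15 (by linarith only [ag15.1, ag15.2, ag16.1, ag16.2, ag22.1, ag22.2, ag23.1, ag23.2, ag24.1, ag24.2, ag25.1, ag25.2, ag26.1, ag26.2, ag33.1, ag33.2, ag34.1, ag34.2, ag35.1, ag35.2, ag36.1, ag36.2, ag44.1, ag44.2, ag45.1, ag45.2, ag46.1, ag46.2, ag55.1, ag55.2, ag56.1, ag56.2, ag66.1, ag66.2])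
      (by linarith only [ag15.1, ag15.2, ag16.1, ag16.2, ag22.1, ag22.2, ag23.1, ag23.2, ag24.1, ag24.2, ag25.1, ag25.2, ag26.1, ag26.2, ag33.1, ag33.2, ag34.1, ag34.2, ag35.1, ag35.2, ag36.1, ag36.2, ag44.1, ag44.2, ag45.1, ag45.2, ag46.1, ag46.2, ag55.1, ag55.2, ag56.1, ag56.2, ag66.1, ag66.2])
  have f5 : -(920016 : ℝ) ≤ g16 * (
    22929/2 * g16 - 81178 * g22 + 52056 * g23 - 9959 * g24 + 86251 * g25 + 16713 * g26 + 6676 * g33 + 24183 * g34 - 79879 * g35 - 58380 * g36 + 28737 * g44 +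
    58148 * g45 + 72273 * g46 - 52640 * g55 + 86736 * g56 - 30306 * g66 + 164436) :=
    bd ag16 (by linarith only [ag16.1, ag16.2, ag22.1, ag22.2, ag23.1, ag23.2, ag24.1, ag24.2, ag25.1, ag25.2, ag26.1, ag26.2, ag33.1, ag33.2, ag34.1, ag34.2, ag35.1, ag35.2, ag36.1, ag36.2, ag44.1, ag44.2, ag45.1, ag45.2, ag46.1, ag46.2, ag55.1, ag55.2, ag56.1, ag56.2, ag66.1, ag66.2])
      (by linarith only [ag16.1, ag16.2, ag22.1, ag22.2, ag23.1, ag23.2, ag24.1, ag24.2, ag25.1, ag25.2, ag26.1, ag26.2, ag33.1, ag33.2, ag34.1, ag34.2, ag35.1, ag35.2, ag36.1, ag36.2, ag44.1, ag44.2, ag45.1, ag45.2, ag46.1, ag46.2, ag55.1, ag55.2, ag56.1, ag56.2, ag66.1, ag66.2])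
  have f6 : -(945331 : ℝ) ≤ g22 * (
    -5102 * g22 - 79320 * g23 - 37312 * g24 + 75384 * g25 - 24188 * g26 + 211553/2 * g33 - 43921 * g34 - 147595 * g35 + 50077 * g36 - 134531/2 * g44 +
    86611 * g45 + 6639 * g46 - 61209 * g55 + 113220 * g56 - 22777 * g66 - 18934) :=
    bd ag22 (by linarith only [ag22.1, ag22.2, ag23.1, ag23.2, ag24.1, ag24.2, ag25.1, ag25.2, ag26.1, ag26.2, ag33.1, ag33.2, ag34.1, ag34.2, ag35.1, ag35.2, ag36.1, ag36.2, ag44.1, ag44.2, ag45.1, ag45.2, ag46.1, ag46.2, ag55.1, ag55.2, ag56.1, ag56.2, ag66.1, ag66.2])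
      (by linarith only [ag22.1, ag22.2, ag23.1, ag23.2, ag24.1, ag24.2, ag25.1, ag25.2, ag26.1, ag26.2, ag33.1, ag33.2, ag34.1, ag34.2, ag35.1, ag35.2, ag36.1, ag36.2, ag44.1, ag44.2, ag45.1, ag45.2, ag46.1, ag46.2, ag55.1, ag55.2, ag56.1, ag56.2, ag66.1, ag66.2])
  have f7 : -(992800 : ℝ) ≤ g23 * (
    88097/2 * g23 + 10401 * g24 + 36503 * g25 - 71849 * g26 - 94732 * g33 - 90326 * g34 + 106411 * g35 - 70997 * g36 - 84582 * g44 + 3086 * g45 + 34655 * g46 -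
    20706 * g55 + 33880 * g56 - 64961 * g66 + 225662) :=
    bd ag23 (by linarith only [ag23.1, ag23.2, ag24.1, ag24.2, ag25.1, ag25.2, ag26.1, ag26.2, ag33.1, ag33.2, ag34.1, ag34.2, ag35.1, ag35.2, ag36.1, ag36.2, ag44.1, ag44.2, ag45.1, ag45.2, ag46.1, ag46.2, ag55.1, ag55.2, ag56.1, ag56.2, ag66.1, ag66.2])
      (by linarith only [ag23.1, ag23.2, ag24.1, ag24.2, ag25.1, ag25.2, ag26.1, ag26.2, ag33.1, ag33.2, ag34.1, ag34.2, ag35.1, ag35.2, ag36.1, ag36.2, ag44.1, ag44.2, ag45.1, ag45.2, ag46.1, ag46.2, ag55.1, ag55.2, ag56.1, ag56.2, ag66.1, ag66.2])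
  have f8 : -(637139 : ℝ) ≤ g24 * (
    95859/2 * g24 + 22749 * g25 - 491 * g26 - 53418 * g33 + 65084 * g34 + 117242 * g35 + 88994 * g36 - 26952 * g44 - 46387 * g45 - 17343 * g46 - 30678 * g55 +
    7726 * g56 - 31263 * g66 + 80882) :=
    bd ag24 (by linarith only [ag24.1, ag24.2, ag25.1, ag25.2, ag26.1, ag26.2, ag33.1, ag33.2, ag34.1, ag34.2, ag35.1, ag35.2, ag36.1, ag36.2, ag44.1, ag44.2, ag45.1, ag45.2, ag46.1, ag46.2, ag55.1, ag55.2, ag56.1, ag56.2, ag66.1, ag66.2])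
      (by linarith only [ag24.1, ag24.2, ag25.1, ag25.2, ag26.1, ag26.2, ag33.1, ag33.2, ag34.1, ag34.2, ag35.1, ag35.2, ag36.1, ag36.2, ag44.1, ag44.2, ag45.1, ag45.2, ag46.1, ag46.2, ag55.1, ag55.2, ag56.1, ag56.2, ag66.1, ag66.2])
  have f9 : -(672394 : ℝ) ≤ g25 * (
    44723 * g25 - 46602 * g26 - 24335 * g33 + 17566 * g34 - 39086 * g35 - 9360 * g36 + 140975 * g44 - 73652 * g45 - 49524 * g46 + 20526 * g55 - 4875 * g56 +
    35080 * g66 - 166090) :=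
    bd ag25 (by linarith only [ag25.1, ag25.2, ag26.1, ag26.2, ag33.1, ag33.2, ag34.1, ag34.2, ag35.1, ag35.2, ag36.1, ag36.2, ag44.1, ag44.2, ag45.1, ag45.2, ag46.1, ag46.2, ag55.1, ag55.2, ag56.1, ag56.2, ag66.1, ag66.2])
      (by linarith only [ag25.1, ag25.2, ag26.1, ag26.2, ag33.1, ag33.2, ag34.1, ag34.2, ag35.1, ag35.2, ag36.1, ag36.2, ag44.1, ag44.2, ag45.1, ag45.2, ag46.1, ag46.2, ag55.1, ag55.2, ag56.1, ag56.2, ag66.1, ag66.2])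
  have f10 : -(432726 : ℝ) ≤ g26 * (
    5490 * g26 + 60375 * g33 + 113509 * g34 + 3168 * g35 - 48189 * g36 + 18881 * g44 - 53350 * g45 + 12359 * g46 + 20651 * g55 + 8282 * g56 - 20948 * g66 -
    67524) :=
    bd ag26 (by linarith only [ag26.1, ag26.2, ag33.1, ag33.2, ag34.1, ag34.2, ag35.1, ag35.2, ag36.1, ag36.2, ag44.1, ag44.2, ag45.1, ag45.2, ag46.1, ag46.2, ag55.1, ag55.2, ag56.1, ag56.2, ag66.1, ag66.2])
      (by linarith only [ag26.1, ag26.2, ag33.1, ag33.2, ag34.1, ag34.2, ag35.1, ag35.2, ag36.1, ag36.2, ag44.1, ag44.2, ag45.1, ag45.2, ag46.1, ag46.2, ag55.1, ag55.2, ag56.1, ag56.2, ag66.1, ag66.2])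
  have f11 : -(516564 : ℝ) ≤ g33 * (
    12221 * g33 + 111632 * g34 - 41884 * g35 + 34902 * g36 - 206629/2 * g44 + 33131 * g45 - 6854 * g46 - 2363 * g55 + 16525 * g56 - 78618 * g66 - 75119) :=
    bd ag33 (by linarith only [ag33.1, ag33.2, ag34.1, ag34.2, ag35.1, ag35.2, ag36.1, ag36.2, ag44.1, ag44.2, ag45.1, ag45.2, ag46.1, ag46.2, ag55.1, ag55.2, ag56.1, ag56.2, ag66.1, ag66.2])
      (by linarith only [ag33.1, ag33.2, ag34.1, ag34.2, ag35.1, ag35.2, ag36.1, ag36.2, ag44.1, ag44.2, ag45.1, ag45.2, ag46.1, ag46.2, ag55.1, ag55.2, ag56.1, ag56.2, ag66.1, ag66.2])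
  have f12 : -(317146 : ℝ) ≤ g34 * (
    56699/2 * g34 - 30983 * g35 - 8854 * g36 + 85994 * g44 - 4777 * g45 + 4970 * g46 - 44036 * g55 + 18605 * g56 - 1155 * g66 - 89422) :=
    bd ag34 (by linarith only [ag34.1, ag34.2, ag35.1, ag35.2, ag36.1, ag36.2, ag44.1, ag44.2, ag45.1, ag45.2, ag46.1, ag46.2, ag55.1, ag55.2, ag56.1, ag56.2, ag66.1, ag66.2])
      (by linarith only [ag34.1, ag34.2, ag35.1, ag35.2, ag36.1, ag36.2, ag44.1, ag44.2, ag45.1, ag45.2, ag46.1, ag46.2, ag55.1, ag55.2, ag56.1, ag56.2, ag66.1, ag66.2])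
  have f13 : -(474935 : ℝ) ≤ g35 * (
    43159 * g35 + 42727 * g36 - 63909 * g44 + 5432 * g45 - 97414 * g46 - 3218 * g55 - 14570 * g56 + 46548 * g66 + 157958) :=
    bd ag35 (by linarith only [ag35.1, ag35.2, ag36.1, ag36.2, ag44.1, ag44.2, ag45.1, ag45.2, ag46.1, ag46.2, ag55.1, ag55.2, ag56.1, ag56.2, ag66.1, ag66.2])
      (by linarith only [ag35.1, ag35.2, ag36.1, ag36.2, ag44.1, ag44.2, ag45.1, ag45.2, ag46.1, ag46.2, ag55.1, ag55.2, ag56.1, ag56.2, ag66.1, ag66.2])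
  have f14 : -(520417 : ℝ) ≤ g36 * (
    -47475 * g36 - 60820 * g44 - 106641 * g45 + 91639 * g46 + 34430 * g55 + 20544 * g56 + 41794 * g66 - 117074) :=
    bd ag36 (by linarith only [ag36.1, ag36.2, ag44.1, ag44.2, ag45.1, ag45.2, ag46.1, ag46.2, ag55.1, ag55.2, ag56.1, ag56.2, ag66.1, ag66.2])
      (by linarith only [ag36.1, ag36.2, ag44.1, ag44.2, ag45.1, ag45.2, ag46.1, ag46.2, ag55.1, ag55.2, ag56.1, ag56.2, ag66.1, ag66.2])
  have f15 : -(444392 : ℝ) ≤ g44 * (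
    -46372 * g44 + 71272 * g45 + 8098 * g46 - 13611 * g55 + 60126 * g56 - 74606 * g66 + 170307) :=
    bd ag44 (by linarith only [ag44.1, ag44.2, ag45.1, ag45.2, ag46.1, ag46.2, ag55.1, ag55.2, ag56.1, ag56.2, ag66.1, ag66.2])
      (by linarith only [ag44.1, ag44.2, ag45.1, ag45.2, ag46.1, ag46.2, ag55.1, ag55.2, ag56.1, ag56.2, ag66.1, ag66.2])
  have f16 : -(532073 : ℝ) ≤ g45 * (
    -84610 * g45 + 7818 * g46 + 144672 * g55 - 19755 * g56 + 50310 * g66 - 224908) :=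
    bd ag45 (by linarith only [ag45.1, ag45.2, ag46.1, ag46.2, ag55.1, ag55.2, ag56.1, ag56.2, ag66.1, ag66.2])
      (by linarith only [ag45.1, ag45.2, ag46.1, ag46.2, ag55.1, ag55.2, ag56.1, ag56.2, ag66.1, ag66.2])
  have f17 : -(410780 : ℝ) ≤ g46 * (
    52711 * g46 + 19211 * g55 - 75582 * g56 - 96764 * g66 + 166512) :=
    bd ag46 (by linarith only [ag46.1, ag46.2, ag55.1, ag55.2, ag56.1, ag56.2, ag66.1, ag66.2])
      (by linarith only [ag46.1, ag46.2, ag55.1, ag55.2, ag56.1, ag56.2, ag66.1, ag66.2])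
  have f18 : -(255563 : ℝ) ≤ g55 * (
    -40048 * g55 + 45690 * g56 - 60276 * g66 + 109549) :=
    bd ag55 (by linarith only [ag55.1, ag55.2, ag56.1, ag56.2, ag66.1, ag66.2])
      (by linarith only [ag55.1, ag55.2, ag56.1, ag56.2, ag66.1, ag66.2])
  have f19 : -(209685 : ℝ) ≤ g56 * (
    7841 * g56 + 92888 * g66 - 108956) :=
    bd ag56 (by linarith only [ag56.1, ag56.2, ag66.1, ag66.2])
      (by linarith only [ag56.1, ag56.2, ag66.1, ag66.2])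
  have f20 : -(128506 : ℝ) ≤ g66 * (
    -38412 * g66 + 90094) :=
    bd ag66 (by linarith only [ag66.1, ag66.2])
      (by linarith only [ag66.1, ag66.2])
  have fd : -(410060 : ℝ) ≤
    71766 * d1234 - 3260 * d1235 + 14717 * d1236 - 10691 * d1245 + 31344 * d1246 + 20214 * d1256 + 25034 * d1345 + 41199 * d1346 + 43092 * d1356 + 15171 * d1456 +
    21693 * d2345 + 6308 * d2346 + 45788 * d2356 - 31292 * d2456 + 28491 * d3456 := by
    linarith only [ad1234.1, ad1234.2, ad1235.1, ad1235.2, ad1236.1, ad1236.2, ad1245.1, ad1245.2, ad1246.1, ad1246.2, ad1256.1, ad1256.2, ad1345.1, ad1345.2, ad1346.1, ad1346.2, ad1356.1, ad1356.2, ad1456.1, ad1456.2, ad2345.1, ad2345.2, ad2346.1, ad2346.2, ad2356.1, ad2356.2, ad2456.1, ad2456.2, ad3456.1, ad3456.2]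
  linarith only [f0, f1, f2, f3, f4, f5, f6, f7, f8, f9, f10, f11, f12, f13, f14, f15, f16, f17, f18, f19, f20, fd]

theorem sg02 {g11 g12 g13 g14 g15 g16 g22 g23 g24 g25 g26 g33 g34 g35 g36 g44 g45 g46 g55 g56 g66 : ℝ}
    (hN : ∀ w1 w2 w3 w4 w5 w6 : ℝ, 0 ≤
    w1 * w1 * g11 + 2 * w1 * w2 * g12 + 2 * w1 * w3 * g13 + 2 * w1 * w4 * g14 + 2 * w1 * w5 * g15 + 2 * w1 * w6 * g16 + w2 * w2 * g22 + 2 * w2 * w3 * g23 +
    2 * w2 * w4 * g24 + 2 * w2 * w5 * g25 + 2 * w2 * w6 * g26 + w3 * w3 * g33 + 2 * w3 * w4 * g34 + 2 * w3 * w5 * g35 + 2 * w3 * w6 * g36 + w4 * w4 * g44 +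
    2 * w4 * w5 * g45 + 2 * w4 * w6 * g46 + w5 * w5 * g55 + 2 * w5 * w6 * g56 + w6 * w6 * g66) :
    0 ≤ 1070598400 * g11 - 75452320 * g12 - 434717920 * g13 - 560428160 * g14 - 560428160 * g15 - 434717920 * g16 + 208634565 * g22 + 181528710 * g23 - 306037912 * g24 - 377724632 * g25 + 160462598 * g26 + 534605406 * g33 + 560542920 * g34 - 879693912 * g35 - 657354512 * g36 + 692953760 * g44 + 177450704 * g45 - 879708200 * g46 + 692937476 * g55 + 560567952 * g56 + 534618170 * g66 := by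
  linear_combination hN 32720 (-1153) (-6643) (-8564) (-8564) (-6643) + hN 0 (-6544) 8974 24892 618 (-19956) + hN 0 (-7824) (-20185) 0 24884 9473 + hN 0 10162 (-1584) 0 0 1584

theorem sg03 {g11 g12 g13 g14 g15 g16 g22 g23 g24 g25 g26 g33 g34 g35 g36 g44 g45 g46 g55 g56 g66 : ℝ}
    (hN : ∀ w1 w2 w3 w4 w5 w6 : ℝ, 0 ≤
    w1 * w1 * g11 + 2 * w1 * w2 * g12 + 2 * w1 * w3 * g13 + 2 * w1 * w4 * g14 + 2 * w1 * w5 * g15 + 2 * w1 * w6 * g16 + w2 * w2 * g22 + 2 * w2 * w3 * g23 +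
    2 * w2 * w4 * g24 + 2 * w2 * w5 * g25 + 2 * w2 * w6 * g26 + w3 * w3 * g33 + 2 * w3 * w4 * g34 + 2 * w3 * w5 * g35 + 2 * w3 * w6 * g36 + w4 * w4 * g44 +
    2 * w4 * w5 * g45 + 2 * w4 * w6 * g46 + w5 * w5 * g55 + 2 * w5 * w6 * g56 + w6 * w6 * g66) :
    0 ≤ 9765625 * g11 + 19531250 * g12 + 16093750 * g13 - 88825000 * g14 + 106406250 * g15 - 88825000 * g16 + 9765625 * g22 + 16093750 * g23 - 88825000 * g24 + 106406250 * g25 - 88825000 * g26 + 6630625 * g33 - 73191800 * g34 + 87678750 * g35 - 73191800 * g36 + 201980944 * g44 - 483918600 * g45 + 403961888 * g46 + 289850625 * g55 - 483918600 * g56 + 201980944 * g66 := by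
  linear_combination hN 3125 3125 2575 (-14212) 17025 (-14212)

theorem sg04 {g11 g12 g13 g14 g15 g16 g22 g23 g24 g25 g26 g33 g34 g35 g36 g44 g45 g46 g55 g56 g66 : ℝ}
    (hN : ∀ w1 w2 w3 w4 w5 w6 : ℝ, 0 ≤
    w1 * w1 * g11 + 2 * w1 * w2 * g12 + 2 * w1 * w3 * g13 + 2 * w1 * w4 * g14 + 2 * w1 * w5 * g15 + 2 * w1 * w6 * g16 + w2 * w2 * g22 + 2 * w2 * w3 * g23 +
    2 * w2 * w4 * g24 + 2 * w2 * w5 * g25 + 2 * w2 * w6 * g26 + w3 * w3 * g33 + 2 * w3 * w4 * g34 + 2 * w3 * w5 * g35 + 2 * w3 * w6 * g36 + w4 * w4 * g44 +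
    2 * w4 * w5 * g45 + 2 * w4 * w6 * g46 + w5 * w5 * g55 + 2 * w5 * w6 * g56 + w6 * w6 * g66) :
    0 ≤ 201980944 * g11 - 483918600 * g12 + 403961888 * g13 - 73191800 * g14 - 88825000 * g15 - 88825000 * g16 + 289850625 * g22 - 483918600 * g23 + 87678750 * g24 + 106406250 * g25 + 106406250 * g26 + 201980944 * g33 - 73191800 * g34 - 88825000 * g35 - 88825000 * g36 + 6630625 * g44 + 16093750 * g45 + 16093750 * g46 + 9765625 * g55 + 19531250 * g56 + 9765625 * g66 := by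
  linear_combination hN (-14212) 17025 (-14212) 2575 3125 3125

theorem sg05 {g11 g12 g13 g14 g15 g16 g22 g23 g24 g25 g26 g33 g34 g35 g36 g44 g45 g46 g55 g56 g66 : ℝ}
    (hN : ∀ w1 w2 w3 w4 w5 w6 : ℝ, 0 ≤
    w1 * w1 * g11 + 2 * w1 * w2 * g12 + 2 * w1 * w3 * g13 + 2 * w1 * w4 * g14 + 2 * w1 * w5 * g15 + 2 * w1 * w6 * g16 + w2 * w2 * g22 + 2 * w2 * w3 * g23 +
    2 * w2 * w4 * g24 + 2 * w2 * w5 * g25 + 2 * w2 * w6 * g26 + w3 * w3 * g33 + 2 * w3 * w4 * g34 + 2 * w3 * w5 * g35 + 2 * w3 * w6 * g36 + w4 * w4 * g44 +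
    2 * w4 * w5 * g45 + 2 * w4 * w6 * g46 + w5 * w5 * g55 + 2 * w5 * w6 * g56 + w6 * w6 * g66) :
    0 ≤ 534618170 * g11 + 560567952 * g12 - 879708200 * g13 - 657354512 * g14 + 160462598 * g15 - 434717920 * g16 + 692937476 * g22 + 177450704 * g23 - 879693912 * g24 - 377724632 * g25 - 560428160 * g26 + 692953760 * g33 + 560542920 * g34 - 306037912 * g35 - 560428160 * g36 + 534605406 * g44 + 181528710 * g45 - 434717920 * g46 + 208634565 * g55 - 75452320 * g56 + 1070598400 * g66 := by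
  linear_combination hN (-6643) (-8564) (-8564) (-6643) (-1153) 32720 + hN (-19956) 618 24892 8974 (-6544) 0 + hN 9473 24884 0 (-20185) (-7824) 0 + hN 1584 0 0 (-1584) 10162 0

theorem sg13 {g11 g12 g13 g14 g15 g16 g22 g23 g24 g25 g26 g33 g34 g35 g36 g44 g45 g46 g55 g56 g66 : ℝ}
    (hN : ∀ w1 w2 w3 w4 w5 w6 : ℝ, 0 ≤
    w1 * w1 * g11 + 2 * w1 * w2 * g12 + 2 * w1 * w3 * g13 + 2 * w1 * w4 * g14 + 2 * w1 * w5 * g15 + 2 * w1 * w6 * g16 + w2 * w2 * g22 + 2 * w2 * w3 * g23 +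
    2 * w2 * w4 * g24 + 2 * w2 * w5 * g25 + 2 * w2 * w6 * g26 + w3 * w3 * g33 + 2 * w3 * w4 * g34 + 2 * w3 * w5 * g35 + 2 * w3 * w6 * g36 + w4 * w4 * g44 +
    2 * w4 * w5 * g45 + 2 * w4 * w6 * g46 + w5 * w5 * g55 + 2 * w5 * w6 * g56 + w6 * w6 * g66) :
    0 ≤ 208652982 * g11 - 75452320 * g12 - 16516 * g13 + 160450952 * g14 - 377776656 * g15 - 306064110 * g16 + 1070598400 * g22 - 75452320 * g23 - 434652480 * g24 - 560428160 * g25 - 560428160 * g26 + 208647654 * g33 + 181492808 * g34 - 306087696 * g35 - 377738958 * g36 + 534551752 * g44 + 560525792 * g45 - 879643324 * g46 + 692953760 * g55 + 177500488 * g56 + 692938713 * g66 := by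
  linear_combination hN (-1153) 32720 (-1153) (-6642) (-8564) (-8564) + hN (-7985) 0 (-6545) 8974 24892 619 + hN (-6348) 0 (-7824) (-20184) 0 24884 + hN (-10162) 0 10162 (-1584) 0 0

theorem sg14 {g11 g12 g13 g14 g15 g16 g22 g23 g24 g25 g26 g33 g34 g35 g36 g44 g45 g46 g55 g56 g66 : ℝ}
    (hN : ∀ w1 w2 w3 w4 w5 w6 : ℝ, 0 ≤
    w1 * w1 * g11 + 2 * w1 * w2 * g12 + 2 * w1 * w3 * g13 + 2 * w1 * w4 * g14 + 2 * w1 * w5 * g15 + 2 * w1 * w6 * g16 + w2 * w2 * g22 + 2 * w2 * w3 * g23 +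
    2 * w2 * w4 * g24 + 2 * w2 * w5 * g25 + 2 * w2 * w6 * g26 + w3 * w3 * g33 + 2 * w3 * w4 * g34 + 2 * w3 * w5 * g35 + 2 * w3 * w6 * g36 + w4 * w4 * g44 +
    2 * w4 * w5 * g45 + 2 * w4 * w6 * g46 + w5 * w5 * g55 + 2 * w5 * w6 * g56 + w6 * w6 * g66) :
    0 ≤ 6630625 * g11 + 16093750 * g12 + 16093750 * g13 + 13261250 * g14 - 73191800 * g15 + 87678750 * g16 + 9765625 * g22 + 19531250 * g23 + 16093750 * g24 - 88825000 * g25 + 106406250 * g26 + 9765625 * g33 + 16093750 * g34 - 88825000 * g35 + 106406250 * g36 + 6630625 * g44 - 73191800 * g45 + 87678750 * g46 + 201980944 * g55 - 483918600 * g56 + 289850625 * g66 := by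
  linear_combination hN 2575 3125 3125 2575 (-14212) 17025

theorem sg15 {g11 g12 g13 g14 g15 g16 g22 g23 g24 g25 g26 g33 g34 g35 g36 g44 g45 g46 g55 g56 g66 : ℝ}
    (hN : ∀ w1 w2 w3 w4 w5 w6 : ℝ, 0 ≤
    w1 * w1 * g11 + 2 * w1 * w2 * g12 + 2 * w1 * w3 * g13 + 2 * w1 * w4 * g14 + 2 * w1 * w5 * g15 + 2 * w1 * w6 * g16 + w2 * w2 * g22 + 2 * w2 * w3 * g23 +
    2 * w2 * w4 * g24 + 2 * w2 * w5 * g25 + 2 * w2 * w6 * g26 + w3 * w3 * g33 + 2 * w3 * w4 * g34 + 2 * w3 * w5 * g35 + 2 * w3 * w6 * g36 + w4 * w4 * g44 +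
    2 * w4 * w5 * g45 + 2 * w4 * w6 * g46 + w5 * w5 * g55 + 2 * w5 * w6 * g56 + w6 * w6 * g66) :
    0 ≤ 6630625 * g11 - 73191800 * g12 + 87678750 * g13 - 73196950 * g14 + 13261250 * g15 + 16093750 * g16 + 201980944 * g22 - 483918600 * g23 + 403990312 * g24 - 73191800 * g25 - 88825000 * g26 + 289850625 * g33 - 483952650 * g34 + 87678750 * g35 + 106406250 * g36 + 202009369 * g44 - 73196950 * g45 - 88831250 * g46 + 6630625 * g55 + 16093750 * g56 + 9765625 * g66 := by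
  linear_combination hN 2575 (-14212) 17025 (-14213) 2575 3125

theorem sg16 {g11 g12 g13 g14 g15 g16 g22 g23 g24 g25 g26 g33 g34 g35 g36 g44 g45 g46 g55 g56 g66 : ℝ}
    (hN : ∀ w1 w2 w3 w4 w5 w6 : ℝ, 0 ≤
    w1 * w1 * g11 + 2 * w1 * w2 * g12 + 2 * w1 * w3 * g13 + 2 * w1 * w4 * g14 + 2 * w1 * w5 * g15 + 2 * w1 * w6 * g16 + w2 * w2 * g22 + 2 * w2 * w3 * g23 +
    2 * w2 * w4 * g24 + 2 * w2 * w5 * g25 + 2 * w2 * w6 * g26 + w3 * w3 * g33 + 2 * w3 * w4 * g34 + 2 * w3 * w5 * g35 + 2 * w3 * w6 * g36 + w4 * w4 * g44 +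
    2 * w4 * w5 * g45 + 2 * w4 * w6 * g46 + w5 * w5 * g55 + 2 * w5 * w6 * g56 + w6 * w6 * g66) :
    0 ≤ 208657726 * g11 + 181504246 * g12 - 306102154 * g13 - 377749400 * g14 + 160521502 * g15 - 6980 * g16 + 534602518 * g22 + 560543024 * g23 - 879695432 * g24 - 657341126 * g25 + 160523438 * g26 + 692939090 * g33 + 177476408 * g34 - 879661434 * g35 - 377701350 * g36 + 692952976 * g44 + 560543256 * g45 - 306095472 * g46 + 534591778 * g55 + 181468848 * g56 + 208634461 * g66 := by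
  linear_combination hN (-7175) (-16709) 3371 26324 10647 (-5814) + hN (-4936) 12893 26107 0 (-18222) (-6483) + hN (-6397) 5788 0 0 2994 11524 + hN 9586 7462 0 0 8957 0

theorem sg24 {g11 g12 g13 g14 g15 g16 g22 g23 g24 g25 g26 g33 g34 g35 g36 g44 g45 g46 g55 g56 g66 : ℝ}
    (hN : ∀ w1 w2 w3 w4 w5 w6 : ℝ, 0 ≤
    w1 * w1 * g11 + 2 * w1 * w2 * g12 + 2 * w1 * w3 * g13 + 2 * w1 * w4 * g14 + 2 * w1 * w5 * g15 + 2 * w1 * w6 * g16 + w2 * w2 * g22 + 2 * w2 * w3 * g23 +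
    2 * w2 * w4 * g24 + 2 * w2 * w5 * g25 + 2 * w2 * w6 * g26 + w3 * w3 * g33 + 2 * w3 * w4 * g34 + 2 * w3 * w5 * g35 + 2 * w3 * w6 * g36 + w4 * w4 * g44 +
    2 * w4 * w5 * g45 + 2 * w4 * w6 * g46 + w5 * w5 * g55 + 2 * w5 * w6 * g56 + w6 * w6 * g66) :
    0 ≤ 534567057 * g11 + 181526354 * g12 - 434652480 * g13 + 160505802 * g14 - 657313410 * g15 - 879662260 * g16 + 208654966 * g22 - 75452320 * g23 - 39932 * g24 + 160499204 * g25 - 377774350 * g26 + 1070598400 * g33 - 75452320 * g34 - 434717920 * g35 - 560493600 * g36 + 208655986 * g44 + 181482164 * g45 - 306085390 * g46 + 534585187 * g55 + 560506422 * g56 + 692970889 * g66 := by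
  linear_combination hN (-6642) (-1153) 32720 (-1153) (-6643) (-8565) + hN (-19955) (-7985) 0 (-6545) 8973 24892 + hN (-9568) 7124 0 7004 20247 0 + hN 838 (-9634) 0 10744 0 0

theorem sg25 {g11 g12 g13 g14 g15 g16 g22 g23 g24 g25 g26 g33 g34 g35 g36 g44 g45 g46 g55 g56 g66 : ℝ}
    (hN : ∀ w1 w2 w3 w4 w5 w6 : ℝ, 0 ≤
    w1 * w1 * g11 + 2 * w1 * w2 * g12 + 2 * w1 * w3 * g13 + 2 * w1 * w4 * g14 + 2 * w1 * w5 * g15 + 2 * w1 * w6 * g16 + w2 * w2 * g22 + 2 * w2 * w3 * g23 +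
    2 * w2 * w4 * g24 + 2 * w2 * w5 * g25 + 2 * w2 * w6 * g26 + w3 * w3 * g33 + 2 * w3 * w4 * g34 + 2 * w3 * w5 * g35 + 2 * w3 * w6 * g36 + w4 * w4 * g44 +
    2 * w4 * w5 * g45 + 2 * w4 * w6 * g46 + w5 * w5 * g55 + 2 * w5 * w6 * g56 + w6 * w6 * g66) :
    0 ≤ 201980944 * g11 - 73191800 * g12 - 88825000 * g13 - 88825000 * g14 - 73191800 * g15 + 403961888 * g16 + 6630625 * g22 + 16093750 * g23 + 16093750 * g24 + 13261250 * g25 - 73191800 * g26 + 9765625 * g33 + 19531250 * g34 + 16093750 * g35 - 88825000 * g36 + 9765625 * g44 + 16093750 * g45 - 88825000 * g46 + 6630625 * g55 - 73191800 * g56 + 201980944 * g66 := by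
  linear_combination hN 14212 (-2575) (-3125) (-3125) (-2575) 14212

theorem sg26 {g11 g12 g13 g14 g15 g16 g22 g23 g24 g25 g26 g33 g34 g35 g36 g44 g45 g46 g55 g56 g66 : ℝ}
    (hN : ∀ w1 w2 w3 w4 w5 w6 : ℝ, 0 ≤
    w1 * w1 * g11 + 2 * w1 * w2 * g12 + 2 * w1 * w3 * g13 + 2 * w1 * w4 * g14 + 2 * w1 * w5 * g15 + 2 * w1 * w6 * g16 + w2 * w2 * g22 + 2 * w2 * w3 * g23 +
    2 * w2 * w4 * g24 + 2 * w2 * w5 * g25 + 2 * w2 * w6 * g26 + w3 * w3 * g33 + 2 * w3 * w4 * g34 + 2 * w3 * w5 * g35 + 2 * w3 * w6 * g36 + w4 * w4 * g44 +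
    2 * w4 * w5 * g45 + 2 * w4 * w6 * g46 + w5 * w5 * g55 + 2 * w5 * w6 * g56 + w6 * w6 * g66) :
    0 ≤ 9765625 * g11 + 16093750 * g12 - 88831250 * g13 + 106406250 * g14 - 88825000 * g15 + 16093750 * g16 + 6630625 * g22 - 73196950 * g23 + 87678750 * g24 - 73191800 * g25 + 13261250 * g26 + 202009369 * g33 - 483952650 * g34 + 403990312 * g35 - 73196950 * g36 + 289850625 * g44 - 483918600 * g45 + 87678750 * g46 + 201980944 * g55 - 73191800 * g56 + 6630625 * g66 := by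
  linear_combination hN 3125 2575 (-14213) 17025 (-14212) 2575

theorem sg35 {g11 g12 g13 g14 g15 g16 g22 g23 g24 g25 g26 g33 g34 g35 g36 g44 g45 g46 g55 g56 g66 : ℝ}
    (hN : ∀ w1 w2 w3 w4 w5 w6 : ℝ, 0 ≤
    w1 * w1 * g11 + 2 * w1 * w2 * g12 + 2 * w1 * w3 * g13 + 2 * w1 * w4 * g14 + 2 * w1 * w5 * g15 + 2 * w1 * w6 * g16 + w2 * w2 * g22 + 2 * w2 * w3 * g23 +
    2 * w2 * w4 * g24 + 2 * w2 * w5 * g25 + 2 * w2 * w6 * g26 + w3 * w3 * g33 + 2 * w3 * w4 * g34 + 2 * w3 * w5 * g35 + 2 * w3 * w6 * g36 + w4 * w4 * g44 +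
    2 * w4 * w5 * g45 + 2 * w4 * w6 * g46 + w5 * w5 * g55 + 2 * w5 * w6 * g56 + w6 * w6 * g66) :
    0 ≤ 692970889 * g11 + 560506422 * g12 - 306085390 * g13 - 560493600 * g14 - 377774350 * g15 - 879662260 * g16 + 534585187 * g22 + 181482164 * g23 - 434717920 * g24 + 160499204 * g25 - 657313410 * g26 + 208655986 * g33 - 75452320 * g34 - 39932 * g35 + 160505802 * g36 + 1070598400 * g44 - 75452320 * g45 - 434652480 * g46 + 208654966 * g55 + 181526354 * g56 + 534567057 * g66 := by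
  linear_combination hN (-8565) (-6643) (-1153) 32720 (-1153) (-6642) + hN 24892 8973 (-6545) 0 (-7985) (-19955) + hN 0 20247 7004 0 7124 (-9568) + hN 0 0 10744 0 (-9634) 838

theorem sg36 {g11 g12 g13 g14 g15 g16 g22 g23 g24 g25 g26 g33 g34 g35 g36 g44 g45 g46 g55 g56 g66 : ℝ}
    (hN : ∀ w1 w2 w3 w4 w5 w6 : ℝ, 0 ≤
    w1 * w1 * g11 + 2 * w1 * w2 * g12 + 2 * w1 * w3 * g13 + 2 * w1 * w4 * g14 + 2 * w1 * w5 * g15 + 2 * w1 * w6 * g16 + w2 * w2 * g22 + 2 * w2 * w3 * g23 +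
    2 * w2 * w4 * g24 + 2 * w2 * w5 * g25 + 2 * w2 * w6 * g26 + w3 * w3 * g33 + 2 * w3 * w4 * g34 + 2 * w3 * w5 * g35 + 2 * w3 * w6 * g36 + w4 * w4 * g44 +
    2 * w4 * w5 * g45 + 2 * w4 * w6 * g46 + w5 * w5 * g55 + 2 * w5 * w6 * g56 + w6 * w6 * g66) :
    0 ≤ 289850625 * g11 - 483918600 * g12 + 87678750 * g13 + 106406250 * g14 + 106406250 * g15 + 87678750 * g16 + 201980944 * g22 - 73191800 * g23 - 88825000 * g24 - 88825000 * g25 - 73191800 * g26 + 6630625 * g33 + 16093750 * g34 + 16093750 * g35 + 13261250 * g36 + 9765625 * g44 + 19531250 * g45 + 16093750 * g46 + 9765625 * g55 + 16093750 * g56 + 6630625 * g66 := by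
  linear_combination hN 17025 (-14212) 2575 3125 3125 2575

theorem sg46 {g11 g12 g13 g14 g15 g16 g22 g23 g24 g25 g26 g33 g34 g35 g36 g44 g45 g46 g55 g56 g66 : ℝ}
    (hN : ∀ w1 w2 w3 w4 w5 w6 : ℝ, 0 ≤
    w1 * w1 * g11 + 2 * w1 * w2 * g12 + 2 * w1 * w3 * g13 + 2 * w1 * w4 * g14 + 2 * w1 * w5 * g15 + 2 * w1 * w6 * g16 + w2 * w2 * g22 + 2 * w2 * w3 * g23 +
    2 * w2 * w4 * g24 + 2 * w2 * w5 * g25 + 2 * w2 * w6 * g26 + w3 * w3 * g33 + 2 * w3 * w4 * g34 + 2 * w3 * w5 * g35 + 2 * w3 * w6 * g36 + w4 * w4 * g44 +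
    2 * w4 * w5 * g45 + 2 * w4 * w6 * g46 + w5 * w5 * g55 + 2 * w5 * w6 * g56 + w6 * w6 * g66) :
    0 ≤ 692938713 * g11 + 177500488 * g12 - 879643324 * g13 - 377738958 * g14 - 560428160 * g15 - 306064110 * g16 + 692953760 * g22 + 560525792 * g23 - 306087696 * g24 - 560428160 * g25 - 377776656 * g26 + 534551752 * g33 + 181492808 * g34 - 434652480 * g35 + 160450952 * g36 + 208647654 * g44 - 75452320 * g45 - 16516 * g46 + 1070598400 * g55 - 75452320 * g56 + 208652982 * g66 := by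
  linear_combination hN (-8564) (-8564) (-6642) (-1153) 32720 (-1153) + hN 619 24892 8974 (-6545) 0 (-7985) + hN 24884 0 (-20184) (-7824) 0 (-6348) + hN 0 0 (-1584) 10162 0 (-10162)

theorem sgW {g11 g12 g13 g14 g15 g16 g22 g23 g24 g25 g26 g33 g34 g35 g36 g44 g45 g46 g55 g56 g66 : ℝ}
    (hN : ∀ w1 w2 w3 w4 w5 w6 : ℝ, 0 ≤
    w1 * w1 * g11 + 2 * w1 * w2 * g12 + 2 * w1 * w3 * g13 + 2 * w1 * w4 * g14 + 2 * w1 * w5 * g15 + 2 * w1 * w6 * g16 + w2 * w2 * g22 + 2 * w2 * w3 * g23 +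
    2 * w2 * w4 * g24 + 2 * w2 * w5 * g25 + 2 * w2 * w6 * g26 + w3 * w3 * g33 + 2 * w3 * w4 * g34 + 2 * w3 * w5 * g35 + 2 * w3 * w6 * g36 + w4 * w4 * g44 +
    2 * w4 * w5 * g45 + 2 * w4 * w6 * g46 + w5 * w5 * g55 + 2 * w5 * w6 * g56 + w6 * w6 * g66) :
    0 ≤ 67948105 * g11 - 122441522 * g12 + 84745106 * g13 - 30247218 * g14 - 30231236 * g15 + 84715708 * g16 + 67947049 * g22 - 122441522 * g23 + 84721554 * g24 - 30235324 * g25 - 30235324 * g26 + 67948105 * g33 - 122422194 * g34 + 84715708 * g35 - 30231236 * g36 + 67934457 * g44 - 122417820 * g45 + 84718116 * g46 + 67940852 * g55 - 122427480 * g56 + 67940852 * g66 := by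
  linear_combination hN (-7427) 8243 (-7427) 5139 (-1834) (-1834) + hN 3576 0 (-3576) 6444 (-8036) 8036

theorem alg {g11 g12 g13 g14 g15 g16 g22 g23 g24 g25 g26 g33 g34 g35 g36 g44 g45 g46 g55 g56 g66 d1234 d1235 d1236 d1245 d1246 d1256 d1345 d1346 d1356 d1456 d2345 d2346 d2356 d2456 d3456 : ℝ}
    (ag11 : -1 ≤ g11 ∧ g11 ≤ 1) (ag12 : -1 ≤ g12 ∧ g12 ≤ 1) (ag13 : -1 ≤ g13 ∧ g13 ≤ 1) (ag14 : -1 ≤ g14 ∧ g14 ≤ 1) (ag15 : -1 ≤ g15 ∧ g15 ≤ 1) (ag16 : -1 ≤ g16 ∧ g16 ≤ 1) (ag22 : -1 ≤ g22 ∧ g22 ≤ 1) (ag23 : -1 ≤ g23 ∧ g23 ≤ 1) (ag24 : -1 ≤ g24 ∧ g24 ≤ 1) (ag25 : -1 ≤ g25 ∧ g25 ≤ 1) (ag26 : -1 ≤ g26 ∧ g26 ≤ 1) (ag33 : -1 ≤ g33 ∧ g33 ≤ 1) (ag34 : -1 ≤ g34 ∧ g34 ≤ 1) (ag35 : -1 ≤ g35 ∧ g35 ≤ 1) (ag36 : -1 ≤ g36 ∧ g36 ≤ 1) (ag44 : -1 ≤ g44 ∧ g44 ≤ 1) (ag45 : -1 ≤ g45 ∧ g45 ≤ 1) (ag46 : -1 ≤ g46 ∧ g46 ≤ 1) (ag55 : -1 ≤ g55 ∧ g55 ≤ 1) (ag56 : -1 ≤ g56 ∧ g56 ≤ 1) (ag66 : -1 ≤ g66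 ∧ g66 ≤ 1)
    (ad1234 : -1 ≤ d1234 ∧ d1234 ≤ 1) (ad1235 : -1 ≤ d1235 ∧ d1235 ≤ 1) (ad1236 : -1 ≤ d1236 ∧ d1236 ≤ 1) (ad1245 : -1 ≤ d1245 ∧ d1245 ≤ 1) (ad1246 : -1 ≤ d1246 ∧ d1246 ≤ 1) (ad1256 : -1 ≤ d1256 ∧ d1256 ≤ 1) (ad1345 : -1 ≤ d1345 ∧ d1345 ≤ 1) (ad1346 : -1 ≤ d1346 ∧ d1346 ≤ 1) (ad1356 : -1 ≤ d1356 ∧ d1356 ≤ 1) (ad1456 : -1 ≤ d1456 ∧ d1456 ≤ 1) (ad2345 : -1 ≤ d2345 ∧ d2345 ≤ 1) (ad2346 : -1 ≤ d2346 ∧ d2346 ≤ 1) (ad2356 : -1 ≤ d2356 ∧ d2356 ≤ 1) (ad2456 : -1 ≤ d2456 ∧ d2456 ≤ 1) (ad3456 : -1 ≤ d3456 ∧ d3456 ≤ 1)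
    (e01 : g11 ≤ 1) (e02 : g22 ≤ 1) (e03 : g33 ≤ 1) (e04 : g44 ≤ 1) (e05 : g55 ≤ 1) (e06 : g66 ≤ 1) (e12 : (g11 + g22 - 2 * g12) ≤ 1) (e13 : (g11 + g33 - 2 * g13) ≤ 1) (e14 : (g11 + g44 - 2 * g14) ≤ 1) (e15 : (g11 + g55 - 2 * g15) ≤ 1) (e16 : (g11 + g66 - 2 * g16) ≤ 1) (e23 : (g22 + g33 - 2 * g23) ≤ 1) (e24 : (g22 + g44 - 2 * g24) ≤ 1) (e25 : (g22 + g55 - 2 * g25) ≤ 1) (e26 : (g22 + g66 - 2 * g26) ≤ 1) (e34 : (g33 + g44 - 2 * g34) ≤ 1) (e35 : (g33 + g55 - 2 * g35) ≤ 1) (e36 : (g33 + g66 - 2 * g36) ≤ 1) (e45 : (g44 + g55 - 2 * g45) ≤ 1) (e46 : (g44 + g66 - 2 * g46) ≤ 1) (e56 : (g55 + g66 - 2 * g56) ≤ 1)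
    (hW : g11 + g22 + g33 + g44 + g55 + g66 + (g11 + g22 - 2 * g12) + (g11 + g33 - 2 * g13) + (g11 + g44 - 2 * g14) + (g11 + g55 - 2 * g15) + (g11 + g66 - 2 * g16) + (g22 + g33 - 2 * g23) + (g22 + g44 - 2 * g24) + (g22 + g55 - 2 * g25) + (g22 + g66 - 2 * g26) + (g33 + g44 - 2 * g34) + (g33 + g55 - 2 * g35) + (g33 + g66 - 2 * g36) + (g44 + g55 - 2 * g45) + (g44 + g66 - 2 * g46) + (g55 + g66 - 2 * g56) ≤ 19)
    (hN : ∀ w1 w2 w3 w4 w5 w6 : ℝ, 0 ≤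
    w1 * w1 * g11 + 2 * w1 * w2 * g12 + 2 * w1 * w3 * g13 + 2 * w1 * w4 * g14 + 2 * w1 * w5 * g15 + 2 * w1 * w6 * g16 + w2 * w2 * g22 + 2 * w2 * w3 * g23 +
    2 * w2 * w4 * g24 + 2 * w2 * w5 * g25 + 2 * w2 * w6 * g26 + w3 * w3 * g33 + 2 * w3 * w4 * g34 + 2 * w3 * w5 * g35 + 2 * w3 * w6 * g36 + w4 * w4 * g44 +
    2 * w4 * w5 * g45 + 2 * w4 * w6 * g46 + w5 * w5 * g55 + 2 * w5 * w6 * g56 + w6 * w6 * g66)
    (hB : 0 ≤
    6163820100 * g11 * g22 - 6163820100 * g12 * g12 - 1454476260 * g11 * g23 + 1454476260 * g12 * g13 - 1633793100 * g11 * g24 + 1633793100 * g12 * g14 -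
    3570477780 * g11 * g25 + 3570477780 * g12 * g15 + 1799920260 * g11 * g26 - 1799920260 * g12 * g16 + 7468656300 * g12 * g23 - 7468656300 * g13 * g22 -
    1799920260 * g12 * g24 + 1799920260 * g14 * g22 + 3570320760 * g12 * g25 - 3570320760 * g15 * g22 + 1633793100 * g12 * g26 - 1633793100 * g16 * g22 +
    4752622314 * g13 * g24 - 7872849754 * g14 * g23 - 20000143532 * d1234 + 1261360142 * g13 * g25 + 1633019962 * g15 * g23 + 6520 * d1235 + 1261343578 * g13 * g26 -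
    2894789368 * g16 * g23 - 29434 * d1236 + 4484131474 * g14 * g25 - 3487432708 * g15 * g24 - 19999978618 * d1245 - 3253426794 * g14 * g26 + 6549865554 * g16 * g24 -
    62688 * d1246 + 4484411022 * g15 * g26 - 3487091350 * g16 * g25 - 20000040428 * d1256 + 2220779797 * g11 * g33 - 2220779797 * g13 * g13 - 147114336 * g11 * g34 +
    147114336 * g13 * g14 - 3130289032 * g11 * g35 + 3130289032 * g13 * g15 - 1509791126 * g11 * g36 + 1509791126 * g13 * g16 - 1454725592 * g12 * g33 +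
    1454725592 * g13 * g23 + 3120227440 * g12 * g34 - 2894380104 * g12 * g35 + 1633445790 * g12 * g36 - 1799835420 * g13 * g34 + 1799835420 * g14 * g33 +
    1509914388 * g13 * g35 - 1509914388 * g15 * g33 + 3130143408 * g13 * g36 - 3130143408 * g16 * g33 + 1261479334 * g14 * g35 + 1633176980 * g15 * g34 -
    50068 * d1345 - 3253532658 * g14 * g36 - 3295995846 * g16 * g34 - 82398 * d1346 - 3253372164 * g15 * g36 + 6549827322 * g16 * g35 - 86184 * d1356 +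
    4080077286 * g11 * g44 - 4080077286 * g14 * g14 + 321324908 * g11 * g45 - 321324908 * g14 * g15 - 3130021968 * g11 * g46 + 3130021968 * g14 * g16 -
    146777796 * g12 * g44 + 146777796 * g14 * g24 - 996698766 * g12 * g45 - 3296438760 * g12 * g46 - 1633717132 * g13 * g44 + 1633717132 * g14 * g34 -
    2894656314 * g13 * g45 + 6549528504 * g13 * g46 + 3570374920 * g14 * g45 - 3570374920 * g15 * g44 + 3130159942 * g14 * g46 - 3130159942 * g16 * g44 +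
    1261443930 * g15 * g46 - 2894905476 * g16 * g45 - 30342 * d1456 + 4080104330 * g11 * g55 - 4080104330 * g15 * g15 - 146885322 * g11 * g56 + 146885322 * g15 * g16 +
    321173692 * g12 * g55 - 321173692 * g15 * g25 - 997319672 * g12 * g56 - 3130351582 * g13 * g55 + 3130351582 * g15 * g35 - 3296455158 * g13 * g56 -
    3570405272 * g14 * g55 + 3570405272 * g15 * g45 + 1633461546 * g14 * g56 + 1633779044 * g15 * g56 - 1633779044 * g16 * g55 + 2220750615 * g11 * g66 -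
    2220750615 * g16 * g16 - 146935986 * g12 * g66 + 146935986 * g16 * g26 - 3130039164 * g13 * g66 + 3130039164 * g16 * g36 - 1509787074 * g14 * g66 +
    1509787074 * g16 * g46 + 1799910600 * g15 * g66 - 1799910600 * g16 * g56 + 6163804395 * g22 * g33 - 6163804395 * g23 * g23 - 1454527326 * g22 * g34 +
    1454527326 * g23 * g24 - 1633667246 * g22 * g35 + 1633667246 * g23 * g25 - 3570464074 * g22 * g36 + 3570464074 * g23 * g26 + 7468736696 * g23 * g34 -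
    7468736696 * g24 * g33 - 1800041238 * g23 * g35 + 1800041238 * g25 * g33 + 3570269174 * g23 * g36 - 3570269174 * g26 * g33 + 4752669452 * g24 * g35 -
    7872672824 * g25 * g34 - 20000043386 * d2345 + 1261455636 * g24 * g36 + 1633010602 * g26 * g34 - 12616 * d2346 + 4484145652 * g25 * g36 - 3487373036 * g26 * g35 -
    20000091576 * d2356 + 2220835999 * g22 * g44 - 2220835999 * g24 * g24 - 146842982 * g22 * g45 + 146842982 * g24 * g25 - 3130380902 * g22 * g46 + 3130380902 * g24 * g26 -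
    1454599132 * g23 * g44 + 1454599132 * g24 * g34 + 3120003372 * g23 * g45 - 2894466238 * g23 * g46 - 1799825206 * g24 * g45 + 1799825206 * g25 * g44 +
    1509918246 * g24 * g46 - 1509918246 * g26 * g44 + 1261536056 * g25 * g46 + 1632843100 * g26 * g45 + 62584 * d2456 + 4079939290 * g22 * g55 - 4079939290 * g25 * g25 +
    321035724 * g22 * g56 - 321035724 * g25 * g26 - 146952048 * g23 * g55 + 146952048 * g25 * g35 - 996772616 * g23 * g56 - 1633755136 * g24 * g55 + 1633755136 * g25 * g45 -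
    2894379156 * g24 * g56 + 3570320774 * g25 * g56 - 3570320774 * g26 * g55 + 4080085938 * g22 * g66 - 4080085938 * g26 * g26 + 321266918 * g23 * g66 -
    321266918 * g26 * g36 - 3130279902 * g24 * g66 + 3130279902 * g26 * g46 - 3570422364 * g25 * g66 + 3570422364 * g26 * g56 + 6163839547 * g33 * g44 -
    6163839547 * g34 * g34 - 1454709794 * g33 * g45 + 1454709794 * g34 * g35 - 1633782912 * g33 * g46 + 1633782912 * g34 * g36 + 7468696910 * g34 * g45 -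
    7468696910 * g35 * g44 - 1799842884 * g34 * g46 + 1799842884 * g36 * g44 + 4752609964 * g35 * g46 - 7872735810 * g36 * g45 - 20000056982 * d3456 +
    2220831074 * g33 * g55 - 2220831074 * g35 * g35 - 146774994 * g33 * g56 + 146774994 * g35 * g36 - 1454651472 * g34 * g55 + 1454651472 * g35 * g45 +
    3120125846 * g34 * g56 - 1800064492 * g35 * g56 + 1800064492 * g36 * g55 + 4080052498 * g33 * g66 - 4080052498 * g36 * g36 - 147075666 * g34 * g66 +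
    147075666 * g36 * g46 - 1633772564 * g35 * g66 + 1633772564 * g36 * g56 + 6163807254 * g44 * g55 - 6163807254 * g45 * g45 - 1454719508 * g44 * g56 +
    1454719508 * g45 * g46 + 7468696482 * g45 * g56 - 7468696482 * g46 * g55 + 2220802378 * g44 * g66 - 2220802378 * g46 * g46 - 1454505220 * g45 * g66 +
    1454505220 * g46 * g56 + 6163761398 * g55 * g66 - 6163761398 * g56 * g56) :
    d3456 + d2356 + d1256 + d2345 + d1245 + d1234 ≤ 1.049 := by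
  have hA := a0 g11 g12 g13 g14 g15 g16 g22 g23 g24 g25 g26 g33 g34 g35 g36 g44 g45 g46 g55 g56 g66
  have hE := eb ag11 ag12 ag13 ag14 ag15 ag16 ag22 ag23 ag24 ag25 ag26 ag33 ag34 ag35 ag36 ag44 ag45 ag46 ag55 ag56 ag66 ad1234 ad1235 ad1236 ad1245 ad1246 ad1256 ad1345 ad1346 ad1356 ad1456 ad2345 ad2346 ad2356 ad2456 ad3456
  have t02 := mul_nonneg (sub_nonneg.2 e02) (sg02 hN)
  have t03 := mul_nonneg (sub_nonneg.2 e03) (sg03 hN)
  have t04 := mul_nonneg (sub_nonneg.2 e04) (sg04 hN)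
  have t05 := mul_nonneg (sub_nonneg.2 e05) (sg05 hN)
  have t13 := mul_nonneg (sub_nonneg.2 e13) (sg13 hN)
  have t14 := mul_nonneg (sub_nonneg.2 e14) (sg14 hN)
  have t15 := mul_nonneg (sub_nonneg.2 e15) (sg15 hN)
  have t16 := mul_nonneg (sub_nonneg.2 e16) (sg16 hN)
  have t24 := mul_nonneg (sub_nonneg.2 e24) (sg24 hN)
  have t25 := mul_nonneg (sub_nonneg.2 e25) (sg25 hN)
  have t26 := mul_nonneg (sub_nonneg.2 e26) (sg26 hN)
  have t35 := mul_nonneg (sub_nonneg.2 e35) (sg35 hN)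
  have t36 := mul_nonneg (sub_nonneg.2 e36) (sg36 hN)
  have t46 := mul_nonneg (sub_nonneg.2 e46) (sg46 hN)
  have tW := mul_nonneg (sub_nonneg.2 hW) (sgW hN)
  have y01_24 := mul_nonneg (sub_nonneg.2 e01) (sub_nonneg.2 e24)
  have y01_26 := mul_nonneg (sub_nonneg.2 e01) (sub_nonneg.2 e26)
  have y01_46 := mul_nonneg (sub_nonneg.2 e01) (sub_nonneg.2 e46)
  have y02_34 := mul_nonneg (sub_nonneg.2 e02) (sub_nonneg.2 e34)
  have y02_56 := mul_nonneg (sub_nonneg.2 e02) (sub_nonneg.2 e56)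
  have y03_04 := mul_nonneg (sub_nonneg.2 e03) (sub_nonneg.2 e04)
  have y03_12 := mul_nonneg (sub_nonneg.2 e03) (sub_nonneg.2 e12)
  have y03_15 := mul_nonneg (sub_nonneg.2 e03) (sub_nonneg.2 e15)
  have y03_25 := mul_nonneg (sub_nonneg.2 e03) (sub_nonneg.2 e25)
  have y03_36 := mul_nonneg (sub_nonneg.2 e03) (sub_nonneg.2 e36)
  have y04_14 := mul_nonneg (sub_nonneg.2 e04) (sub_nonneg.2 e14)
  have y04_25 := mul_nonneg (sub_nonneg.2 e04) (sub_nonneg.2 e25)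
  have y04_26 := mul_nonneg (sub_nonneg.2 e04) (sub_nonneg.2 e26)
  have y04_56 := mul_nonneg (sub_nonneg.2 e04) (sub_nonneg.2 e56)
  have y05_12 := mul_nonneg (sub_nonneg.2 e05) (sub_nonneg.2 e12)
  have y05_34 := mul_nonneg (sub_nonneg.2 e05) (sub_nonneg.2 e34)
  have y06_13 := mul_nonneg (sub_nonneg.2 e06) (sub_nonneg.2 e13)
  have y06_15 := mul_nonneg (sub_nonneg.2 e06) (sub_nonneg.2 e15)
  have y06_35 := mul_nonneg (sub_nonneg.2 e06) (sub_nonneg.2 e35)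
  have y12_35 := mul_nonneg (sub_nonneg.2 e12) (sub_nonneg.2 e35)
  have y13_45 := mul_nonneg (sub_nonneg.2 e13) (sub_nonneg.2 e45)
  have y14_15 := mul_nonneg (sub_nonneg.2 e14) (sub_nonneg.2 e15)
  have y14_23 := mul_nonneg (sub_nonneg.2 e14) (sub_nonneg.2 e23)
  have y14_26 := mul_nonneg (sub_nonneg.2 e14) (sub_nonneg.2 e26)
  have y14_36 := mul_nonneg (sub_nonneg.2 e14) (sub_nonneg.2 e36)
  have y15_25 := mul_nonneg (sub_nonneg.2 e15) (sub_nonneg.2 e25)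
  have y15_36 := mul_nonneg (sub_nonneg.2 e15) (sub_nonneg.2 e36)
  have y16_23 := mul_nonneg (sub_nonneg.2 e16) (sub_nonneg.2 e23)
  have y16_45 := mul_nonneg (sub_nonneg.2 e16) (sub_nonneg.2 e45)
  have y23_46 := mul_nonneg (sub_nonneg.2 e23) (sub_nonneg.2 e46)
  have y24_56 := mul_nonneg (sub_nonneg.2 e24) (sub_nonneg.2 e56)
  have y25_26 := mul_nonneg (sub_nonneg.2 e25) (sub_nonneg.2 e26)
  have y25_34 := mul_nonneg (sub_nonneg.2 e25) (sub_nonneg.2 e34)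
  have y26_36 := mul_nonneg (sub_nonneg.2 e26) (sub_nonneg.2 e36)
  have y36_45 := mul_nonneg (sub_nonneg.2 e36) (sub_nonneg.2 e45)
  have key : 10000000000 * (d3456 + d2356 + d1256 + d2345 + d1245 + d1234) ≤ 10445705445 := by
    linear_combination
      hA + (1/2) * hB + hE + t02 + t03 + t04 + t05 + t13 + t14 + t15 + t16 + t24 + t25 + t26 + t35 + t36 + t46 + tW + 299305913 * y01_24 + 340393317 * y01_26 +
      299317713 * y01_46 + 299309105 * y02_34 + 299317479 * y02_56 + 288403499 * y03_04 + 340397503 * y03_12 + 262702769 * y03_15 + 262705269 * y03_25 +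
      288402506 * y03_36 + 288402506 * y04_14 + 262705269 * y04_25 + 262702769 * y04_26 + 340397503 * y04_56 + 299317479 * y05_12 + 299309105 * y05_34 +
      299317713 * y06_13 + 340393317 * y06_15 + 299305913 * y06_35 + 299318869 * y12_35 + 299311261 * y13_45 + 288406201 * y14_15 + 340392144 * y14_23 +
      262708651 * y14_26 + 262708190 * y14_36 + 288405677 * y15_25 + 262708651 * y15_36 + 299318946 * y16_23 + 299318946 * y16_45 + 299311261 * y23_46 +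
      299318869 * y24_56 + 288405677 * y25_26 + 340400807 * y25_34 + 288406201 * y26_36 + 340392144 * y36_45
  linarith only [key]

end Pool.Agent.Helper89.Vol4.PkPF
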